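import Mathlib

/-!
# Definitions: Levy formulas evaluated in the universe of all sets, `H(κ)`, measurable cardinals
-/

set_option autoImplicit false

namespace Pool.Agent.V11245

open Cardinal

universe u

/-- Put `a` in front of the sequence `v`. -/
def cons {M : Type*} (a : M) (v : ℕ → M) : ℕ → M
  | 0 => a
  | n + 1 => v n

/-- The bounded formulas of set theory, with de Bruijn indices as variables;
`ball i φ` is `∀ x ∈ v_i, φ`, the new variable `x` getting index `0` (and the old ones being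
shifted by one). -/
inductive D0 : Type
  | mem (i j : ℕ)
  | eq (i j : ℕ)
  | neg (φ : D0)
  | and (φ ψ : D0)
  | ball (i : ℕ) (φ : D0)

/-- Truth of a bounded formula in the universe `V` of all sets. -/
def D0.Sat : D0 → (ℕ → ZFSet.{u}) → Prop
  | .mem i j, v => v i ∈ v j
  | .eq i j, v => v i = v j
  | .neg φ, v => ¬ φ.Sat v
  | .and φ ψ, v => φ.Sat v ∧ ψ.Sat v
  | .ball i φ, v => ∀ x ∈ v i, φ.Sat (cons x v)

/-- The `Σ_1`-formulas: finitely many unbounded existential quantifiers in front of a bounded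
formula. -/
inductive S1 : Type
  | base (φ : D0)
  | ex (φ : S1)

/-- Truth of a `Σ_1`-formula in the universe `V` of all sets. -/
def S1.Sat : S1 → (ℕ → ZFSet.{u}) → Prop
  | .base φ, v => φ.Sat v
  | .ex φ, v => ∃ x, φ.Sat (cons x v)

/-- `x ∈ H(κ)`: the transitive closure of `x` has cardinality less than `κ`, i.e. `x` is included
in a transitive set of cardinality less than `κ`. -/
def InH (κ : Cardinal.{u}) (x : ZFSet.{u}) : Prop :=
  ∃ t : ZFSet.{u}, t.IsTransitive ∧ x ⊆ t ∧ t.card < κ

/-- `δ` is a measurable cardinal: it is uncountable and there is a non-principal `δ`-complete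
ultrafilter over `δ`. -/
def IsMeasurable (δ : Cardinal.{u}) : Prop :=
  ℵ₀ < δ ∧ ∃ U : Ultrafilter δ.ord.ToType, (∀ x, {x} ∉ U) ∧
    ∀ S : Set (Set δ.ord.ToType), #S < δ → (∀ A ∈ S, A ∈ U) → ⋂₀ S ∈ U

/-- `κ` is a limit of measurable cardinals: it is not `0`, and the measurable cardinals below `κ` are
unbounded in `κ`. -/
def IsLimitOfMeasurables (κ : Cardinal.{u}) : Prop :=
  κ ≠ 0 ∧ ∀ α < κ.ord, ∃ δ : Cardinal.{u}, IsMeasurable δ ∧ α < δ.ord ∧ δ < κ

/-- The class `X` is definable by a `Σ_1`-formula with (finitely many) parameters in `H(κ) ∪ {κ}`: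
the variable `0` stands for the element `x` of `X`, the variable `i + 1` for the parameter
`z i`. -/
def SigmaOneDefinable (κ : Cardinal.{u}) (X : Set ZFSet.{u}) : Prop :=
  ∃ (φ : S1) (k : ℕ) (z : Fin k → ZFSet.{u}), (∀ i, InH κ (z i) ∨ z i = κ.ord.toZFSet) ∧
    X = {x | φ.Sat (cons x fun i => if h : i < k then z ⟨i, h⟩ else ∅)}

/-- `κ` is a limit of `ω` many measurable cardinals. -/
def IsLimitOfOmegaMeasurables (κ : Cardinal.{u}) : Prop :=
  ∃ k : ℕ → Cardinal.{u}, StrictMono k ∧ (∀ n, IsMeasurable (k n)) ∧ κ = ⨆ n, k n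

end Pool.Agent.V11245
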