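import Pool.Agent.V11245.Prod
import Pool.Agent.V11245.SigDefs

/-!
# The finite support ultrapower of the universe and its collapse
-/

set_option autoImplicit false
set_option linter.unusedSectionVars false
set_option linter.unusedVariables false

namespace Pool.Agent.V11245

open Cardinal Filter

universe u v

section

variable {Λ : Type u} [LinearOrder Λ] {Pt : Λ → Type u} {U : ∀ i, Ultrafilter (Pt i)}

/-- `f` has finite support included in `S` -/
def Fn (S : Set Λ) {X : Type*} (f : (∀ i, Pt i) → X) : Prop :=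
  ∃ a : Finset Λ, (a : Set Λ) ⊆ S ∧ Dep (a : Set Λ) f

theorem Fn.const (S : Set Λ) {X : Type*} (x : X) : Fn (Pt := Pt) S fun _ => x :=
  ⟨∅, by simp, Dep.const x⟩

theorem Fn.mono {S T : Set Λ} (hST : S ⊆ T) {X : Type*} {f : (∀ i, Pt i) → X} (hf : Fn S f) :
    Fn T f := by
  obtain ⟨a, h1, h2⟩ := hf
  exact ⟨a, h1.trans hST, h2⟩

theorem Fn.comp {S : Set Λ} {X Y : Type*} {f : (∀ i, Pt i) → X} (hf : Fn S f) (h : X → Y) :
    Fn S fun s => h (f s) := by
  obtain ⟨a, h1, h2⟩ := hf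
  exact ⟨a, h1, h2.comp h⟩

theorem Fn.comp₂ {S : Set Λ} {X Y Z : Type*} {f : (∀ i, Pt i) → X} {g : (∀ i, Pt i) → Y}
    (hf : Fn S f) (hg : Fn S g) (h : X → Y → Z) : Fn S fun s => h (f s) (g s) := by
  classical
  obtain ⟨a, h1, h2⟩ := hf
  obtain ⟨b, h1', h2'⟩ := hg
  have ha : (a : Set Λ) ⊆ ((a ∪ b : Finset Λ) : Set Λ) := by simp
  have hb : (b : Set Λ) ⊆ ((a ∪ b : Finset Λ) : Set Λ) := by simp
  refine ⟨a ∪ b, by simp [h1, h1'], (h2.mono ha).comp₂ (h2'.mono hb) h⟩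

theorem Fn.ev_or {S : Set Λ} {E : (∀ i, Pt i) → Prop} (hE : Fn S E) :
    (∀ᶠ s in FF U, E s) ∨ ∀ᶠ s in FF U, ¬ E s := by
  obtain ⟨a, h1, h2⟩ := hE
  exact Pool.Agent.V11245.ev_or h2

theorem Fn.ev_not {S : Set Λ} {E : (∀ i, Pt i) → Prop} (hE : Fn S E) :
    (∀ᶠ s in FF U, ¬ E s) ↔ ¬ ∀ᶠ s in FF U, E s := by
  obtain ⟨a, h1, h2⟩ := hE
  exact Pool.Agent.V11245.ev_not h2

theorem Dep.exists_choice {a : Set Λ} {X : Type*} [Nonempty X] {E : (∀ i, Pt i) → X → Prop}
    (hE : Dep a E) : ∃ g : (∀ i, Pt i) → X, Dep a g ∧ ∀ s, (∃ x, E s x) → E s (g s) := by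
  classical
  let F : (X → Prop) → X := fun p => if h : ∃ x, p x then h.choose else Classical.arbitrary X
  refine ⟨fun s => F (E s), hE.comp F, fun s h => ?_⟩
  have : F (E s) = h.choose := by simp only [F, dif_pos h]
  dsimp only
  rw [this]
  exact h.choose_spec

theorem Fn.exists_choice {S : Set Λ} {X : Type*} [Nonempty X] {E : (∀ i, Pt i) → X → Prop}
    (hE : Fn S E) : ∃ g : (∀ i, Pt i) → X, Fn S g ∧ ∀ s, (∃ x, E s x) → E s (g s) := by
  obtain ⟨a, h1, h2⟩ := hE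
  obtain ⟨g, h3, h4⟩ := h2.exists_choice
  exact ⟨g, ⟨a, h1, h3⟩, h4⟩

variable (U) in
/-- membership almost everywhere -/
def Rel (S : Set Λ) (g f : (∀ i, Pt i) → ZFSet.{u}) : Prop :=
  Fn S g ∧ Fn S f ∧ ∀ᶠ s in FF U, g s ∈ f s

theorem rel_wf [WellFoundedLT Λ] {S : Set Λ} (hS : ∀ i ∈ S, Comp (Order.succ ℵ₀) (U i)) :
    WellFounded (Rel U S) := by
  rw [wellFounded_iff_isEmpty_descending_chain]
  refine ⟨fun ⟨f, hf⟩ => ?_⟩
  have hfn : ∀ n, Fn S (fun s => f (n + 1) s ∈ f n s) := fun n =>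
    (hf n).1.comp₂ (hf n).2.1 (fun x y => x ∈ y)
  choose a ha1 ha2 using hfn
  obtain ⟨s, hs⟩ := exists_point hS ha1 ha2 fun n => (hf n).2.2
  exact (wellFounded_iff_isEmpty_descending_chain.1 ZFSet.mem_wf).elim
    ⟨fun n => f n s, fun n => hs n⟩

instance small_sub (S : Set Λ) (f : (∀ i, Pt i) → ZFSet.{u}) :
    Small.{u} {g : (∀ i, Pt i) → ZFSet.{u} // Rel U S g f ∧ ∀ s, g s ∈ f s ∨ g s = ∅} := by
  have h : Small.{u} (∀ s : (∀ i, Pt i), ((insert ∅ (f s) : ZFSet.{u}) : Type _)) := inferInstance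
  refine small_of_injective (β := ∀ s : (∀ i, Pt i), ((insert ∅ (f s) : ZFSet.{u}) : Type _))
    (f := fun g s => ⟨g.1 s, ?_⟩) ?_
  · rcases g.2.2 s with h | h
    · exact ZFSet.mem_insert_of_mem _ h
    · rw [h]
      exact ZFSet.mem_insert _ _
  · intro g g' hgg
    refine Subtype.ext (funext fun s => ?_)
    exact Subtype.ext_iff.1 (congrFun hgg s)

/-- the collapse -/
noncomputable def col {S : Set Λ} (h : WellFounded (Rel U S)) :
    ((∀ i, Pt i) → ZFSet.{u}) → ZFSet.{u} :=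
  h.fix fun f rec => ZFSet.range
    fun g : {g : (∀ i, Pt i) → ZFSet.{u} // Rel U S g f ∧ ∀ s, g s ∈ f s ∨ g s = ∅} =>
      rec g.1 g.2.1

variable {S : Set Λ} (h : WellFounded (Rel U S))

theorem mem_col' {f : (∀ i, Pt i) → ZFSet.{u}} {y : ZFSet.{u}} :
    y ∈ col h f ↔ ∃ g, Rel U S g f ∧ (∀ s, g s ∈ f s ∨ g s = ∅) ∧ col h g = y := by
  unfold col
  rw [h.fix_eq, ZFSet.mem_range]
  constructor
  · rintro ⟨⟨g, h1, h2⟩, h3⟩
    exact ⟨g, h1, h2, h3⟩
  · rintro ⟨g, h1, h2, h3⟩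
    exact ⟨⟨g, h1, h2⟩, h3⟩

open Classical in
/-- cut the values -/
noncomputable def cutv (x y : ZFSet.{u}) : ZFSet.{u} := if x ∈ y then x else ∅

theorem cutv_mem (x y : ZFSet.{u}) : cutv x y ∈ y ∨ cutv x y = ∅ := by
  unfold cutv
  split_ifs with h
  · exact Or.inl h
  · exact Or.inr rfl

theorem cutv_of_mem {x y : ZFSet.{u}} (hxy : x ∈ y) : cutv x y = x := if_pos hxy

theorem col_congr {f : (∀ i, Pt i) → ZFSet.{u}} : ∀ {f' : (∀ i, Pt i) → ZFSet.{u}},
    Fn S f → Fn S f' → (∀ᶠ s in FF U, f s = f' s) → col h f = col h f' := by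
  induction f using h.induction with
  | _ f ih =>
    intro f' hf hf' hff
    ext y
    rw [mem_col', mem_col']
    constructor
    · rintro ⟨g, h1, -, h3⟩
      refine ⟨fun s => cutv (g s) (f' s), ?_, fun s => cutv_mem _ _, ?_⟩
      · refine ⟨h1.1.comp₂ hf' cutv, hf', ?_⟩
        filter_upwards [h1.2.2, hff] with s hs1 hs2
        rw [hs2] at hs1
        rw [cutv_of_mem hs1]
        exact hs1
      · rw [← h3]
        refine (ih g h1 h1.1 (h1.1.comp₂ hf' cutv) ?_).symm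
        filter_upwards [h1.2.2, hff] with s hs1 hs2
        rw [hs2] at hs1
        rw [cutv_of_mem hs1]
    · rintro ⟨g, h1, -, h3⟩
      have h4 : Rel U S (fun s => cutv (g s) (f s)) f := by
        refine ⟨h1.1.comp₂ hf cutv, hf, ?_⟩
        filter_upwards [h1.2.2, hff] with s hs1 hs2
        rw [← hs2] at hs1
        rw [cutv_of_mem hs1]
        exact hs1
      refine ⟨fun s => cutv (g s) (f s), h4, fun s => cutv_mem _ _, ?_⟩
      rw [← h3]
      refine ih _ h4 h4.1 h1.1 ?_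
      filter_upwards [h1.2.2, hff] with s hs1 hs2
      rw [← hs2] at hs1
      rw [cutv_of_mem hs1]

theorem mem_col {f : (∀ i, Pt i) → ZFSet.{u}} {y : ZFSet.{u}} :
    y ∈ col h f ↔ ∃ g, Rel U S g f ∧ col h g = y := by
  rw [mem_col']
  constructor
  · rintro ⟨g, h1, -, h3⟩
    exact ⟨g, h1, h3⟩
  · rintro ⟨g, h1, h3⟩
    refine ⟨fun s => cutv (g s) (f s), ?_, fun s => cutv_mem _ _, ?_⟩
    · refine ⟨h1.1.comp₂ h1.2.1 cutv, h1.2.1, ?_⟩
      filter_upwards [h1.2.2] with s hs1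
      rw [cutv_of_mem hs1]
      exact hs1
    · rw [← h3]
      refine col_congr h (h1.1.comp₂ h1.2.1 cutv) h1.1 ?_
      filter_upwards [h1.2.2] with s hs1
      rw [cutv_of_mem hs1]

theorem col_inj {f : (∀ i, Pt i) → ZFSet.{u}} : ∀ {f' : (∀ i, Pt i) → ZFSet.{u}},
    Fn S f → Fn S f' → col h f = col h f' → ∀ᶠ s in FF U, f s = f' s := by
  induction f using h.induction with
  | _ f ih =>
    intro f' hf hf' hff
    have hsub1 : ∀ᶠ s in FF U, ∀ z ∈ f s, z ∈ f' s := by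
      rcases (hf.comp₂ hf' (fun x y => ∀ z ∈ x, z ∈ y)).ev_or (U := U) with h1 | h1
      · exact h1
      exfalso
      obtain ⟨g, hg1, hg2⟩ := (hf.comp₂ hf' (fun x y z => z ∈ x ∧ z ∉ y)).exists_choice
      have h2 : ∀ᶠ s in FF U, g s ∈ f s ∧ g s ∉ f' s := by
        filter_upwards [h1] with s hs
        push Not at hs
        exact hg2 s hs
      have h3 : Rel U S g f := ⟨hg1, hf, h2.mono fun s hs => hs.1⟩
      have h4 : col h g ∈ col h f' := by
        rw [← hff, mem_col]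
        exact ⟨g, h3, rfl⟩
      rw [mem_col] at h4
      obtain ⟨g', h5, h6⟩ := h4
      have h7 := ih g h3 hg1 h5.1 h6.symm
      obtain ⟨s, hs1, hs2, hs3⟩ := (h2.and (h7.and h5.2.2)).exists
      rw [← hs2] at hs3
      exact hs1.2 hs3
    have hsub2 : ∀ᶠ s in FF U, ∀ z ∈ f' s, z ∈ f s := by
      rcases (hf.comp₂ hf' (fun x y => ∀ z ∈ y, z ∈ x)).ev_or (U := U) with h1 | h1
      · exact h1
      exfalso
      obtain ⟨g, hg1, hg2⟩ := (hf.comp₂ hf' (fun x y z => z ∈ y ∧ z ∉ x)).exists_choice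
      have h2 : ∀ᶠ s in FF U, g s ∈ f' s ∧ g s ∉ f s := by
        filter_upwards [h1] with s hs
        push Not at hs
        exact hg2 s hs
      have h3 : Rel U S g f' := ⟨hg1, hf', h2.mono fun s hs => hs.1⟩
      have h4 : col h g ∈ col h f := by
        rw [hff, mem_col]
        exact ⟨g, h3, rfl⟩
      rw [mem_col] at h4
      obtain ⟨g', h5, h6⟩ := h4
      have h7 := ih g' h5 h5.1 hg1 h6
      obtain ⟨s, hs1, hs2, hs3⟩ := (h2.and (h7.and h5.2.2)).exists
      rw [hs2] at hs3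
      exact hs1.2 hs3
    filter_upwards [hsub1, hsub2] with s hs1 hs2
    ext z
    exact ⟨hs1 z, hs2 z⟩

theorem col_eq_iff {f f' : (∀ i, Pt i) → ZFSet.{u}} (hf : Fn S f) (hf' : Fn S f') :
    col h f = col h f' ↔ ∀ᶠ s in FF U, f s = f' s :=
  ⟨col_inj h hf hf', col_congr h hf hf'⟩

theorem col_mem_iff {f f' : (∀ i, Pt i) → ZFSet.{u}} (hf : Fn S f) (hf' : Fn S f') :
    col h f ∈ col h f' ↔ ∀ᶠ s in FF U, f s ∈ f' s := by
  rw [mem_col]
  constructor
  · rintro ⟨g, h1, h2⟩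
    have h3 := col_inj h h1.1 hf h2
    filter_upwards [h3, h1.2.2] with s hs1 hs2
    rwa [← hs1]
  · intro h1
    exact ⟨f, ⟨hf, hf', h1⟩, rfl⟩

theorem Dep.sat {a : Set Λ} {v : ℕ → (∀ i, Pt i) → ZFSet.{u}} (hv : ∀ n, Dep a (v n)) (φ : D0) :
    Dep a fun s => φ.Sat fun n => v n s := by
  intro s t hst
  have : (fun n => v n s) = fun n => v n t := funext fun n => hv n s t hst
  dsimp only
  rw [this]

theorem cons_apply {X Y : Type*} (g : X → Y) (x : X) (v : ℕ → X) :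
    (fun n => g (cons x v n)) = cons (g x) (fun n => g (v n)) := by
  funext n
  cases n <;> rfl

theorem cons_ev {X Y : Type*} (g : X → Y) (v : ℕ → X → Y) (s : X) :
    (fun n => (cons g v n : X → Y) s) = cons (g s) (fun n => v n s) := by
  funext n
  cases n <;> rfl

/-- Łoś's theorem for bounded formulas -/
theorem los (φ : D0) : ∀ (v : ℕ → (∀ i, Pt i) → ZFSet.{u}) (a : Finset Λ), (a : Set Λ) ⊆ S →
    (∀ n, Dep (a : Set Λ) (v n)) →
    (φ.Sat (fun n => col h (v n)) ↔ ∀ᶠ s in FF U, φ.Sat fun n => v n s) := by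
  classical
  induction φ with
  | mem i j =>
    intro v a ha hv
    exact col_mem_iff h ⟨a, ha, hv i⟩ ⟨a, ha, hv j⟩
  | eq i j =>
    intro v a ha hv
    exact col_eq_iff h ⟨a, ha, hv i⟩ ⟨a, ha, hv j⟩
  | neg φ ih =>
    intro v a ha hv
    show ¬ φ.Sat _ ↔ ∀ᶠ s in FF U, ¬ φ.Sat _
    rw [ih v a ha hv, Pool.Agent.V11245.ev_not (Dep.sat hv φ)]
  | and φ ψ ih1 ih2 =>
    intro v a ha hv
    show φ.Sat _ ∧ ψ.Sat _ ↔ ∀ᶠ s in FF U, (φ.Sat _ ∧ ψ.Sat _)
    rw [ih1 v a ha hv, ih2 v a ha hv, Filter.eventually_and]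
  | ball i φ ih =>
    intro v a ha hv
    show (∀ x ∈ col h (v i), φ.Sat (cons x fun n => col h (v n))) ↔
      ∀ᶠ s in FF U, ∀ x ∈ v i s, φ.Sat (cons x fun n => v n s)
    constructor
    · intro h1
      have hall : Dep (a : Set Λ) fun s => fun n => v n s := by
        intro s t hst
        funext n
        exact hv n s t hst
      rcases Pool.Agent.V11245.ev_or (U := U)
        (hall.comp fun w => ∀ x ∈ w i, φ.Sat (cons x w)) with h2 | h2
      · exact h2
      exfalso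
      obtain ⟨g, hg1, hg2⟩ := (hall.comp fun w x => x ∈ w i ∧ ¬ φ.Sat (cons x w)).exists_choice
      have h3 : ∀ᶠ s in FF U, g s ∈ v i s ∧ ¬ φ.Sat (cons (g s) fun n => v n s) := by
        filter_upwards [h2] with s hs
        push Not at hs
        exact hg2 s hs
      have h4 := h1 (col h g) ((col_mem_iff h ⟨a, ha, hg1⟩ ⟨a, ha, hv i⟩).2
        (h3.mono fun s hs => hs.1))
      rw [← cons_apply (col h) g v, ih (cons g v) a ha (by
        intro n
        cases n with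
        | zero => exact hg1
        | succ n => exact hv n)] at h4
      obtain ⟨s, hs1, hs2⟩ := (h4.and h3).exists
      rw [cons_ev] at hs1
      exact hs2.2 hs1
    · intro h1 x hx
      rw [mem_col] at hx
      obtain ⟨g, ⟨⟨b, hb, hgb⟩, -, hg⟩, rfl⟩ := hx
      have hsa : (a : Set Λ) ⊆ ((a ∪ b : Finset Λ) : Set Λ) := by simp
      have hsb : (b : Set Λ) ⊆ ((a ∪ b : Finset Λ) : Set Λ) := by simp
      rw [← cons_apply (col h) g v, ih (cons g v) (a ∪ b) (by simp [ha, hb]) (by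
        intro n
        cases n with
        | zero => exact hgb.mono hsb
        | succ n => exact (hv n).mono hsa)]
      filter_upwards [h1, hg] with s hs1 hs2
      rw [cons_ev]
      exact hs1 _ hs2

/-- the embedding of the universe -/
noncomputable def emb (x : ZFSet.{u}) : ZFSet.{u} := col h fun _ => x

theorem emb_sat (φ : D0) (v : ℕ → ZFSet.{u}) : φ.Sat (fun n => emb h (v n)) ↔ φ.Sat v := by
  have h1 := los h φ (fun n _ => v n) ∅ (by simp) fun n => Dep.const _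
  rw [Filter.eventually_const] at h1
  exact h1

/-- `Σ_1`-formulas are preserved -/
theorem emb_sat_S1 (φ : S1) : ∀ v : ℕ → ZFSet.{u}, φ.Sat v → φ.Sat fun n => emb h (v n) := by
  induction φ with
  | base φ => intro v hv; exact (emb_sat h φ v).2 hv
  | ex φ ih =>
    rintro v ⟨x, hx⟩
    refine ⟨emb h x, ?_⟩
    rw [← cons_apply (emb h) x v]
    exact ih _ hx

theorem emb_mem_iff {x y : ZFSet.{u}} : emb h x ∈ emb h y ↔ x ∈ y := by
  unfold emb
  rw [col_mem_iff h (Fn.const S x) (Fn.const S y), Filter.eventually_const]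

theorem emb_inj {x y : ZFSet.{u}} (hxy : emb h x = emb h y) : x = y := by
  have := col_inj h (Fn.const S x) (Fn.const S y) hxy
  rwa [Filter.eventually_const] at this

end

end Pool.Agent.V11245
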