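import Pool.Agent.V11245.Meas

/-!
# The core argument: no long well-order is preserved by the iterated ultrapowers
-/

set_option autoImplicit false
set_option linter.unusedSectionVars false
set_option linter.unusedVariables false

namespace Pool.Agent.V11245

open Cardinal Filter

universe u v

/-- the coordinates -/
abbrev Lam (κ : Cardinal.{u}) : Type u := κ.ord.ToType ×ₗ κ.ord.ToType

section

variable {κ : Cardinal.{u}} {X : κ.ord.ToType → Type u} {V : ∀ η, Ultrafilter (X η)}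
  {w : ∀ η, X η → Ordinal.{u}}

/-- the points -/
abbrev PP (X : κ.ord.ToType → Type u) : Lam κ → Type u := fun i => X (ofLex i).1

/-- the ultrafilters -/
abbrev UU (V : ∀ η, Ultrafilter (X η)) : ∀ i : Lam κ, Ultrafilter (PP X i) := fun i => V (ofLex i).1

/-- the cardinal at a coordinate -/
noncomputable def lab (i : Lam κ) : Cardinal.{u} := #(Set.Iio (ofLex i).1)

/-- `V η` is a measure if the cardinal of `η` is measurable -/
def IsLab (V : ∀ η, Ultrafilter (X η)) (w : ∀ η, X η → Ordinal.{u}) : Prop :=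
  ∀ η, IsMeasurable #(Set.Iio η) → Comp #(Set.Iio η) (V η) ∧ #(X η) ≤ #(Set.Iio η) ∧
    (∀ x, w η x < (#(Set.Iio η)).ord) ∧ ∀ x, ∀ᶠ y in (V η : Filter _), w η x < w η y

theorem exists_isLab (κ : Cardinal.{u}) : ∃ (X : κ.ord.ToType → Type u)
    (V : ∀ η, Ultrafilter (X η)) (w : ∀ η, X η → Ordinal.{u}), IsLab V w := by
  have hdata : ∀ η : κ.ord.ToType, ∃ (X : Type u) (V : Ultrafilter X) (w : X → Ordinal.{u}),
      IsMeasurable #(Set.Iio η) → Comp #(Set.Iio η) V ∧ #X ≤ #(Set.Iio η) ∧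
      (∀ x, w x < (#(Set.Iio η)).ord) ∧ ∀ x, ∀ᶠ y in (V : Filter _), w x < w y := by
    intro η
    by_cases h : IsMeasurable #(Set.Iio η)
    · obtain ⟨X, V, w, h1⟩ := h.data
      exact ⟨X, V, w, fun _ => h1⟩
    · exact ⟨PUnit, pure PUnit.unit, fun _ => 0, fun h' => absurd h' h⟩
  choose X V w hw using hdata
  exact ⟨X, V, w, hw⟩

theorem wf_of_meas (hV : IsLab V w) {T : Set (Lam κ)} (hT : ∀ i ∈ T, IsMeasurable (lab i)) :
    WellFounded (Rel (UU V) T) :=
  rel_wf fun i hi => (hV _ (hT i hi)).1.mono (Order.succ_le_of_lt (hT i hi).1)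

/-- the block of length `ℓ` for the cardinal `δ` -/
def Bl (κ : Cardinal.{u}) (δ : Cardinal.{u}) (ℓ : Ordinal.{u}) : Set (Lam κ) :=
  {i | Ordinal.typein (α := κ.ord.ToType) (· < ·) (ofLex i).1 = δ.ord ∧
    Ordinal.typein (α := κ.ord.ToType) (· < ·) (ofLex i).2 < ℓ}

theorem lab_Bl {δ : Cardinal.{u}} {ℓ : Ordinal.{u}} {i : Lam κ} (hi : i ∈ Bl κ δ ℓ) :
    lab i = δ := by
  unfold lab
  rw [card_Iio, hi.1, Cardinal.card_ord]

theorem meas_Bl {δ : Cardinal.{u}} (hδ : IsMeasurable δ) {ℓ : Ordinal.{u}} :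
    ∀ i ∈ Bl κ δ ℓ, IsMeasurable (lab i) := by
  intro i hi
  rw [lab_Bl hi]
  exact hδ

theorem card_Bl {δ : Cardinal.{u}} (hδ : δ < κ) {ℓ : Ordinal.{u}} :
    #(Bl κ δ ℓ) ≤ ℓ.card := by
  obtain ⟨η, hη⟩ := exists_elem hδ
  have h1 : #(Bl κ δ ℓ) ≤ #ℓ.ToType := by
    refine Cardinal.mk_le_of_injective
      (f := fun i => Ordinal.enum (α := ℓ.ToType) (· < ·)
        ⟨Ordinal.typein (α := κ.ord.ToType) (· < ·) (ofLex i.1).2, by
          rw [Set.mem_Iio, Ordinal.type_toType]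
          exact i.2.2⟩) ?_
    intro i j hij
    have h2 := (Ordinal.enum (α := ℓ.ToType) (· < ·)).injective hij
    have h3 := Subtype.ext_iff.1 h2
    have h4 : (ofLex i.1).2 = (ofLex j.1).2 :=
      Ordinal.typein_injective (α := κ.ord.ToType) (· < ·) h3
    have h5 : (ofLex i.1).1 = (ofLex j.1).1 :=
      Ordinal.typein_injective (α := κ.ord.ToType) (· < ·) (i.2.1.trans j.2.1.symm)
    exact Subtype.ext (Prod.ext h5 h4)
  rwa [Cardinal.mk_toType] at h1

theorem Bl_lt {δ δ' : Cardinal.{u}} (h : δ < δ') {ℓ ℓ' : Ordinal.{u}} {i j : Lam κ}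
    (hi : i ∈ Bl κ δ ℓ) (hj : j ∈ Bl κ δ' ℓ') : i < j := by
  rw [Prod.Lex.lt_iff]
  left
  rw [← Ordinal.typein_lt_typein (α := κ.ord.ToType) (· < ·), hi.1, hj.1]
  exact Cardinal.ord_lt_ord.2 h

theorem upd {Λ : Type u} [DecidableEq Λ] {Pt : Λ → Type u} (b : ∀ i, Pt i) (i j : Λ) (x : Pt i)
    (y : Pt j) (hij : i ≠ j) : Function.update (Function.update b i x) j y i = x ∧
      Function.update (Function.update b i x) j y j = y :=
  ⟨by rw [Function.update_of_ne hij, Function.update_self], by rw [Function.update_self]⟩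

/-- growth -/
theorem mem_emb_Bl (hV : IsLab V w) {δ : Cardinal.{u}} (hδ : IsMeasurable δ) (hδκ : δ < κ)
    {ℓ : Ordinal.{u}} (hℓ : ℓ ≤ κ.ord) {β : Ordinal.{u}} (hβ : β < ℓ) :
    β.toZFSet ∈ emb (wf_of_meas hV (meas_Bl (κ := κ) hδ (ℓ := ℓ))) δ.ord.toZFSet := by
  classical
  obtain ⟨η, hη⟩ := exists_elem hδκ
  have hcard : #(Set.Iio η) = δ := by rw [card_Iio, hη, Cardinal.card_ord]
  have hη' := hV η (by rw [hcard]; exact hδ)
  rw [hcard] at hη'
  have hex : ∀ β : Ordinal.{u}, ∃ x : κ.ord.ToType, β < κ.ord →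
      Ordinal.typein (α := κ.ord.ToType) (· < ·) x = β := by
    intro β
    by_cases hβ : β < κ.ord
    · obtain ⟨x, hx⟩ := exists_elem' hβ
      exact ⟨x, fun _ => hx⟩
    · exact ⟨η, fun h => absurd h hβ⟩
  choose e he using hex
  let c : Ordinal.{u} → Lam κ := fun β => toLex (η, e β)
  let π : Ordinal.{u} → (∀ i, PP X i) → ZFSet.{u} := fun β s => (w η (s (c β))).toZFSet
  have hc : ∀ β < ℓ, c β ∈ Bl κ δ ℓ := fun β hβ =>
    ⟨hη, by
      show Ordinal.typein (α := κ.ord.ToType) (· < ·) (e β) < ℓ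
      rw [he β (hβ.trans_le hℓ)]
      exact hβ⟩
  have hlt : ∀ γ < ℓ, ∀ β < γ, c β < c γ := by
    intro γ hγ β hβ
    rw [Prod.Lex.lt_iff]
    right
    refine ⟨rfl, ?_⟩
    show e β < e γ
    rw [← Ordinal.typein_lt_typein (α := κ.ord.ToType) (· < ·), he β ((hβ.trans hγ).trans_le hℓ),
      he γ (hγ.trans_le hℓ)]
    exact hβ
  have hdep : ∀ β, Dep (({c β} : Finset (Lam κ)) : Set (Lam κ)) (fun s : (∀ i, PP X i) => s (c β)) := by
    intro β s t hst
    exact hst _ (by simp)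
  refine mem_emb_of_chain _ π ?_ ?_ ?_ hβ
  · intro β hβ
    refine ⟨{c β}, by simpa using hc β hβ, (hdep β).comp fun x => (w η x).toZFSet⟩
  · intro β hβ
    refine Filter.Eventually.of_forall fun s => ?_
    simp only [π]
    rw [Ordinal.toZFSet_mem_toZFSet_iff]
    exact hη'.2.2.1 _
  · intro γ hγ β hβ
    have hne : c β ≠ c γ := (hlt γ hγ β hβ).ne
    have hd : Dep ((({c β} ∪ {c γ} : Finset (Lam κ))) : Set (Lam κ)) fun s => π β s ∈ π γ s := by
      refine Dep.comp₂ (((hdep β).mono ?_).comp fun x => (w η x).toZFSet)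
        (((hdep γ).mono ?_).comp fun x => (w η x).toZFSet) fun x y => x ∈ y
      · simp
      · simp
    rw [ev_iff hd]
    unfold W
    rw [sort_union (by simpa using hlt γ hγ β hβ), Finset.sort_singleton, Finset.sort_singleton,
      List.singleton_append, P_cons]
    refine Filter.Eventually.of_forall fun x => ?_
    rw [P_cons]
    refine (hη'.2.2.2 x).mono fun y hy => ?_
    rw [P_nil]
    have hup := upd (Pt := PP X) (base (UU V)) (c β) (c γ) x y hne
    refine Ordinal.toZFSet_mem_toZFSet_iff.2 ?_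
    exact ((congrArg (w η) hup.1).trans_lt hy).trans_eq (congrArg (w η) hup.2).symm

/-- sets fixed by all iterates are determined by their part below `δ` -/
theorem fix_unique (hV : IsLab V w) {δ : Cardinal.{u}} (hδ : IsMeasurable δ) (hδκ : δ < κ)
    (hκ : ℵ₀ ≤ κ) {A A' : ZFSet.{u}} (hA : A ⊆ κ.ord.toZFSet) (hA' : A' ⊆ κ.ord.toZFSet)
    (hfix : ∀ ℓ < κ.ord, emb (wf_of_meas hV (meas_Bl (κ := κ) hδ (ℓ := ℓ))) A = A)
    (hfix' : ∀ ℓ < κ.ord, emb (wf_of_meas hV (meas_Bl (κ := κ) hδ (ℓ := ℓ))) A' = A')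
    (heq : A ∩ δ.ord.toZFSet = A' ∩ δ.ord.toZFSet) : A = A' := by
  have key : ∀ {A A' : ZFSet.{u}}, A ⊆ κ.ord.toZFSet →
      (∀ ℓ < κ.ord, emb (wf_of_meas hV (meas_Bl (κ := κ) hδ (ℓ := ℓ))) A = A) →
      (∀ ℓ < κ.ord, emb (wf_of_meas hV (meas_Bl (κ := κ) hδ (ℓ := ℓ))) A' = A') →
      A ∩ δ.ord.toZFSet = A' ∩ δ.ord.toZFSet → A ⊆ A' := by
    intro A A' hA hfix hfix' heq y hy
    obtain ⟨β, hβ, rfl⟩ := Ordinal.mem_toZFSet_iff.1 (hA hy)
    have hℓ : Order.succ β < κ.ord := (Cardinal.isSuccLimit_ord hκ).succ_lt hβ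
    have h1 := mem_emb_Bl hV hδ hδκ hℓ.le (Order.lt_succ β)
    have h2 := hfix _ hℓ
    have h3 := hfix' _ hℓ
    have h4 : β.toZFSet ∈ emb (wf_of_meas hV (meas_Bl (κ := κ) hδ (ℓ := Order.succ β))) A := by
      rw [h2]
      exact hy
    have h5 := emb_inter _ h4 h1
    rw [heq] at h5
    rw [← h3]
    exact emb_subset _ (fun z hz => (ZFSet.mem_inter.1 hz).1) h5
  exact subset_antisymm (key hA hfix hfix' heq) (key hA' hfix' hfix heq.symm)

/-- some member of `D` is moved by an iterate of every measure -/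
theorem exists_moved (hV : IsLab V w) (hκ : ℵ₀ ≤ κ) (hs : ∀ c < κ, (2 : Cardinal.{u}) ^ c < κ)
    {D : Set ZFSet.{u}} (hD : ∀ A ∈ D, A ⊆ κ.ord.toZFSet) (hcard : Cardinal.lift.{u+1} κ < #D) :
    ∃ A ∈ D, ∀ (δ : Cardinal.{u}) (hδ : IsMeasurable δ), δ < κ →
      ∃ ℓ < κ.ord, emb (wf_of_meas hV (meas_Bl (κ := κ) hδ (ℓ := ℓ))) A ≠ A := by
  classical
  by_contra hcon
  push Not at hcon
  choose δ hδ hδκ hfix using fun A : D => hcon A.1 A.2
  have hη : ∀ A : D, ∃ η : κ.ord.ToType,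
      Ordinal.typein (α := κ.ord.ToType) (· < ·) η = (δ A).ord := fun A => exists_elem (hδκ A)
  choose η hη using hη
  let Y : κ.ord.ToType → ZFSet.{u} := fun η =>
    ((#(Set.Iio η)).ord.toZFSet).powerset
  have hmem : ∀ A : D, A.1 ∩ (δ A).ord.toZFSet ∈ Y (η A) := by
    intro A
    have h1 : #(Set.Iio (η A)) = δ A := by rw [card_Iio, hη, Cardinal.card_ord]
    simp only [Y]
    rw [h1, ZFSet.mem_powerset]
    exact fun z hz => (ZFSet.mem_inter.1 hz).2
  let C : Type u := Σ η : κ.ord.ToType, Shrink.{u} (Y η)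
  have hinj : Function.Injective fun A : D =>
      (ULift.up ⟨η A, equivShrink _ ⟨_, hmem A⟩⟩ : ULift.{u+1} C) := by
    intro A A' hAA
    have h1 := congrArg ULift.down hAA
    have h2 : η A = η A' := congrArg Sigma.fst h1
    have h3 : δ A = δ A' := by
      have := hη A
      rw [h2, hη A'] at this
      exact (Cardinal.ord_injective this).symm
    have h4 : A.1 ∩ (δ A).ord.toZFSet = A'.1 ∩ (δ A').ord.toZFSet := by
      have key : ∀ (p q : C), p = q → ((equivShrink (Y p.1)).symm p.2).1 =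
          ((equivShrink (Y q.1)).symm q.2).1 := by
        rintro p q rfl
        rfl
      have := key _ _ h1
      simpa using this
    refine Subtype.ext (fix_unique hV (hδ A) (hδκ A) hκ (hD _ A.2) (hD _ A'.2)
      (fun ℓ hℓ => hfix A ℓ hℓ) ?_ (by rw [h4, h3]))
    intro ℓ hℓ
    have h5 := hfix A' ℓ hℓ
    have h6 : ∀ (δ' : Cardinal.{u}) (hδ' : IsMeasurable δ'), δ' = δ A' →
        emb (wf_of_meas hV (meas_Bl (κ := κ) hδ' (ℓ := ℓ))) A'.1 = A'.1 := by
      rintro δ' hδ' rfl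
      exact h5
    exact h6 (δ A) (hδ A) h3
  have h1 := Cardinal.mk_le_of_injective hinj
  rw [Cardinal.mk_uLift] at h1
  have h2 : #C ≤ κ := by
    rw [Cardinal.mk_sigma]
    refine (Cardinal.sum_le_sum _ (fun _ => κ) fun η => ?_).trans ?_
    · rw [mk_shrink_card, ZFSet.card_powerset, Ordinal.card_toZFSet, Cardinal.card_ord]
      exact (hs _ (mk_Iio_toType η)).le
    · rw [Cardinal.sum_const, Cardinal.lift_id, Cardinal.lift_id, Cardinal.mk_ord_toType,
        Cardinal.mul_eq_self hκ]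
  exact absurd (hcard.trans_le (h1.trans (Cardinal.lift_le.2 h2))) (lt_irrefl _)

end

theorem exists_bound {Λ : Type u} {κ : Cardinal.{u}} (hκ : ℵ₀ < κ) (f : Λ → Cardinal.{u})
    (a : Finset Λ) (h : ∀ i ∈ a, f i < κ) : ∃ θ < κ, ℵ₀ ≤ θ ∧ ∀ i ∈ a, f i ≤ θ := by
  classical
  induction a using Finset.induction_on with
  | empty => exact ⟨ℵ₀, hκ, le_rfl, fun i hi => absurd hi (Finset.notMem_empty i)⟩
  | insert i a hi ih =>
    obtain ⟨θ, h1, h2, h3⟩ := ih fun j hj => h j (Finset.mem_insert_of_mem hj)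
    refine ⟨max θ (f i), max_lt h1 (h i (Finset.mem_insert_self i a)), h2.trans (le_max_left _ _),
      fun j hj => ?_⟩
    rcases Finset.mem_insert.1 hj with rfl | hj
    · exact le_max_right _ _
    · exact (h3 j hj).trans (le_max_left _ _)

section

variable {Λ : Type u} [LinearOrder Λ] {Pt : Λ → Type u} {U : ∀ i, Ultrafilter (Pt i)}

/-- functions into `κ` are bounded: the case of small cofinality -/
theorem bdd_of_comp {κ : Cardinal.{u}} (hκ : ℵ₀ ≤ κ) {S : Set Λ}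
    (hS : ∀ i ∈ S, Comp (Order.succ κ.ord.cof) (U i)) (g : (∀ i, Pt i) → ZFSet.{u})
    (hg : Fn S g) (hgκ : ∀ᶠ s in FF U, g s ∈ κ.ord.toZFSet) :
    ∃ α < κ.ord, ∀ᶠ s in FF U, g s ∈ α.toZFSet := by
  by_contra hcon
  simp only [not_exists, not_and] at hcon
  obtain ⟨c, hc1, hc2⟩ := Order.exists_cof_eq κ.ord.ToType
  rw [Ordinal.cof_toType] at hc2
  obtain ⟨a, ha, hga⟩ := hg
  have hlt : ∀ x : κ.ord.ToType, Order.succ (Ordinal.typein (α := κ.ord.ToType) (· < ·) x) < κ.ord := by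
    intro x
    refine (Cardinal.isSuccLimit_ord hκ).succ_lt ?_
    have := Ordinal.typein_lt_type (α := κ.ord.ToType) (· < ·) x
    rwa [Ordinal.type_toType] at this
  have h1 : ∀ᶠ s in FF U, ∀ x : c,
      g s ∉ (Order.succ (Ordinal.typein (α := κ.ord.ToType) (· < ·) x.1)).toZFSet := by
    refine ev_complete (fun i hi => hS i (ha hi)) (by rw [hc2]; exact Order.lt_succ _)
      (fun x => hga.comp fun y =>
        y ∉ (Order.succ (Ordinal.typein (α := κ.ord.ToType) (· < ·) x.1)).toZFSet) fun x => ?_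
    exact (Pool.Agent.V11245.ev_not (hga.comp fun y =>
      y ∈ (Order.succ (Ordinal.typein (α := κ.ord.ToType) (· < ·) x.1)).toZFSet)).2
      (hcon _ (hlt x.1))
  obtain ⟨s, hs1, hs2⟩ := (h1.and hgκ).exists
  obtain ⟨β, hβ, hβ'⟩ := Ordinal.mem_toZFSet_iff.1 hs2
  obtain ⟨y, hy⟩ := exists_elem' hβ
  obtain ⟨x, hx, hyx⟩ := hc1 y
  refine hs1 ⟨x, hx⟩ ?_
  rw [← hβ', Ordinal.toZFSet_mem_toZFSet_iff, Order.lt_succ_iff, ← hy]
  exact (Ordinal.typein_le_typein (α := κ.ord.ToType) (· < ·)).2 (not_lt.2 hyx)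

/-- functions into `κ` are bounded: the case of a regular `κ` -/
theorem bdd_of_regular {κ : Cardinal.{u}} (hκ : ℵ₀ < κ) (hreg : κ ≤ κ.ord.cof) {S : Set Λ}
    (hS : ∀ i ∈ S, #(Pt i) < κ) (g : (∀ i, Pt i) → ZFSet.{u})
    (hg : Fn S g) (hgκ : ∀ᶠ s in FF U, g s ∈ κ.ord.toZFSet) :
    ∃ α < κ.ord, ∀ᶠ s in FF U, g s ∈ α.toZFSet := by
  classical
  obtain ⟨a, ha, hga⟩ := hg
  obtain ⟨θ, h1, h2, h3⟩ := exists_bound hκ (fun i => #(Pt i)) a fun i hi => hS i (ha hi)
  have h4 : #(∀ i : a, Pt i) < κ := (mk_pi_le h2 h3).trans_lt h1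
  let r : (∀ i : a, Pt i) → Ordinal.{u} := fun q =>
    if g (ext a q (base U)) ∈ κ.ord.toZFSet then (g (ext a q (base U))).rank else 0
  have hr : ∀ q, r q < κ.ord := by
    intro q
    simp only [r]
    split_ifs with h
    · obtain ⟨β, hβ, hβ'⟩ := Ordinal.mem_toZFSet_iff.1 h
      rw [← hβ', Ordinal.rank_toZFSet]
      exact hβ
    · exact (Cardinal.isSuccLimit_ord hκ.le).bot_lt
  have hsup : (⨆ q, r q + 1) < κ.ord :=
    Ordinal.iSup_add_one_lt_of_lt_cof (h4.trans_le hreg) hr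
  refine ⟨_, hsup, ?_⟩
  filter_upwards [hgκ] with s hs
  have h5 : g s = g (ext a (fun i => s i) (base U)) := by
    refine hga _ _ fun i hi => ?_
    rw [ext_mem _ _ hi]
  obtain ⟨β, hβ, hβ'⟩ := Ordinal.mem_toZFSet_iff.1 hs
  have h6 : r (fun i => s i) = β := by
    simp only [r]
    rw [← h5, if_pos hs, ← hβ', Ordinal.rank_toZFSet]
  rw [← hβ', Ordinal.toZFSet_mem_toZFSet_iff, ← h6]
  exact (Order.lt_add_one_iff.2 le_rfl).trans_le (Ordinal.le_iSup (fun q => r q + 1) _)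

end

end Pool.Agent.V11245
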