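import Pool.Agent.V11245.Core

/-!
# The core theorem
-/

set_option autoImplicit false
set_option linter.unusedSectionVars false
set_option linter.unusedVariables false

namespace Pool.Agent.V11245

open Cardinal Filter

universe u v

/-- the parameters of the infinite iteration -/
structure Seq (κ ν : Cardinal.{u}) where
  /-- the measurable cardinals -/
  d : ℕ → Cardinal.{u}
  /-- the lengths -/
  l : ℕ → Ordinal.{u}
  meas : ∀ n, IsMeasurable (d n)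
  lt : ∀ n, d n < κ
  above : ∀ n, ν < d n
  len : ∀ n, l n < κ.ord
  mono : ∀ n, d n < d (n + 1)
  next : ∀ n, (l n).card < d (n + 1)

namespace Seq

variable {κ ν : Cardinal.{u}} (Q : Seq κ ν)

theorem strictMono : StrictMono Q.d := strictMono_nat_of_lt_succ Q.mono

/-- the `n`-th block -/
def T (n : ℕ) : Set (Lam κ) := Bl κ (Q.d n) (Q.l n)

/-- the blocks from `n` on -/
def G (n : ℕ) : Set (Lam κ) := ⋃ m ≥ n, Q.T m

theorem mem_G {n : ℕ} {i : Lam κ} : i ∈ Q.G n ↔ ∃ m, n ≤ m ∧ i ∈ Q.T m := by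
  simp [G]

theorem G_subset (n : ℕ) : Q.G n ⊆ Q.G 0 := by
  intro i hi
  obtain ⟨m, -, hm⟩ := Q.mem_G.1 hi
  exact Q.mem_G.2 ⟨m, Nat.zero_le _, hm⟩

theorem T_subset (n : ℕ) : Q.T n ⊆ Q.G 0 := fun i hi => Q.mem_G.2 ⟨n, Nat.zero_le _, hi⟩

theorem lab_T {n : ℕ} {i : Lam κ} (hi : i ∈ Q.T n) : lab i = Q.d n := lab_Bl hi

theorem meas_G {T : Set (Lam κ)} (hT : T ⊆ Q.G 0) : ∀ i ∈ T, IsMeasurable (lab i) := by
  intro i hi
  obtain ⟨m, -, hm⟩ := Q.mem_G.1 (hT hi)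
  rw [Q.lab_T hm]
  exact Q.meas m

theorem T_lt {m n : ℕ} (h : m < n) {i j : Lam κ} (hi : i ∈ Q.T m) (hj : j ∈ Q.T n) : i < j :=
  Bl_lt (Q.strictMono h) hi hj

theorem card_T (n : ℕ) : #(Q.T n) ≤ (Q.l n).card := card_Bl (Q.lt n)

theorem card_T_lt {m n : ℕ} (h : m < n) : #(Q.T m) < Q.d n :=
  ((Q.card_T m).trans_lt (Q.next m)).trans_le (Q.strictMono.monotone h)

theorem G_succ (n : ℕ) : Q.G n = Q.T n ∪ Q.G (n + 1) := by
  ext i
  rw [Set.mem_union, Q.mem_G, Q.mem_G]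
  constructor
  · rintro ⟨m, hm, hi⟩
    rcases hm.eq_or_lt with rfl | h
    · exact Or.inl hi
    · exact Or.inr ⟨m, h, hi⟩
  · rintro (hi | ⟨m, hm, hi⟩)
    · exact ⟨n, le_rfl, hi⟩
    · exact ⟨m, (Nat.le_succ n).trans hm, hi⟩

/-- the part of the coordinates with label at most `θ` is small -/
theorem card_low (hκ : ℵ₀ < κ) {θ : Cardinal.{u}} (hθ : ℵ₀ ≤ θ) (hθκ : θ < κ) :
    #{i | i ∈ Q.G 0 ∧ lab i ≤ θ} < κ ∧ ∀ k, θ < Q.d k → #{i | i ∈ Q.G 0 ∧ lab i ≤ θ} < Q.d k := by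
  have h1 : ∀ k, θ < Q.d k → #{i | i ∈ Q.G 0 ∧ lab i ≤ θ} < Q.d k := by
    intro k hk
    have h2 : {i | i ∈ Q.G 0 ∧ lab i ≤ θ} ⊆ ⋃ m : Fin k, Q.T m := by
      rintro i ⟨hi, hi'⟩
      obtain ⟨m, -, hm⟩ := Q.mem_G.1 hi
      rw [Q.lab_T hm] at hi'
      have hmk : m < k := Q.strictMono.lt_iff_lt.1 (hi'.trans_lt hk)
      exact Set.mem_iUnion.2 ⟨⟨m, hmk⟩, hm⟩
    refine (Cardinal.mk_le_mk_of_subset h2).trans_lt ?_
    have h3 : #(⋃ m : Fin k, Q.T m) ≤ Cardinal.sum fun m : ULift.{u} (Fin k) => #(Q.T m.down) := by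
      have h4 : (⋃ m : Fin k, Q.T m) = ⋃ m : ULift.{u} (Fin k), Q.T m.down := by
        ext i
        simp only [Set.mem_iUnion]
        exact ⟨fun ⟨m, hm⟩ => ⟨⟨m⟩, hm⟩, fun ⟨m, hm⟩ => ⟨m.down, hm⟩⟩
      rw [h4]
      exact Cardinal.mk_iUnion_le_sum_mk
    refine h3.trans_lt ?_
    obtain ⟨ρ, hρ1, hρ2, hρ3⟩ := exists_bound (Q.meas k).1
      (fun m : ULift.{u} (Fin k) => #(Q.T m.down)) Finset.univ
      (fun m _ => Q.card_T_lt m.down.2)
    refine (Cardinal.sum_le_sum _ (fun _ => ρ) fun m => hρ3 m (Finset.mem_univ _)).trans_lt ?_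
    rw [Cardinal.sum_const, Cardinal.lift_id, Cardinal.lift_id]
    exact Cardinal.mul_lt_of_lt (Q.meas k).1.le
      ((Cardinal.lt_aleph0_of_finite _).trans (Q.meas k).1) hρ1
  refine ⟨?_, h1⟩
  by_cases hex : ∃ k, θ < Q.d k
  · obtain ⟨k, hk⟩ := hex
    exact (h1 k hk).trans (Q.lt k)
  · push Not at hex
    have h2 : {i | i ∈ Q.G 0 ∧ lab i ≤ θ} ⊆ ⋃ m : ULift.{u} ℕ, Q.T m.down := by
      rintro i ⟨hi, hi'⟩
      obtain ⟨m, -, hm⟩ := Q.mem_G.1 hi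
      exact Set.mem_iUnion.2 ⟨⟨m⟩, hm⟩
    refine (Cardinal.mk_le_mk_of_subset h2).trans_lt ?_
    refine (Cardinal.mk_iUnion_le_sum_mk).trans_lt ?_
    refine (Cardinal.sum_le_sum (fun m : ULift.{u} ℕ => #(Q.T m.down)) (fun _ => θ) fun m =>
      (Q.card_T_lt (Nat.lt_succ_self m.down)).le.trans (hex _)).trans_lt ?_
    rw [Cardinal.sum_const, Cardinal.lift_id, Cardinal.lift_id]
    refine (mul_le_mul_left (b := #(ULift.{u} ℕ)) (c := θ) ?_ θ).trans_lt ?_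
    · simpa using hθ
    · rw [Cardinal.mul_eq_self hθ]
      exact hθκ

end Seq

section

variable {κ ν : Cardinal.{u}} {X : κ.ord.ToType → Type u} {V : ∀ η, Ultrafilter (X η)}
  {w : ∀ η, X η → Ordinal.{u}}

/-- all sub-iterations fix `κ` -/
theorem Seq.emb_kappa (Q : Seq κ ν) (hV : IsLab V w) (hκ : ℵ₀ < κ)
    (hs : ∀ c < κ, (2 : Cardinal.{u}) ^ c < κ) (hcof : κ ≤ κ.ord.cof ∨ κ.ord.cof ≤ ν)
    {T : Set (Lam κ)} (hT : T ⊆ Q.G 0) :
    emb (wf_of_meas hV (Q.meas_G hT)) κ.ord.toZFSet = κ.ord.toZFSet := by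
  have hlab : ∀ i ∈ T, ∃ m, lab i = Q.d m := by
    intro i hi
    obtain ⟨m, -, hm⟩ := Q.mem_G.1 (hT hi)
    exact ⟨m, Q.lab_T hm⟩
  refine Pool.Agent.V11245.emb_kappa (U := UU V) hκ hs (S := T)
    (fun T' hT' => wf_of_meas hV (Q.meas_G (hT'.trans hT))) ?_ ?_
  · intro θ hθκ hθ
    obtain ⟨h1, h2⟩ := Q.card_low hκ hθ hθκ
    refine ⟨max θ #{i | i ∈ Q.G 0 ∧ lab i ≤ θ}, le_max_left _ _, max_lt hθκ h1,
      {i | i ∈ T ∧ lab i ≤ θ}, {i | i ∈ T ∧ θ < lab i}, ?_, ?_, ?_, ?_, ?_⟩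
    · ext i
      constructor
      · intro hi
        rcases le_or_gt (lab i) θ with h | h
        · exact Or.inl ⟨hi, h⟩
        · exact Or.inr ⟨hi, h⟩
      · rintro (hi | hi)
        · exact hi.1
        · exact hi.1
    · rintro i ⟨hi, hi'⟩ j ⟨hj, hj'⟩
      obtain ⟨m, -, hm⟩ := Q.mem_G.1 (hT hi)
      obtain ⟨n, -, hn⟩ := Q.mem_G.1 (hT hj)
      rw [Q.lab_T hm] at hi'
      rw [Q.lab_T hn] at hj'
      exact Q.T_lt (Q.strictMono.lt_iff_lt.1 (hi'.trans_lt hj')) hm hn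
    · refine le_trans (Cardinal.mk_le_mk_of_subset ?_) (le_max_right _ _)
      rintro i ⟨hi, hi'⟩
      exact ⟨hT hi, hi'⟩
    · rintro i ⟨hi, hi'⟩
      exact (((hV _ (Q.meas_G hT i hi)).2.1).trans hi').trans (le_max_left _ _)
    · rintro j ⟨hj, hj'⟩
      obtain ⟨n, hn⟩ := hlab j hj
      refine (hV _ (Q.meas_G hT j hj)).1.mono ?_
      change _ ≤ lab j
      rw [hn] at hj' ⊢
      exact Order.succ_le_of_lt ((Q.meas n).two_power_lt (max_lt hj' (h2 n hj')))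
  · intro g hg hgκ
    rcases hcof with hreg | hcof
    · refine bdd_of_regular hκ hreg (fun i hi => ?_) g hg hgκ
      obtain ⟨n, hn⟩ := hlab i hi
      refine ((hV _ (Q.meas_G hT i hi)).2.1).trans_lt ?_
      change lab i < κ
      rw [hn]
      exact Q.lt n
    · refine bdd_of_comp hκ.le (fun i hi => ?_) g hg hgκ
      obtain ⟨n, hn⟩ := hlab i hi
      refine (hV _ (Q.meas_G hT i hi)).1.mono ?_
      change _ ≤ lab i
      rw [hn]
      exact Order.succ_le_of_lt (hcof.trans_lt (Q.above n))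

end

/-- **The core theorem.** -/
theorem core {κ : Cardinal.{u}} (hκ0 : κ ≠ 0)
    (hlim : ∀ c < κ, ∃ δ, IsMeasurable δ ∧ c < δ ∧ δ < κ)
    (D : Set ZFSet.{u}) (hD : ∀ A ∈ D, A ⊆ κ.ord.toZFSet) (hcard : Cardinal.lift.{u+1} κ < #D)
    (R : ZFSet.{u} → ZFSet.{u} → Prop) (hR : ∀ a b, R a b → a ∈ D ∧ b ∈ D)
    (htri : ∀ a ∈ D, ∀ b ∈ D, R a b ∨ a = b ∨ R b a)
    (hwf : ∀ f : ℕ → ZFSet.{u}, ¬ ∀ n, R (f (n + 1)) (f n))
    {ν : Cardinal.{u}} (hν : ν < κ)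
    (hpres : ∀ (Λ : Type u) (_ : LinearOrder Λ) (Pt : Λ → Type u) (U : ∀ i, Ultrafilter (Pt i))
      (S : Set Λ) (h : WellFounded (Rel U S)), (∀ i ∈ S, Comp (Order.succ ν) (U i)) →
      emb h κ.ord.toZFSet = κ.ord.toZFSet → ∀ a b, R a b → R (emb h a) (emb h b)) : False := by
  classical
  have hκ : ℵ₀ < κ := by
    obtain ⟨δ, h1, -, h2⟩ := hlim 0 (pos_iff_ne_zero.2 hκ0)
    exact h1.1.trans h2
  have hs : ∀ c < κ, (2 : Cardinal.{u}) ^ c < κ := by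
    intro c hc
    obtain ⟨δ, h1, h2, h3⟩ := hlim c hc
    exact (h1.two_power_lt h2).trans h3
  obtain ⟨X, V, w, hV⟩ := exists_isLab κ
  obtain ⟨A, hAD, hA⟩ := exists_moved hV hκ.le hs hD hcard
  -- the lower bound of the critical points
  obtain ⟨ν', hν', hνν', hcof⟩ : ∃ ν' < κ, ν ≤ ν' ∧ (κ ≤ κ.ord.cof ∨ κ.ord.cof ≤ ν') := by
    rcases le_or_gt κ κ.ord.cof with h | h
    · exact ⟨ν, hν, le_rfl, Or.inl h⟩
    · exact ⟨max ν κ.ord.cof, max_lt hν h, le_max_left _ _, Or.inr (le_max_right _ _)⟩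
  -- the sequence
  choose! ℓ hℓ hmov using hA
  have hnx : ∀ δ : Cardinal.{u}, IsMeasurable δ → δ < κ → ∃ δ', IsMeasurable δ' ∧ δ' < κ ∧ δ < δ' ∧
      (ℓ δ).card < δ' := by
    intro δ hδ hδκ
    obtain ⟨δ', h1, h2, h3⟩ := hlim (max δ (ℓ δ).card)
      (max_lt hδκ (Cardinal.lt_ord.1 (hℓ δ hδ hδκ)))
    exact ⟨δ', h1, h3, (le_max_left _ _).trans_lt h2, (le_max_right _ _).trans_lt h2⟩
  choose! nx hnx1 hnx2 hnx3 hnx4 using hnx
  obtain ⟨δ₀, hδ₀, hδ₀ν, hδ₀κ⟩ := hlim ν' hν'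
  let d : ℕ → Cardinal.{u} := fun n => nx^[n] δ₀
  have hd : ∀ n, IsMeasurable (d n) ∧ d n < κ ∧ ν' < d n := by
    intro n
    induction n with
    | zero => exact ⟨hδ₀, hδ₀κ, hδ₀ν⟩
    | succ n ih =>
      have : d (n + 1) = nx (d n) := Function.iterate_succ_apply' _ _ _
      rw [this]
      exact ⟨hnx1 _ ih.1 ih.2.1, hnx2 _ ih.1 ih.2.1, ih.2.2.trans (hnx3 _ ih.1 ih.2.1)⟩
  have hd1 : ∀ n, d (n + 1) = nx (d n) := fun n => Function.iterate_succ_apply' _ _ _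
  let Q : Seq κ ν' :=
    { d := d
      l := fun n => ℓ (d n)
      meas := fun n => (hd n).1
      lt := fun n => (hd n).2.1
      above := fun n => (hd n).2.2
      len := fun n => hℓ _ (hd n).1 (hd n).2.1
      mono := fun n => by rw [hd1]; exact hnx3 _ (hd n).1 (hd n).2.1
      next := fun n => by rw [hd1]; exact hnx4 _ (hd n).1 (hd n).2.1 }
  -- the embeddings
  let W : ∀ T : Set (Lam κ), T ⊆ Q.G 0 → WellFounded (Rel (UU V) T) := fun T hT =>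
    wf_of_meas hV (Q.meas_G hT)
  have hP : ∀ (T : Set (Lam κ)) (hT : T ⊆ Q.G 0) (a b : ZFSet.{u}), R a b →
      R (emb (W T hT) a) (emb (W T hT) b) := by
    intro T hT
    refine hpres (Lam κ) _ (PP X) (UU V) T (W T hT) (fun i hi => ?_)
      (Q.emb_kappa hV hκ hs hcof hT)
    obtain ⟨m, -, hm⟩ := Q.mem_G.1 (hT hi)
    refine (hV _ (Q.meas_G hT i hi)).1.mono ?_
    change _ ≤ lab i
    rw [Q.lab_T hm]
    exact Order.succ_le_of_lt (hνν'.trans_lt (Q.above m))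
  -- `D` has another member
  have hmem : ∀ a ∈ D, ∀ (T : Set (Lam κ)) (hT : T ⊆ Q.G 0), emb (W T hT) a ∈ D := by
    intro a ha T hT
    obtain ⟨b, hb, hab⟩ : ∃ b ∈ D, b ≠ a := by
      by_contra hcon
      push Not at hcon
      have h1 : D ⊆ {a} := fun b hb => hcon b hb
      have h2 := (Cardinal.mk_le_mk_of_subset h1)
      rw [Cardinal.mk_singleton] at h2
      have h3 : (1 : Cardinal.{u+1}) < Cardinal.lift.{u+1} κ := by
        have h4 := Cardinal.lift_lt.{u, u+1}.2 (Cardinal.one_lt_aleph0.trans hκ)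
        rwa [Cardinal.lift_one] at h4
      exact absurd (h3.trans hcard) (not_lt.2 h2)
    rcases htri a ha b hb with h | h | h
    · exact (hR _ _ (hP T hT a b h)).1
    · exact absurd h.symm hab
    · exact (hR _ _ (hP T hT b a h)).2
  -- the blocks move `A` upwards
  have hup : ∀ n, R A (emb (W (Q.T n) (Q.T_subset n)) A) := by
    intro n
    have hne : emb (W (Q.T n) (Q.T_subset n)) A ≠ A := hmov _ (hd n).1 (hd n).2.1
    rcases htri A hAD _ (hmem A hAD _ (Q.T_subset n)) with h | h | h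
    · exact h
    · exact absurd h.symm hne
    · exfalso
      let f : ℕ → ZFSet.{u} := fun k => (emb (W (Q.T n) (Q.T_subset n)))^[k] A
      refine hwf f fun k => ?_
      induction k with
      | zero => exact h
      | succ k ih =>
        have h1 : ∀ k, f (k + 1) = emb (W (Q.T n) (Q.T_subset n)) (f k) := fun k =>
          Function.iterate_succ_apply' _ _ _
        rw [h1 (k + 1), h1 k]
        rw [h1 k] at ih
        exact hP _ (Q.T_subset n) _ _ ih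
  -- the descending sequence
  refine hwf (fun n => emb (W (Q.G n) (Q.G_subset n)) A) fun n => ?_
  have h1 := hP (Q.G (n + 1)) (Q.G_subset (n + 1)) _ _ (hup n)
  have h2 : emb (W (Q.G n) (Q.G_subset n)) A =
      emb (W (Q.G (n + 1)) (Q.G_subset (n + 1))) (emb (W (Q.T n) (Q.T_subset n)) A) := by
    refine emb_comm (Q.G_succ n) ?_ (θ := max (Q.d n) (Q.l n).card) ?_ ?_ ?_ ?_ _ _ _ A
    · intro i hi j hj
      obtain ⟨m, hm, hj'⟩ := Q.mem_G.1 hj
      exact Q.T_lt hm hi hj'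
    · exact (Q.meas n).1.le.trans (le_max_left _ _)
    · exact (Q.card_T n).trans (le_max_right _ _)
    · intro i hi
      refine ((hV _ (Q.meas_G (Q.T_subset n) i hi)).2.1).trans ?_
      change lab i ≤ _
      rw [Q.lab_T hi]
      exact le_max_left _ _
    · intro j hj
      obtain ⟨m, hm, hj'⟩ := Q.mem_G.1 hj
      refine (hV _ (Q.meas_G (Q.G_subset _) j hj)).1.mono ?_
      change _ ≤ lab j
      rw [Q.lab_T hj']
      refine Order.succ_le_of_lt ?_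
      exact (max_lt (Q.mono n) (Q.next n)).trans_le (Q.strictMono.monotone hm)
  show R (emb (W (Q.G (n + 1)) (Q.G_subset (n + 1))) A) (emb (W (Q.G n) (Q.G_subset n)) A)
  rw [h2]
  exact h1

end Pool.Agent.V11245
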