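import Pool.Agent.V11245.Col

/-!
# Facts about the finite support ultrapower
-/

set_option autoImplicit false
set_option linter.unusedSectionVars false
set_option linter.unusedVariables false

namespace Pool.Agent.V11245

open Cardinal Filter

universe u v

section

variable {Λ : Type u} [LinearOrder Λ] {Pt : Λ → Type u} {U : ∀ i, Ultrafilter (Pt i)}

theorem mk_shrink_card (x : ZFSet.{u}) : #(Shrink.{u} x) = x.card := rfl

/-- a function with values in a small set is constant almost everywhere -/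
theorem ev_const {S : Set Λ} {δ : Cardinal.{u}} (hδ : ∀ i ∈ S, Comp δ (U i))
    {g : (∀ i, Pt i) → ZFSet.{u}} (hg : Fn S g) {x : ZFSet.{u}} (hx : x.card < δ)
    (hgx : ∀ᶠ s in FF U, g s ∈ x) : ∃ z ∈ x, ∀ᶠ s in FF U, g s = z := by
  by_contra hcon
  simp only [not_exists, not_and] at hcon
  obtain ⟨a, ha, hga⟩ := hg
  have h1 : ∀ᶠ s in FF U, ∀ k : Shrink.{u} x, g s ≠ ((equivShrink x).symm k).1 := by
    refine ev_complete (fun i hi => hδ i (ha hi)) (by rw [mk_shrink_card]; exact hx)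
      (fun k => hga.comp fun y => y ≠ ((equivShrink x).symm k).1) fun k => ?_
    have h2 := hcon _ ((equivShrink x).symm k).2
    exact (Pool.Agent.V11245.ev_not (hga.comp fun y => y = ((equivShrink x).symm k).1)).2 h2
  obtain ⟨s, hs1, hs2⟩ := (h1.and hgx).exists
  exact hs1 (equivShrink x ⟨g s, hs2⟩) (by rw [Equiv.symm_apply_apply])

section

variable {S : Set Λ} (h : WellFounded (Rel U S))

theorem emb_fix {δ : Cardinal.{u}} (hδ : ∀ i ∈ S, Comp δ (U i)) (x : ZFSet.{u}) :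
    InH δ x → emb h x = x := by
  induction x using ZFSet.inductionOn with
  | _ x ih =>
    rintro ⟨t, ht1, ht2, ht3⟩
    have hy : ∀ y ∈ x, emb h y = y := fun y hy =>
      ih y hy ⟨t, ht1, ht1.subset_of_mem (ht2 hy), ht3⟩
    ext y
    constructor
    · intro hyx
      unfold emb at hyx
      rw [mem_col] at hyx
      obtain ⟨g, hg, hgy⟩ := hyx
      obtain ⟨z, hz, hz'⟩ := ev_const hδ hg.1 ((ZFSet.card_mono ht2).trans_lt ht3) hg.2.2
      have h1 : col h g = emb h z := col_congr h hg.1 (Fn.const S z) hz'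
      rw [← hgy, h1, hy z hz]
      exact hz
    · intro hyx
      rw [← hy y hyx]
      exact (emb_mem_iff h).2 hyx

theorem emb_subset {x y : ZFSet.{u}} (hxy : x ⊆ y) : emb h x ⊆ emb h y := by
  intro z hz
  unfold emb at hz ⊢
  rw [mem_col] at hz ⊢
  obtain ⟨g, ⟨h1, h2, h3⟩, h4⟩ := hz
  exact ⟨g, ⟨h1, Fn.const S y, h3.mono fun s hs => hxy hs⟩, h4⟩

theorem emb_inter {x y z : ZFSet.{u}} (hx : z ∈ emb h x) (hy : z ∈ emb h y) :
    z ∈ emb h (x ∩ y) := by
  unfold emb at hx hy ⊢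
  rw [mem_col] at hx hy ⊢
  obtain ⟨g, ⟨h1, h2, h3⟩, h4⟩ := hx
  obtain ⟨g', ⟨h1', h2', h3'⟩, h4'⟩ := hy
  have h5 := col_inj h h1 h1' (h4.trans h4'.symm)
  refine ⟨g, ⟨h1, Fn.const S _, ?_⟩, h4⟩
  filter_upwards [h3, h3', h5] with s hs1 hs2 hs3
  rw [ZFSet.mem_inter]
  rw [← hs3] at hs2
  exact ⟨hs1, hs2⟩

theorem col_trans {f : (∀ i, Pt i) → ZFSet.{u}} (hf : Fn S f)
    (hft : ∀ᶠ s in FF U, (f s).IsTransitive) : (col h f).IsTransitive := by
  intro y hy z hz
  rw [mem_col] at hy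
  obtain ⟨g, hg, rfl⟩ := hy
  rw [mem_col] at hz
  obtain ⟨g', hg', rfl⟩ := hz
  rw [col_mem_iff h hg'.1 hf]
  filter_upwards [hft, hg.2.2, hg'.2.2] with s hs1 hs2 hs3
  exact hs1 _ hs2 hs3

theorem emb_isOrdinal {x : ZFSet.{u}} (hx : x.IsOrdinal) : (emb h x).IsOrdinal := by
  rw [ZFSet.isOrdinal_iff_forall_mem_isTransitive] at hx ⊢
  refine ⟨col_trans h (Fn.const S x) (Filter.Eventually.of_forall fun s => hx.1), ?_⟩
  intro y hy
  unfold emb at hy
  rw [mem_col] at hy
  obtain ⟨g, hg, rfl⟩ := hy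
  exact col_trans h hg.1 (hg.2.2.mono fun s hs => hx.2 _ hs)

theorem le_rank_emb (α : Ordinal.{u}) : α ≤ (emb h α.toZFSet).rank := by
  induction α using WellFoundedLT.induction with
  | ind α ih =>
    refine le_of_forall_lt fun β hβ => (ih β hβ).trans_lt ?_
    refine ZFSet.rank_lt_of_mem ?_
    rw [emb_mem_iff, Ordinal.toZFSet_mem_toZFSet_iff]
    exact hβ

/-- growth of the image of an ordinal -/
theorem mem_emb_of_chain {δ ℓ : Ordinal.{u}} (π : Ordinal.{u} → (∀ i, Pt i) → ZFSet.{u})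
    (h1 : ∀ β < ℓ, Fn S (π β)) (h2 : ∀ β < ℓ, ∀ᶠ s in FF U, π β s ∈ δ.toZFSet)
    (h3 : ∀ γ < ℓ, ∀ β < γ, ∀ᶠ s in FF U, π β s ∈ π γ s) {β : Ordinal.{u}} (hβ : β < ℓ) :
    β.toZFSet ∈ emb h δ.toZFSet := by
  have h4 : ∀ β < ℓ, β ≤ (col h (π β)).rank := by
    intro β
    induction β using WellFoundedLT.induction with
    | ind β ih =>
      intro hβ
      refine le_of_forall_lt fun γ hγ => (ih γ hγ (hγ.trans hβ)).trans_lt ?_
      refine ZFSet.rank_lt_of_mem ?_
      rw [col_mem_iff h (h1 γ (hγ.trans hβ)) (h1 β hβ)]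
      exact h3 β hβ γ hγ
  have h5 : col h (π β) ∈ emb h δ.toZFSet := (col_mem_iff h (h1 β hβ) (Fn.const S _)).2 (h2 β hβ)
  have h6 := emb_isOrdinal h (ZFSet.isOrdinal_toZFSet δ)
  rw [← ZFSet.IsOrdinal.rank_lt_iff_mem (ZFSet.isOrdinal_toZFSet β) h6, Ordinal.rank_toZFSet]
  exact (h4 β hβ).trans_lt (ZFSet.rank_lt_of_mem h5)

end

/-! ### Commutation -/

theorem mk_finset_le {L : Type u} {θ : Cardinal.{u}} (hθ : ℵ₀ ≤ θ) (hL : #L ≤ θ) :
    #(Finset L) ≤ θ := by
  classical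
  rcases finite_or_infinite L with hf | hi
  · exact (Cardinal.lt_aleph0_of_finite _).le.trans hθ
  · rw [Cardinal.mk_finset_of_infinite]
    exact hL

theorem col_comm {S L R : Set Λ} (hS : S = L ∪ R) (hLR : ∀ i ∈ L, ∀ j ∈ R, i < j)
    {θ : Cardinal.{u}} (hθ : ℵ₀ ≤ θ) (hL : #L ≤ θ) (hpt : ∀ i ∈ L, #(Pt i) ≤ θ)
    (hR : ∀ j ∈ R, Comp (Order.succ θ) (U j)) (wS : WellFounded (Rel U S))
    (wL : WellFounded (Rel U L)) (wR : WellFounded (Rel U R)) (F : (∀ i, Pt i) → ZFSet.{u}) :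
    Fn S F → col wS F = col wR fun t => col wL fun s => F (mix L s t) := by
  classical
  have hdisj : ∀ j ∈ R, j ∉ L := fun j hj hjL => lt_irrefl _ (hLR j hjL j hj)
  -- Fubini
  have fub : ∀ E : (∀ i, Pt i) → Prop, Fn S E →
      ((∀ᶠ u in FF U, E u) ↔ ∀ᶠ t in FF U, ∀ᶠ s in FF U, E (mix L s t)) := by
    rintro E ⟨a, ha, hE⟩
    have ha' : a = a.filter (· ∈ L) ∪ a.filter (· ∈ R) := by
      ext i
      simp only [Finset.mem_union, Finset.mem_filter]
      constructor
      · intro hi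
        have := ha hi
        rw [hS] at this
        rcases this with h | h
        · exact Or.inl ⟨hi, h⟩
        · exact Or.inr ⟨hi, h⟩
      · rintro (h | h)
        · exact h.1
        · exact h.1
    refine ev_fubini (L := L) (a := a.filter (· ∈ L)) (b := a.filter (· ∈ R)) ?_ ?_ ?_ hθ ?_ ?_ ?_
    · intro i hi
      exact (Finset.mem_filter.1 hi).2
    · intro i hi
      exact hdisj i (Finset.mem_filter.1 hi).2
    · intro i hi j hj
      exact hLR i (Finset.mem_filter.1 hi).2 j (Finset.mem_filter.1 hj).2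
    · intro i hi
      exact hpt i (Finset.mem_filter.1 hi).2
    · intro i hi
      exact hR i (Finset.mem_filter.1 hi).2
    · rw [← ha']
      exact hE
  -- sections
  have secL : ∀ F : (∀ i, Pt i) → ZFSet.{u}, Fn S F → ∀ t, Fn L fun s => F (mix L s t) := by
    rintro F ⟨a, ha, hF⟩ t
    refine ⟨a.filter (· ∈ L), fun i hi => (Finset.mem_filter.1 hi).2, fun s s' hss => ?_⟩
    refine hF _ _ fun i hi => ?_
    by_cases hiL : i ∈ L
    · rw [mix_mem _ _ hiL, mix_mem _ _ hiL]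
      exact hss i (Finset.mem_coe.2 (Finset.mem_filter.2 ⟨hi, hiL⟩))
    · rw [mix_not_mem _ _ hiL, mix_not_mem _ _ hiL]
  have secR : ∀ F : (∀ i, Pt i) → ZFSet.{u}, Fn S F → Fn R fun t => fun s => F (mix L s t) := by
    rintro F ⟨a, ha, hF⟩
    refine ⟨a.filter (· ∈ R), fun i hi => (Finset.mem_filter.1 hi).2, fun t t' htt => ?_⟩
    funext s
    refine hF _ _ fun i hi => ?_
    by_cases hiL : i ∈ L
    · rw [mix_mem _ _ hiL, mix_mem _ _ hiL]
    · rw [mix_not_mem _ _ hiL, mix_not_mem _ _ hiL]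
      have hiR : i ∈ R := by
        have := ha hi
        rw [hS] at this
        exact this.resolve_left hiL
      exact htt i (Finset.mem_coe.2 (Finset.mem_filter.2 ⟨hi, hiR⟩))
  induction F using wS.induction with
  | _ F ih =>
    intro hF
    ext y
    constructor
    · intro hy
      rw [mem_col] at hy
      obtain ⟨G, hG, rfl⟩ := hy
      rw [ih G hG hG.1, col_mem_iff wR ((secR G hG.1).comp _) ((secR F hF).comp _)]
      have h1 := (fub _ (hG.1.comp₂ hF fun x y => x ∈ y)).1 hG.2.2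
      filter_upwards [h1] with t ht
      rw [col_mem_iff wL (secL G hG.1 t) (secL F hF t)]
      exact ht
    · intro hy
      rw [mem_col] at hy
      obtain ⟨g, hg, rfl⟩ := hy
      -- choose representatives
      have hE : Fn R fun t => ((g t, fun s => F (mix L s t)) : ZFSet.{u} × ((∀ i, Pt i) → ZFSet.{u})) :=
        hg.1.comp₂ (secR F hF) Prod.mk
      obtain ⟨H, hH1, hH2⟩ := (hE.comp fun (p : ZFSet.{u} × ((∀ i, Pt i) → ZFSet.{u}))
        (q : ((∀ i, Pt i) → ZFSet.{u}) × Finset L) =>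
        Dep (((q.2.map (Function.Embedding.subtype _)) : Finset Λ) : Set Λ) q.1 ∧
          (∀ᶠ s in FF U, q.1 s ∈ p.2 s) ∧ col wL q.1 = p.1).exists_choice
      have hH3 : ∀ᶠ t in FF U,
          Dep ((((H t).2.map (Function.Embedding.subtype _)) : Finset Λ) : Set Λ) (H t).1 ∧
          (∀ᶠ s in FF U, (H t).1 s ∈ F (mix L s t)) ∧ col wL (H t).1 = g t := by
        filter_upwards [hg.2.2] with t ht
        refine hH2 t ?_
        rw [mem_col] at ht
        obtain ⟨H0, ⟨⟨c, hc1, hc2⟩, -, h3⟩, h4⟩ := ht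
        have hc3 : ((c.subtype (· ∈ L)).map (Function.Embedding.subtype _) : Finset Λ) = c := by
          rw [Finset.subtype_map]
          rw [Finset.filter_eq_self]
          intro i hi
          exact hc1 hi
        refine ⟨(H0, c.subtype (· ∈ L)), ?_, h3, h4⟩
        dsimp only
        rw [hc3]
        exact hc2
      -- the supports are constant
      obtain ⟨c, hc⟩ : ∃ c : Finset L, ∀ᶠ t in FF U, (H t).2 = c := by
        by_contra hcon
        simp only [not_exists] at hcon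
        obtain ⟨b, hb1, hb2⟩ := hH1
        have h1 : ∀ᶠ t in FF U, ∀ c : Finset L, (H t).2 ≠ c := by
          refine ev_complete (fun i hi => hR i (hb1 hi))
            (Order.lt_succ_of_le (mk_finset_le hθ hL))
            (fun c => hb2.comp fun q => q.2 ≠ c) fun c => ?_
          exact (Pool.Agent.V11245.ev_not (hb2.comp fun q => q.2 = c)).2 (hcon c)
        obtain ⟨t, ht⟩ := h1.exists
        exact ht _ rfl
      let c' : Finset Λ := c.map (Function.Embedding.subtype _)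
      have hc'L : (c' : Set Λ) ⊆ L := by
        intro i hi
        simp only [c', Finset.coe_map, Function.Embedding.subtype_apply] at hi
        obtain ⟨j, -, rfl⟩ := hi
        exact j.2
      let G : (∀ i, Pt i) → ZFSet.{u} := fun u => if Dep (c' : Set Λ) (H u).1 then (H u).1 u else ∅
      have hGfn : Fn S G := by
        obtain ⟨b, hb1, hb2⟩ := hH1
        refine ⟨b ∪ c', ?_, fun u u' huu => ?_⟩
        · rw [Finset.coe_union, hS]
          exact Set.union_subset (hb1.trans Set.subset_union_right)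
            (hc'L.trans Set.subset_union_left)
        · have h1 : H u = H u' := hb2 u u' fun i hi => huu i (by simp [Finset.mem_coe.1 hi])
          simp only [G]
          rw [h1]
          split_ifs with hdep
          · exact hdep u u' fun i hi => huu i (by simp [Finset.mem_coe.1 hi])
          · rfl
      have hGmix : ∀ᶠ t in FF U, ∀ s, G (mix L s t) = (H t).1 s := by
        obtain ⟨b, hb1, hb2⟩ := hH1
        filter_upwards [hH3, hc] with t ht1 ht2 s
        have h1 : H (mix L s t) = H t := hb2 _ _ fun i hi => mix_not_mem _ _ (hdisj i (hb1 hi))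
        rw [ht2] at ht1
        simp only [G]
        rw [h1, if_pos ht1.1]
        exact ht1.1 _ _ fun i hi => mix_mem _ _ (hc'L hi)
      have hGrel : Rel U S G F := by
        refine ⟨hGfn, hF, ?_⟩
        rw [fub _ (hGfn.comp₂ hF fun x y => x ∈ y)]
        filter_upwards [hGmix, hH3] with t ht1 ht2
        filter_upwards [ht2.2.1] with s hs
        rw [ht1 s]
        exact hs
      rw [mem_col]
      refine ⟨G, hGrel, ?_⟩
      rw [ih G hGrel hGfn]
      refine col_congr wR ((secR G hGfn).comp _) hg.1 ?_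
      filter_upwards [hGmix, hH3] with t ht1 ht2
      rw [← ht2.2.2]
      congr 1
      funext s
      exact ht1 s

theorem emb_comm {S L R : Set Λ} (hS : S = L ∪ R) (hLR : ∀ i ∈ L, ∀ j ∈ R, i < j)
    {θ : Cardinal.{u}} (hθ : ℵ₀ ≤ θ) (hL : #L ≤ θ) (hpt : ∀ i ∈ L, #(Pt i) ≤ θ)
    (hR : ∀ j ∈ R, Comp (Order.succ θ) (U j)) (wS : WellFounded (Rel U S))
    (wL : WellFounded (Rel U L)) (wR : WellFounded (Rel U R)) (x : ZFSet.{u}) :
    emb wS x = emb wR (emb wL x) :=
  col_comm hS hLR hθ hL hpt hR wS wL wR (fun _ => x) (Fn.const S x)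

/-! ### The image of a limit of measurable cardinals -/

theorem card_emb_le {L : Set Λ} (wL : WellFounded (Rel U L)) {θ : Cardinal.{u}} (hθ : ℵ₀ ≤ θ)
    (hL : #L ≤ θ) (hpt : ∀ i ∈ L, #(Pt i) ≤ θ) {x : ZFSet.{u}} (hx : x.card ≤ θ) :
    (emb wL x).card ≤ 2 ^ θ := by
  classical
  let X : Type u := Shrink.{u} ((insert ∅ x : ZFSet.{u}) : Type _)
  let D : Type u := Σ c : Finset L, ((∀ i : c, Pt i.1.1) → X)
  let Φ : D → ZFSet.{u} := fun d => col wL fun s =>
    ((equivShrink _).symm (d.2 fun i => s i.1.1) : ((insert ∅ x : ZFSet.{u}) : Type _)).1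
  have h1 : emb wL x ⊆ ZFSet.range Φ := by
    intro y hy
    unfold emb at hy
    rw [mem_col'] at hy
    obtain ⟨g, ⟨⟨a, ha, hga⟩, -, -⟩, hgx, hgy⟩ := hy
    rw [ZFSet.mem_range]
    have hmem : ∀ s, g s ∈ (insert ∅ x : ZFSet.{u}) := by
      intro s
      rcases hgx s with h | h
      · exact ZFSet.mem_insert_of_mem _ h
      · rw [h]
        exact ZFSet.mem_insert _ _
    let c : Finset L := a.subtype (· ∈ L)
    have hc : ∀ i (hi : i ∈ a), (⟨i, ha hi⟩ : L) ∈ c := fun i hi => Finset.mem_subtype.2 hi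
    let fill : (∀ i : c, Pt i.1.1) → (∀ i, Pt i) := fun p i =>
      if hi : i ∈ a then p ⟨⟨i, ha hi⟩, hc i hi⟩ else base U i
    refine ⟨⟨c, fun p => equivShrink _ ⟨g (fill p), hmem _⟩⟩, ?_⟩
    rw [← hgy]
    simp only [Φ]
    congr 1
    funext s
    rw [Equiv.symm_apply_apply]
    refine hga _ _ fun i hi => ?_
    simp only [fill, dif_pos (Finset.mem_coe.1 hi)]
  have hX : #X ≤ 2 ^ θ := by
    have h2 : #X ≤ x.card + 1 := ZFSet.card_insert_le
    refine h2.trans ?_
    refine (add_le_add hx (Cardinal.one_le_aleph0.trans hθ)).trans ?_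
    rw [Cardinal.add_eq_self hθ]
    exact (Cardinal.cantor θ).le
  have h2θ : ℵ₀ ≤ (2 : Cardinal.{u}) ^ θ := hθ.trans (Cardinal.cantor θ).le
  have hD : #D ≤ 2 ^ θ := by
    rw [Cardinal.mk_sigma]
    refine (Cardinal.sum_le_sum _ (fun _ => 2 ^ θ) fun c => ?_).trans ?_
    · have h3 : #(∀ i : c, Pt i.1.1) ≤ θ := by
        rw [Cardinal.mk_pi]
        refine (Cardinal.prod_le_prod (fun i : c => #(Pt i.1.1)) (fun _ => θ)
          fun i => hpt i.1.1 i.1.2).trans ?_
        rw [Cardinal.prod_const, Cardinal.lift_id, Cardinal.lift_id, Cardinal.mk_coe_finset]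
        exact Cardinal.power_nat_le hθ
      rw [← Cardinal.power_def]
      refine (Cardinal.power_le_power_right hX).trans ?_
      rw [← Cardinal.power_mul]
      refine Cardinal.power_le_power_left two_ne_zero ?_
      exact (mul_le_mul_right h3 θ).trans (Cardinal.mul_eq_self hθ).le
    · rw [Cardinal.sum_const, Cardinal.lift_id, Cardinal.lift_id]
      refine (mul_le_mul_left ((mk_finset_le hθ hL).trans (Cardinal.cantor θ).le) _).trans ?_
      rw [Cardinal.mul_eq_self h2θ]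
  refine (ZFSet.card_mono h1).trans ?_
  have h4 := ZFSet.lift_card_range_le (f := Φ)
  simp only [Cardinal.lift_id] at h4
  exact h4.trans hD

theorem emb_kappa {κ : Cardinal.{u}} (hκ0 : ℵ₀ < κ) (hκ : ∀ c < κ, (2 : Cardinal.{u}) ^ c < κ)
    {S : Set Λ}
    (wf : ∀ T ⊆ S, WellFounded (Rel U T))
    (hN : ∀ θ < κ, ℵ₀ ≤ θ → ∃ θ', θ ≤ θ' ∧ θ' < κ ∧ ∃ L R : Set Λ, S = L ∪ R ∧
      (∀ i ∈ L, ∀ j ∈ R, i < j) ∧ #L ≤ θ' ∧ (∀ i ∈ L, #(Pt i) ≤ θ') ∧
      ∀ j ∈ R, Comp (Order.succ (2 ^ θ')) (U j))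
    (hB : ∀ g : (∀ i, Pt i) → ZFSet.{u}, Fn S g → (∀ᶠ s in FF U, g s ∈ κ.ord.toZFSet) →
      ∃ α < κ.ord, ∀ᶠ s in FF U, g s ∈ α.toZFSet) :
    emb (wf S subset_rfl) κ.ord.toZFSet = κ.ord.toZFSet := by
  have key : ∀ α < κ.ord, emb (wf S subset_rfl) α.toZFSet ∈ κ.ord.toZFSet := by
    intro α hα
    have hα' : α.card < κ := Cardinal.lt_ord.1 hα
    obtain ⟨θ, hθ1, hθ2, hθ3⟩ : ∃ θ, ℵ₀ ≤ θ ∧ α.card ≤ θ ∧ θ < κ :=
      ⟨max ℵ₀ α.card, le_max_left _ _, le_max_right _ _, max_lt hκ0 hα'⟩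
    obtain ⟨θ', h1, h2, L, R, h3, h4, h5, h6, h7⟩ := hN θ hθ3 hθ1
    have hL : L ⊆ S := by rw [h3]; exact Set.subset_union_left
    have hR : R ⊆ S := by rw [h3]; exact Set.subset_union_right
    have hle : Order.succ θ' ≤ Order.succ (2 ^ θ') := Order.succ_le_succ (Cardinal.cantor θ').le
    have h8 := emb_comm h3 h4 (hθ1.trans h1) h5 h6 (fun j hj => (h7 j hj).mono hle)
      (wf S subset_rfl) (wf L hL) (wf R hR) α.toZFSet
    have h9 := card_emb_le (wf L hL) (hθ1.trans h1) h5 h6 (x := α.toZFSet) (by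
      rw [Ordinal.card_toZFSet]
      exact hθ2.trans h1)
    have hord := emb_isOrdinal (wf L hL) (ZFSet.isOrdinal_toZFSet α)
    have h10 : emb (wf R hR) (emb (wf L hL) α.toZFSet) = emb (wf L hL) α.toZFSet := by
      refine emb_fix (wf R hR) h7 _ ⟨emb (wf L hL) α.toZFSet, ?_, subset_rfl,
        Order.lt_succ_of_le h9⟩
      rw [ZFSet.isOrdinal_iff_forall_mem_isTransitive] at hord
      exact hord.1
    rw [h8, h10]
    have h11 : (emb (wf L hL) α.toZFSet).rank < κ.ord := by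
      rw [Cardinal.lt_ord]
      have h12 : (emb (wf L hL) α.toZFSet).rank.card = (emb (wf L hL) α.toZFSet).card := by
        conv_rhs => rw [← hord.toZFSet_rank_eq]
        rw [Ordinal.card_toZFSet]
      rw [h12]
      exact h9.trans_lt (hκ θ' h2)
    rw [← hord.toZFSet_rank_eq, Ordinal.toZFSet_mem_toZFSet_iff]
    exact h11
  have hordκ := emb_isOrdinal (wf S subset_rfl) (ZFSet.isOrdinal_toZFSet κ.ord)
  ext y
  constructor
  · intro hy
    unfold emb at hy
    rw [mem_col] at hy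
    obtain ⟨g, hg, rfl⟩ := hy
    obtain ⟨α, hα, hα'⟩ := hB g hg.1 hg.2.2
    have h1 : col (wf S subset_rfl) g ∈ emb (wf S subset_rfl) α.toZFSet :=
      (col_mem_iff _ hg.1 (Fn.const S _)).2 hα'
    exact (ZFSet.isOrdinal_toZFSet κ.ord).mem_trans h1 (key α hα)
  · intro hy
    obtain ⟨α, hα, rfl⟩ := Ordinal.mem_toZFSet_iff.1 hy
    have h1 : emb (wf S subset_rfl) α.toZFSet ∈ emb (wf S subset_rfl) κ.ord.toZFSet :=
      (emb_mem_iff _).2 hy
    refine ZFSet.IsOrdinal.mem_of_subset_of_mem (ZFSet.isOrdinal_toZFSet α) hordκ ?_ h1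
    rw [← ZFSet.IsOrdinal.rank_le_iff_subset (ZFSet.isOrdinal_toZFSet α)
      (emb_isOrdinal _ (ZFSet.isOrdinal_toZFSet α)), Ordinal.rank_toZFSet]
    exact le_rank_emb _ α

end

end Pool.Agent.V11245
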