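/-
Copyright (c) 2026 Pool contributors.
The space `κ^κ` with the bounded topology, the game `G_κ(E,x₀,ω+1)`, `(ω+1)`-perfect sets,
and closed sets derived from a thin family with many branches.
-/
import Mathlib

set_option autoImplicit false

namespace Pool.Agent.V11245.OmegaPerf

open Cardinal Set

universe u

/-- The set of ordinals below `κ` (as a type in the same universe as `κ`). -/
abbrev Idx (κ : Cardinal.{u}) : Type u := κ.ord.ToType

/-- Points of the space `κ^κ`. -/
def Pt (κ : Cardinal.{u}) : Type u := Idx κ → Idx κ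

/-- `x` and `y` have the same restriction to `α`. -/
def Agree {κ : Cardinal.{u}} (α : Idx κ) (x y : Pt κ) : Prop := ∀ β, β < α → x β = y β

/-- The basic open set `N_σ`, where `σ` is the restriction of `x` to `α < κ`. -/
def Nbhd {κ : Cardinal.{u}} (α : Idx κ) (x : Pt κ) : Set (Pt κ) := {y | Agree α x y}

/-- The bounded topology on `κ^κ`. -/
instance (κ : Cardinal.{u}) : TopologicalSpace (Pt κ) :=
  TopologicalSpace.generateFrom {U | ∃ (α : Idx κ) (x : Pt κ), U = Nbhd α x}

/-- The first `n` moves of Player I in the play `a`, as a list. -/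
def hist {κ : Cardinal.{u}} (a : ℕ → Idx κ) (n : ℕ) : List (Idx κ) := (List.range n).map a

/-- `WinsII E x₀`: Player II has a winning strategy in `G_κ(E,x₀,ω+1)`.  The moves of
Player I are `α₁ < α₂ < …`, with `α_{n+1} = a n`, and `α_ω = sup α_n` is forced.  The strategy is
given by `σ`, telling II what to play in the finite rounds (`σ [α₁,…,αₙ] = xₙ`, with `σ [] = x₀`),
and `τ`, telling II what to play in round `ω`. -/
def WinsII {κ : Cardinal.{u}} (E : Set (Pt κ)) (x₀ : Pt κ) : Prop :=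
  ∃ (σ : List (Idx κ) → Pt κ) (τ : (ℕ → Idx κ) → Pt κ), σ [] = x₀ ∧
    ∀ a : ℕ → Idx κ, StrictMono a →
      (∀ n, 0 < n → σ (hist a n) ∈ E) ∧
      (∀ m n, m < n → σ (hist a n) ≠ σ (hist a m) ∧
        Agree (a m) (σ (hist a n)) (σ (hist a m))) ∧
      τ a ∈ E ∧
      (∀ m, τ a ≠ σ (hist a m) ∧ Agree (a m) (τ a) (σ (hist a m)))

/-- `E` is `(ω+1)`-perfect. -/
def OmegaPlusOnePerfect {κ : Cardinal.{u}} (E : Set (Pt κ)) : Prop :=
  IsClosed E ∧ ∀ x₀ ∈ E, WinsII E x₀

section basic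

variable {κ : Cardinal.{u}}

theorem Agree.symm {α : Idx κ} {x y : Pt κ} (h : Agree α x y) : Agree α y x :=
  fun β hβ => (h β hβ).symm

theorem Agree.trans {α : Idx κ} {x y z : Pt κ} (h : Agree α x y) (h' : Agree α y z) :
    Agree α x z := fun β hβ => (h β hβ).trans (h' β hβ)

theorem Agree.refl (α : Idx κ) (x : Pt κ) : Agree α x x := fun _ _ => rfl

theorem Agree.mono {α α' : Idx κ} (hα : α' ≤ α) {x y : Pt κ} (h : Agree α x y) :
    Agree α' x y := fun β hβ => h β (lt_of_lt_of_le hβ hα)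

theorem isOpen_Nbhd (α : Idx κ) (x : Pt κ) : IsOpen (Nbhd α x) :=
  TopologicalSpace.isOpen_generateFrom_of_mem ⟨α, x, rfl⟩

theorem nonempty_of (hκ : ℵ₀ ≤ κ) : Nonempty (Idx κ) := by
  rw [← Cardinal.mk_ne_zero_iff, Cardinal.mk_ord_toType]
  exact (lt_of_lt_of_le Cardinal.aleph0_pos hκ).ne'

theorem isOpen_iff (hκ : ℵ₀ ≤ κ) {U : Set (Pt κ)} :
    IsOpen U ↔ ∀ x ∈ U, ∃ α, Nbhd α x ⊆ U := by
  constructor
  · intro hU
    have hU' : TopologicalSpace.GenerateOpen
        {U | ∃ (α : Idx κ) (x : Pt κ), U = Nbhd α x} U := hU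
    induction hU' with
    | basic s hs =>
      obtain ⟨α, y, rfl⟩ := hs
      intro x hx
      exact ⟨α, fun z hz => Agree.trans hx hz⟩
    | univ =>
      intro x _
      obtain ⟨α⟩ := nonempty_of hκ
      exact ⟨α, subset_univ _⟩
    | inter s t hs ht ihs iht =>
      intro x hx
      obtain ⟨α, hα⟩ := ihs hs x hx.1
      obtain ⟨β, hβ⟩ := iht ht x hx.2
      exact ⟨max α β, fun z hz => ⟨hα (Agree.mono (le_max_left _ _) hz),
        hβ (Agree.mono (le_max_right _ _) hz)⟩⟩
    | sUnion S hS ih =>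
      intro x hx
      obtain ⟨s, hs, hxs⟩ := hx
      obtain ⟨α, hα⟩ := ih s hs (hS s hs) x hxs
      exact ⟨α, hα.trans (subset_sUnion_of_mem hs)⟩
  · intro h
    have : U = ⋃ x : U, Nbhd (h x.1 x.2).choose x.1 := by
      ext y
      simp only [mem_iUnion]
      constructor
      · intro hy
        exact ⟨⟨y, hy⟩, Agree.refl _ _⟩
      · rintro ⟨x, hx⟩
        exact (h x.1 x.2).choose_spec hx
    rw [this]
    exact isOpen_iUnion fun x => isOpen_Nbhd _ _

theorem isClosed_iff (hκ : ℵ₀ ≤ κ) {E : Set (Pt κ)} :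
    IsClosed E ↔ ∀ x, (∀ α, ∃ y ∈ E, Agree α x y) → x ∈ E := by
  rw [← isOpen_compl_iff, isOpen_iff hκ]
  constructor
  · intro h x hx
    by_contra hxE
    obtain ⟨α, hα⟩ := h x hxE
    obtain ⟨y, hyE, hy⟩ := hx α
    exact hα hy hyE
  · intro h x hx
    by_contra hcon
    push Not at hcon
    refine hx (h x fun α => ?_)
    obtain ⟨y, hy, hyE⟩ := Set.not_subset.1 (hcon α)
    exact ⟨y, by simpa using hyE, hy⟩

theorem mem_closure_iff' (hκ : ℵ₀ ≤ κ) {E : Set (Pt κ)} {x : Pt κ} :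
    x ∈ closure E ↔ ∀ α, ∃ y ∈ E, Agree α x y := by
  constructor
  · intro hx α
    rw [_root_.mem_closure_iff] at hx
    obtain ⟨y, hy, hyE⟩ := hx _ (isOpen_Nbhd α x) (Agree.refl _ _)
    exact ⟨y, hyE, hy⟩
  · intro h
    exact (isClosed_iff hκ).1 isClosed_closure x fun α => by
      obtain ⟨y, hy, hxy⟩ := h α
      exact ⟨y, subset_closure hy, hxy⟩

/-- A map which is local (values below `α` depend only on the argument below `α`) is
continuous. -/
theorem continuous_of_local (hκ : ℵ₀ ≤ κ) {f : Pt κ → Pt κ}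
    (hf : ∀ α x y, Agree α x y → Agree α (f x) (f y)) : Continuous f := by
  refine ⟨fun U hU => ?_⟩
  rw [isOpen_iff hκ] at hU ⊢
  intro x hx
  obtain ⟨α, hα⟩ := hU (f x) hx
  exact ⟨α, fun y hy => hα (hf α x y hy)⟩

theorem bdd (hκ : κ.IsRegular) {ι : Type u} (f : ι → Idx κ) (hι : #ι < κ) :
    ∃ b, ∀ i, f i < b := by
  have hcof : Order.cof (Idx κ) = κ := by
    rw [Ordinal.cof_toType]
    exact hκ.cof_ord
  by_contra hcon
  push Not at hcon
  have hcf : IsCofinal (range f) := by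
    intro b
    obtain ⟨i, hi⟩ := hcon b
    exact ⟨f i, mem_range_self i, hi⟩
  have h1 := Order.cof_le hcf
  rw [hcof] at h1
  exact absurd (h1.trans Cardinal.mk_range_le) (not_le.2 hι)

theorem noMax (hκ : ℵ₀ ≤ κ) : NoMaxOrder (Idx κ) := Cardinal.noMaxOrder hκ

/-- The restriction of `x` to `α`. -/
def tr (α : Idx κ) (x : Pt κ) : Iio α → Idx κ := fun β => x β

theorem tr_eq_iff {α : Idx κ} {x y : Pt κ} : tr α x = tr α y ↔ Agree α x y := by
  constructor
  · intro h β hβ
    exact congrFun h ⟨β, hβ⟩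
  · intro h
    funext β
    exact h β β.2

theorem hist_succ (a : ℕ → Idx κ) (n : ℕ) : hist a (n + 1) = hist a n ++ [a n] := by
  simp [hist, List.range_succ]

theorem hist_congr {a b : ℕ → Idx κ} {n : ℕ} (h : ∀ i, i < n → a i = b i) :
    hist a n = hist b n := by
  unfold hist
  apply List.map_congr_left
  intro i hi
  exact h i (by simpa using hi)

end basic

section main

variable {κ : Cardinal.{u}}

open Classical in
/-- The key fact: if every level of `E` has fewer than `2^ω` traces then Player II has no winning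
strategy. -/
theorem not_winsII (hκ : κ.IsRegular) (hω : ℵ₀ < κ) {F : Set (Pt κ)}
    (hF : ∀ α, #(tr α '' F) < 𝔠) (x₀ : Pt κ) : ¬ WinsII F x₀ := by
  rintro ⟨σ, τ, -, h⟩
  have := noMax hκ.aleph0_le
  obtain ⟨k0⟩ := nonempty_of hκ.aleph0_le
  -- the splitting level
  let Δ : List (Idx κ) → Idx κ → Idx κ := fun l c =>
    if hd : ∃ β, σ (l ++ [c]) β ≠ σ l β then hd.choose else k0
  have hΔ : ∀ l c, σ (l ++ [c]) ≠ σ l → σ (l ++ [c]) (Δ l c) ≠ σ l (Δ l c) := by
    intro l c hne
    have hd : ∃ β, σ (l ++ [c]) β ≠ σ l β := by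
      by_contra hcon
      push Not at hcon
      exact hne (funext hcon)
    have : Δ l c = hd.choose := by simp only [Δ, dif_pos hd]
    rw [this]
    exact hd.choose_spec
  -- closure points
  have hB : ∀ α : Idx κ, ∃ B, α < B ∧ ∀ (l : List (Idx κ)) (c : Idx κ), (∀ x ∈ l, x ≤ α) →
      c ≤ α → Δ l c < B := by
    intro α
    obtain ⟨α', hα'⟩ := exists_gt α
    have hI : #(Iio α') < κ := by
      have := Cardinal.mk_Iio_lt α' (by simp)
      simpa using this
    have hL : #(List (Iio α')) < κ :=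
      lt_of_le_of_lt (Cardinal.mk_list_le_max _) (max_lt hω hI)
    have hP : #(List (Iio α') × Iio α') < κ := by
      rw [Cardinal.mk_prod, Cardinal.lift_id, Cardinal.lift_id]
      exact Cardinal.mul_lt_of_lt hκ.aleph0_le hL hI
    obtain ⟨b, hb⟩ := bdd hκ (fun p : List (Iio α') × Iio α' =>
      Δ (p.1.map Subtype.val) p.2.1) hP
    refine ⟨max b α', lt_of_lt_of_le hα' (le_max_right _ _), fun l c hl hc => ?_⟩
    have hl' : ∀ x ∈ l, x ∈ Iio α' := fun x hx => lt_of_le_of_lt (hl x hx) hα'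
    have := hb ⟨l.attach.map fun x => ⟨x.1, hl' x.1 x.2⟩, ⟨c, lt_of_le_of_lt hc hα'⟩⟩
    have e : (l.attach.map fun x => (⟨x.1, hl' x.1 x.2⟩ : Iio α')).map Subtype.val = l := by
      rw [List.map_map]
      exact List.attach_map_subtype_val l
    simp only [e] at this
    exact lt_of_lt_of_le this (le_max_left _ _)
  choose B hB1 hB2 using hB
  let c : ℕ → Idx κ := fun n => Nat.rec k0 (fun _ x => B x) n
  have hc1 : ∀ n, c (n + 1) = B (c n) := fun n => rfl
  have hcm : StrictMono c := strictMono_nat_of_lt_succ fun n => by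
    rw [hc1]
    exact hB1 _
  obtain ⟨γ, hγ⟩ := bdd hκ (fun n : ULift.{u} ℕ => c n.down) (by simpa using hω)
  let a : (ℕ → Bool) → ℕ → Idx κ := fun r i => c (2 * i + (r i).toNat)
  have ham : ∀ r, StrictMono (a r) := by
    intro r
    apply strictMono_nat_of_lt_succ
    intro n
    apply hcm
    have := Bool.toNat_le (r n)
    omega
  have key : ∀ (r s : ℕ → Bool) (n : ℕ), (∀ i, i < n → r i = s i) → r n = false → s n = true →
      ∃ β, β < γ ∧ τ (a r) β ≠ τ (a s) β := by
    intro r s n hlt hr hs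
    have hh : hist (a r) n = hist (a s) n := hist_congr fun i hi => by
      simp only [a, hlt i hi]
    have har : a r n = c (2 * n) := by simp [a, hr]
    have has : a s n = c (2 * n + 1) := by simp [a, hs]
    have hne := ((h (a r) (ham r)).2.1 n (n + 1) (Nat.lt_succ_self n)).1
    rw [hist_succ, har] at hne
    have hd := hΔ _ _ hne
    set β := Δ (hist (a r) n) (c (2 * n)) with hβdef
    have hβ : β < c (2 * n + 1) := by
      rw [hc1]
      apply hB2
      · intro x hx
        simp only [hist, List.mem_map, List.mem_range] at hx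
        obtain ⟨i, hi, rfl⟩ := hx
        apply hcm.monotone
        have := Bool.toNat_le (r i)
        omega
      · exact le_rfl
    refine ⟨β, hβ.trans (hγ ⟨2 * n + 1⟩), ?_⟩
    have h1 : τ (a r) β = σ (hist (a r) n ++ [c (2 * n)]) β := by
      have hle' : 2 * n + 1 ≤ 2 * (n + 1) + (r (n + 1)).toNat := by omega
      have hle : c (2 * n + 1) ≤ a r (n + 1) := hcm.monotone hle'
      have := ((h (a r) (ham r)).2.2.2 (n + 1)).2 β (lt_of_lt_of_le hβ hle)
      rwa [hist_succ, har] at this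
    have h2 : τ (a s) β = σ (hist (a r) n) β := by
      have := ((h (a s) (ham s)).2.2.2 n).2 β (by rw [has]; exact hβ)
      rwa [← hh] at this
    rw [h1, h2]
    exact hd
  have hinj : Function.Injective (fun r : ULift.{u} (ℕ → Bool) =>
      (⟨tr γ (τ (a r.down)), mem_image_of_mem _ (h _ (ham r.down)).2.2.1⟩ : tr γ '' F)) := by
    intro r s hrs
    by_contra hne
    have hne' : ∃ n, r.down n ≠ s.down n := by
      by_contra hcon
      push Not at hcon
      exact hne (ULift.ext _ _ (funext hcon))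
    have hlt : ∀ i, i < Nat.find hne' → r.down i = s.down i := fun i hi => by
      simpa using Nat.find_min hne' hi
    have hsp := Nat.find_spec hne'
    have hag : Agree γ (τ (a r.down)) (τ (a s.down)) := by
      rw [← tr_eq_iff]
      exact congrArg Subtype.val hrs
    rcases hr : r.down (Nat.find hne') with _ | _
    · have hs : s.down (Nat.find hne') = true := by
        rw [hr] at hsp
        simpa using hsp.symm
      obtain ⟨β, hβ, hb⟩ := key _ _ _ hlt hr hs
      exact hb (hag β hβ)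
    · have hs : s.down (Nat.find hne') = false := by
        rw [hr] at hsp
        simpa using hsp.symm
      obtain ⟨β, hβ, hb⟩ := key _ _ _ (fun i hi => (hlt i hi).symm) hs hr
      exact hb (hag β hβ).symm
  have h1 := Cardinal.mk_le_of_injective hinj
  have h2 : #(ULift.{u} (ℕ → Bool)) = 𝔠 := by simp
  rw [h2] at h1
  exact absurd h1 (not_le.2 (hF γ))

theorem WinsII.mono {E F : Set (Pt κ)} (h : E ⊆ F) {x : Pt κ} (hE : WinsII E x) :
    WinsII F x := by
  obtain ⟨σ, τ, h0, hh⟩ := hE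
  exact ⟨σ, τ, h0, fun a ha => ⟨fun n hn => h ((hh a ha).1 n hn), (hh a ha).2.1,
    h (hh a ha).2.2.1, (hh a ha).2.2.2⟩⟩

end main

section constructions

variable {κ : Cardinal.{u}}

/-- `α` is a bad level of `x`: nobody in `E` agrees with `x` below `α`. -/
def Bad (E : Set (Pt κ)) (x : Pt κ) (α : Idx κ) : Prop := ¬ ∃ y ∈ E, Agree α x y

theorem Bad.congr {E : Set (Pt κ)} {x y : Pt κ} {α β : Idx κ} (h : Agree α x y) (hβ : β ≤ α) :
    Bad E x β ↔ Bad E y β := by
  unfold Bad
  have h' := h.mono hβ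
  constructor
  · rintro h1 ⟨z, hz, hz'⟩
    exact h1 ⟨z, hz, h'.trans hz'⟩
  · rintro h1 ⟨z, hz, hz'⟩
    exact h1 ⟨z, hz, h'.symm.trans hz'⟩

open Classical in
/-- Follow `x` as long as it is in the tree of `E`, and continue with zeros afterwards. -/
noncomputable def ret (E : Set (Pt κ)) (z : Idx κ) (x : Pt κ) : Pt κ := fun β =>
  if ∃ α, α ≤ β ∧ Bad E x α then z else x β

theorem ret_local (E : Set (Pt κ)) (z : Idx κ) (α : Idx κ) (x y : Pt κ) (h : Agree α x y) :
    Agree α (ret E z x) (ret E z y) := by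
  intro β hβ
  unfold ret
  have : (∃ α, α ≤ β ∧ Bad E x α) ↔ (∃ α, α ≤ β ∧ Bad E y α) := by
    constructor
    · rintro ⟨γ, hγ, hb⟩
      exact ⟨γ, hγ, (Bad.congr h (hγ.trans hβ.le)).1 hb⟩
    · rintro ⟨γ, hγ, hb⟩
      exact ⟨γ, hγ, (Bad.congr h (hγ.trans hβ.le)).2 hb⟩
  by_cases hx : ∃ α, α ≤ β ∧ Bad E x α
  · rw [if_pos hx, if_pos (this.1 hx)]
  · rw [if_neg hx, if_neg (fun h => hx (this.2 h))]
    exact h β hβ

theorem ret_of_mem {E : Set (Pt κ)} (z : Idx κ) {x : Pt κ} (hx : x ∈ E) : ret E z x = x := by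
  funext β
  unfold ret
  rw [if_neg]
  rintro ⟨α, -, hα⟩
  exact hα ⟨x, hx, Agree.refl _ _⟩

theorem ret_ret (E : Set (Pt κ)) (z : Idx κ) (x : Pt κ) : ret E z (ret E z x) = ret E z x := by
  by_cases hb : ∃ α, Bad E x α
  · -- the least bad level
    obtain ⟨α, hα, hmin⟩ := WellFounded.has_min (wellFounded_lt (α := Idx κ)) {α | Bad E x α} hb
    have hag : Agree α x (ret E z x) := by
      intro β hβ
      unfold ret
      rw [if_neg]
      rintro ⟨γ, hγ, hb⟩
      exact hmin γ hb (lt_of_le_of_lt hγ hβ)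
    have hbad : Bad E (ret E z x) α := (Bad.congr hag le_rfl).1 hα
    funext β
    rcases lt_or_ge β α with h | h
    · exact ret_local E z α _ _ hag.symm β h
    · have h1 : ret E z x β = z := by
        unfold ret
        rw [if_pos ⟨α, h, hα⟩]
      have h2 : ret E z (ret E z x) β = z := by
        conv_lhs => unfold ret
        rw [if_pos ⟨α, h, hbad⟩]
      rw [h1, h2]
  · have h1 : ret E z x = x := by
      funext β
      unfold ret
      rw [if_neg]
      rintro ⟨α, -, hα⟩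
      exact hb ⟨α, hα⟩
    rw [h1, h1]

theorem mem_range_ret_iff {E : Set (Pt κ)} {z : Idx κ} {x : Pt κ} :
    x ∈ range (ret E z) ↔ ret E z x = x := by
  constructor
  · rintro ⟨y, rfl⟩
    exact ret_ret E z y
  · intro h
    exact ⟨x, h⟩

theorem continuous_ret (hκ : ℵ₀ ≤ κ) (E : Set (Pt κ)) (z : Idx κ) : Continuous (ret E z) :=
  continuous_of_local hκ (ret_local E z)

theorem isClosed_range_ret (hκ : ℵ₀ ≤ κ) (E : Set (Pt κ)) (z : Idx κ) :
    IsClosed (range (ret E z)) := by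
  have := noMax hκ
  rw [isClosed_iff hκ]
  intro x hx
  rw [mem_range_ret_iff]
  funext β
  obtain ⟨α, hα⟩ := exists_gt β
  obtain ⟨y, hy, hxy⟩ := hx α
  rw [mem_range_ret_iff] at hy
  rw [ret_local E z α _ _ hxy β hα, hy, hxy β hα]

theorem subset_range_ret (E : Set (Pt κ)) (z : Idx κ) : E ⊆ range (ret E z) :=
  fun x hx => ⟨x, ret_of_mem z hx⟩

/-- Points of the range with a bad level are isolated. -/
theorem isolated {E : Set (Pt κ)} {z : Idx κ} {x y : Pt κ} {α : Idx κ}
    (hx : x ∈ range (ret E z)) (hy : y ∈ range (ret E z)) (hα : Bad E x α)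
    (hxy : Agree α x y) : y = x := by
  rw [mem_range_ret_iff] at hx hy
  have hα' : Bad E y α := (Bad.congr hxy le_rfl).1 hα
  funext β
  rcases lt_or_ge β α with h | h
  · exact (hxy β h).symm
  · rw [← hx, ← hy]
    conv_lhs => unfold ret
    conv_rhs => unfold ret
    rw [if_pos ⟨α, h, by rw [hy] at *; exact hα'⟩, if_pos ⟨α, h, by rw [hx] at *; exact hα⟩]

theorem not_bad_of_perfect (hκ : ℵ₀ ≤ κ) {E : Set (Pt κ)} {z : Idx κ} {A : Set (Pt κ)}
    (hA : A ⊆ range (ret E z)) (hp : ∀ x ∈ A, WinsII A x) {x : Pt κ} (hx : x ∈ A) (α : Idx κ) :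
    ¬ Bad E x α := by
  intro hb
  have := noMax hκ
  obtain ⟨a, ha, ha0⟩ := Nat.exists_strictMono' α
  obtain ⟨σ, τ, h0, h⟩ := hp x hx
  have h1 := (h a ha).1 1 Nat.one_pos
  have h2 := (h a ha).2.1 0 1 Nat.zero_lt_one
  have h3 : σ (hist a 0) = x := by simpa [hist] using h0
  rw [h3, ha0] at h2
  exact h2.1 (isolated (hA hx) (hA h1) hb h2.2.symm)

/-- **First construction.** A closed set which is a continuous image of `κ^κ` and cannot be made
`(ω+1)`-perfect by removing a small set. -/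
theorem exists_image (hκ : κ.IsRegular) (hω : ℵ₀ < κ) (𝓑 : Set (Pt κ)) (hB : κ ^< κ < #𝓑)
    (htr : ∀ α, #(tr α '' 𝓑) < 𝔠) :
    ∃ E : Set (Pt κ), IsClosed E ∧ (∃ f : Pt κ → Pt κ, Continuous f ∧ range f = E) ∧
      ∀ X ⊆ E, #X ≤ κ ^< κ → ¬ OmegaPlusOnePerfect (E \ X) := by
  obtain ⟨z⟩ := nonempty_of hκ.aleph0_le
  set E₀ := closure 𝓑 with hE₀
  have htr₀ : ∀ α, #(tr α '' E₀) < 𝔠 := by
    intro α
    have : tr α '' E₀ ⊆ tr α '' 𝓑 := by
      rintro _ ⟨x, hx, rfl⟩
      obtain ⟨y, hy, hxy⟩ := (mem_closure_iff' hκ.aleph0_le).1 hx α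
      exact ⟨y, hy, (tr_eq_iff.2 hxy).symm⟩
    exact lt_of_le_of_lt (Cardinal.mk_le_mk_of_subset this) (htr α)
  refine ⟨range (ret E₀ z), isClosed_range_ret hκ.aleph0_le _ _,
    ⟨ret E₀ z, continuous_ret hκ.aleph0_le _ _, rfl⟩, ?_⟩
  intro X hX hcard hp
  have hsub : range (ret E₀ z) \ X ⊆ E₀ := by
    intro x hx
    have hnb := not_bad_of_perfect hκ.aleph0_le sdiff_subset hp.2 hx
    refine (isClosed_iff hκ.aleph0_le).1 isClosed_closure x fun α => ?_
    exact not_not.1 (hnb α)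
  have hne : (range (ret E₀ z) \ X).Nonempty := by
    rw [nonempty_iff_ne_empty]
    intro hem
    rw [sdiff_eq_empty] at hem
    have h1 : 𝓑 ⊆ X := (subset_closure.trans (subset_range_ret E₀ z)).trans hem
    exact absurd ((Cardinal.mk_le_mk_of_subset h1).trans hcard) (not_le.2 hB)
  obtain ⟨x, hx⟩ := hne
  refine not_winsII hκ hω (F := range (ret E₀ z) \ X) (fun α => ?_) x (hp.2 x hx)
  exact lt_of_le_of_lt (Cardinal.mk_le_mk_of_subset (image_mono hsub)) (htr₀ α)

open Classical in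
/-- **Second construction.** A closed set `E` which is a continuous image of an
`(ω+1)`-perfect set although Player II wins from no point of `E` at all. -/
theorem exists_nowin (hκ : κ.IsRegular) (hω : ℵ₀ < κ) (𝓑 : Set (Pt κ)) (hB : κ ^< κ < #𝓑)
    (htr : ∀ α, #(tr α '' 𝓑) < 𝔠) :
    ∃ D E : Set (Pt κ), OmegaPlusOnePerfect D ∧ IsClosed E ∧
      (∃ f : D → E, Continuous f ∧ Function.Surjective f) ∧
      κ ^< κ < #E ∧ ∀ F ⊆ E, ∀ x₀, ¬ WinsII F x₀ := by
  have hκ0 := hκ.aleph0_le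
  have : Infinite (Idx κ) := by
    rw [Cardinal.infinite_iff, Cardinal.mk_ord_toType]
    exact hκ0
  have hprod : #(Idx κ × Idx κ) = #(Idx κ) := by
    rw [Cardinal.mk_prod, Cardinal.lift_id, Cardinal.mk_ord_toType]
    exact Cardinal.mul_eq_self hκ0
  obtain ⟨e⟩ := Cardinal.eq.1 hprod
  have hg : ∀ k : Idx κ, ∃ k', k' ≠ k := fun k => exists_ne k
  choose g hg using hg
  set E := closure 𝓑 with hE
  have htr₀ : ∀ α, #(tr α '' E) < 𝔠 := by
    intro α
    have : tr α '' E ⊆ tr α '' 𝓑 := by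
      rintro _ ⟨x, hx, rfl⟩
      obtain ⟨y, hy, hxy⟩ := (mem_closure_iff' hκ.aleph0_le).1 hx α
      exact ⟨y, hy, (tr_eq_iff.2 hxy).symm⟩
    exact lt_of_le_of_lt (Cardinal.mk_le_mk_of_subset this) (htr α)
  let p : Pt κ → Pt κ := fun w β => (e.symm (w β)).1
  have hploc : ∀ α x y, Agree α x y → Agree α (p x) (p y) := by
    intro α x y h β hβ
    simp only [p, h β hβ]
  have hpc : Continuous p := continuous_of_local hκ0 hploc
  -- modifying the second coordinate on a set of positions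
  let m : Set (Idx κ) → Pt κ → Pt κ := fun S w β =>
    if β ∈ S then e ((e.symm (w β)).1, g (e.symm (w β)).2) else w β
  have hpm : ∀ S w, p (m S w) = p w := by
    intro S w
    funext β
    simp only [p, m]
    split_ifs <;> simp
  have hmne : ∀ S S' w β, β ∈ S → β ∉ S' → m S w β ≠ m S' w β := by
    intro S S' w β hβ hβ' heq
    simp only [m, if_pos hβ, if_neg hβ'] at heq
    have := congrArg e.symm heq
    rw [Equiv.symm_apply_apply] at this
    have := congrArg Prod.snd this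
    exact hg _ this
  have hmag : ∀ S S' w α, (∀ β, β < α → (β ∈ S ↔ β ∈ S')) → Agree α (m S w) (m S' w) := by
    intro S S' w α h β hβ
    simp only [m]
    by_cases hS : β ∈ S
    · rw [if_pos hS, if_pos ((h β hβ).1 hS)]
    · rw [if_neg hS, if_neg (fun h' => hS ((h β hβ).2 h'))]
  have hmh : ∀ (a : ℕ → Idx κ) n x, x ∈ hist a n ↔ ∃ i, i < n ∧ a i = x := by
    intro a n x
    simp [hist]
  refine ⟨p ⁻¹' E, E, ⟨isClosed_closure.preimage hpc, fun w hw => ?_⟩, isClosed_closure, ?_, ?_,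
    ?_⟩
  · refine ⟨fun l => m {β | β ∈ l} w, fun a => m (range a) w, ?_, fun a ha => ⟨?_, ?_, ?_, ?_⟩⟩
    · funext β
      simp [m]
    · intro n _
      show p _ ∈ E
      rw [hpm]
      exact hw
    · intro i n hin
      refine ⟨fun heq => ?_, ?_⟩
      · refine hmne {β | β ∈ hist a n} {β | β ∈ hist a i} w (a i) ?_ ?_ (congrFun heq (a i))
        · exact (hmh a n _).2 ⟨i, hin, rfl⟩
        · intro h
          obtain ⟨j, hj, hji⟩ := (hmh a i _).1 h
          exact (ha hj).ne hji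
      · apply hmag
        intro β hβ
        simp only [mem_ofPred_eq, hmh]
        constructor
        · rintro ⟨j, hj, rfl⟩
          exact ⟨j, ha.lt_iff_lt.1 hβ, rfl⟩
        · rintro ⟨j, hj, rfl⟩
          exact ⟨j, hj.trans hin, rfl⟩
    · show p _ ∈ E
      rw [hpm]
      exact hw
    · intro i
      refine ⟨fun heq => ?_, ?_⟩
      · refine hmne (range a) {β | β ∈ hist a i} w (a i) ?_ ?_ (congrFun heq (a i))
        · exact mem_range_self i
        · intro h
          obtain ⟨j, hj, hji⟩ := (hmh a i _).1 h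
          exact (ha hj).ne hji
      · apply hmag
        intro β hβ
        simp only [mem_ofPred_eq, hmh]
        constructor
        · rintro ⟨j, rfl⟩
          exact ⟨j, ha.lt_iff_lt.1 hβ, rfl⟩
        · rintro ⟨j, hj, rfl⟩
          exact ⟨j, rfl⟩
  · refine ⟨fun w => ⟨p w.1, w.2⟩, (hpc.comp continuous_subtype_val).subtype_mk _, ?_⟩
    rintro ⟨x, hx⟩
    obtain ⟨k⟩ := nonempty_of hκ0
    refine ⟨⟨fun β => e (x β, k), ?_⟩, ?_⟩
    · show p _ ∈ E
      have : p (fun β => e (x β, k)) = x := by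
        funext β
        simp [p]
      rw [this]
      exact hx
    · apply Subtype.ext
      funext β
      simp [p]
  · exact lt_of_lt_of_le hB (Cardinal.mk_le_mk_of_subset subset_closure)
  · intro F hF x₀
    exact not_winsII hκ hω (fun α => lt_of_le_of_lt
      (Cardinal.mk_le_mk_of_subset (image_mono hF)) (htr₀ α)) x₀

end constructions

section families

variable {κ : Cardinal.{u}}

open Classical in
/-- From subsets of `κ` to points of `κ^κ`. -/
theorem exists_points (hκ : κ.IsRegular) (𝓑 : Set (Set (Idx κ))) (hB : κ ^< κ < #𝓑)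
    (htr : ∀ α : Idx κ, #((fun S => S ∩ Iio α) '' 𝓑) < 𝔠) :
    ∃ 𝓒 : Set (Pt κ), κ ^< κ < #𝓒 ∧ ∀ α, #(tr α '' 𝓒) < 𝔠 := by
  have : Infinite (Idx κ) := by
    rw [Cardinal.infinite_iff, Cardinal.mk_ord_toType]
    exact hκ.aleph0_le
  obtain ⟨k0, k1, hk⟩ := exists_pair_ne (Idx κ)
  let ind : Set (Idx κ) → Pt κ := fun S β => if β ∈ S then k1 else k0
  have hinj : Function.Injective ind := by
    intro S T h
    ext β
    have := congrFun h β
    simp only [ind] at this
    by_cases h1 : β ∈ S <;> by_cases h2 : β ∈ T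
    · simp [h1, h2]
    · rw [if_pos h1, if_neg h2] at this
      exact absurd this.symm hk
    · rw [if_neg h1, if_pos h2] at this
      exact absurd this hk
    · simp [h1, h2]
  refine ⟨ind '' 𝓑, ?_, fun α => ?_⟩
  · rwa [Cardinal.mk_image_eq hinj]
  · refine lt_of_le_of_lt ?_ (htr α)
    have : tr α '' (ind '' 𝓑) = (fun S => tr α (ind S)) '' ((fun S => S ∩ Iio α) '' 𝓑) := by
      rw [image_image, image_image]
      apply image_congr
      intro S _
      rw [tr_eq_iff]
      intro β hβ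
      simp [ind, hβ]
    rw [this]
    exact Cardinal.mk_image_le

theorem powerlt_aleph_one (hCH : (𝔠 : Cardinal.{u}) = ℵ₁) : (ℵ₁ : Cardinal.{u}) ^< ℵ₁ ≤ ℵ₁ := by
  rw [Cardinal.powerlt_le]
  intro c hc
  have hc' : c ≤ ℵ₀ := by
    rwa [← Cardinal.succ_aleph0, Order.lt_succ_iff] at hc
  calc (ℵ₁ : Cardinal.{u}) ^ c ≤ ℵ₁ ^ (ℵ₀ : Cardinal.{u}) :=
        Cardinal.power_le_power_left (Cardinal.aleph_pos 1).ne' hc'
    _ = 𝔠 := by rw [← hCH, Cardinal.continuum_power_aleph0]
    _ ≤ ℵ₁ := hCH.le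

/-- There is a family of more than `κ^{<κ}` subsets of `κ` with fewer than `2^ω` traces on every
`α < κ`. -/
def ThinBigFamily (κ : Cardinal.{u}) : Prop :=
  ∃ 𝓑 : Set (Set (Idx κ)), κ ^< κ < #𝓑 ∧ ∀ α : Idx κ, #((fun S => S ∩ Iio α) '' 𝓑) < 𝔠

/-- There is a Kurepa family: a family of at least `ℵ₂` subsets of `ω₁` with only countably many
traces on every `α < ω₁`. -/
def KurepaHypothesis : Prop :=
  ∃ 𝓑 : Set (Set (Idx (ℵ₁ : Cardinal.{u}))), ℵ_ 2 ≤ #𝓑 ∧
    ∀ α : Idx (ℵ₁ : Cardinal.{u}), ((fun S => S ∩ Iio α) '' 𝓑).Countable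

theorem thinBig_of_CH_KH (hCH : (𝔠 : Cardinal.{u}) = ℵ₁) (h : KurepaHypothesis.{u}) :
    ThinBigFamily (ℵ₁ : Cardinal.{u}) := by
  obtain ⟨𝓑, hB, htr⟩ := h
  refine ⟨𝓑, lt_of_lt_of_le (lt_of_le_of_lt (powerlt_aleph_one hCH) ?_) hB, fun α => ?_⟩
  · exact Cardinal.aleph_lt_aleph.2 (by norm_num)
  · exact lt_of_le_of_lt (Cardinal.le_aleph0_iff_set_countable.2 (htr α))
      Cardinal.aleph0_lt_continuum

end families

end Pool.Agent.V11245.OmegaPerf
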