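/-
Copyright (c) 2026 Pool contributors.
Thin closed subsets of `κ^κ` which are continuous images of `κ^κ`: passing to an everywhere
large one.
-/
import Pool.Agent.V11245.OmegaPerf

set_option autoImplicit false

namespace Pool.Agent.V11245.KTree

open Cardinal Set Pool.Agent.V11245.OmegaPerf

universe u

variable {κ : Cardinal.{u}}

theorem continuous_iff' (hκ : ℵ₀ ≤ κ) {f : Pt κ → Pt κ} :
    Continuous f ↔ ∀ x α, ∃ α', ∀ x', Agree α' x x' → Agree α (f x) (f x') := by
  constructor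
  · intro hf x α
    have h1 : IsOpen (f ⁻¹' Nbhd α (f x)) := (isOpen_Nbhd α (f x)).preimage hf
    obtain ⟨α', hα'⟩ := (isOpen_iff hκ).1 h1 x (Agree.refl _ _)
    exact ⟨α', fun x' hx' => hα' hx'⟩
  · intro h
    refine ⟨fun U hU => ?_⟩
    rw [isOpen_iff hκ] at hU ⊢
    intro x hx
    obtain ⟨α, hα⟩ := hU (f x) hx
    obtain ⟨α', hα'⟩ := h x α
    exact ⟨α', fun y hy => hα (hα' y hy)⟩

/-- `Lg E β y`: more than `κ` many points of `E` agree with `y` below `β`. -/
def Lg (E : Set (Pt κ)) (β : Idx κ) (y : Pt κ) : Prop := κ < #{y' : Pt κ | y' ∈ E ∧ Agree β y y'}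

theorem Lg.anti {E : Set (Pt κ)} {β β' : Idx κ} (h : β ≤ β') {y : Pt κ} (hy : Lg E β' y) :
    Lg E β y :=
  lt_of_lt_of_le hy (Cardinal.mk_le_mk_of_subset fun _ hz => ⟨hz.1, hz.2.mono h⟩)

theorem Lg.congr {E : Set (Pt κ)} {β : Idx κ} {y y' : Pt κ} (h : Agree β y y') :
    Lg E β y ↔ Lg E β y' := by
  have : {z : Pt κ | z ∈ E ∧ Agree β y z} = {z : Pt κ | z ∈ E ∧ Agree β y' z} := by
    ext z
    exact ⟨fun hz => ⟨hz.1, h.symm.trans hz.2⟩, fun hz => ⟨hz.1, h.trans hz.2⟩⟩
  unfold Lg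
  rw [this]

/-- The points all of whose restrictions are large. -/
def core (E : Set (Pt κ)) : Set (Pt κ) := {y | y ∈ E ∧ ∀ β, Lg E β y}

theorem card_diff_core (hκ : ℵ₀ ≤ κ) {E : Set (Pt κ)} (htr : ∀ α, #(tr α '' E) ≤ κ) :
    #(E \ core E : Set (Pt κ)) ≤ κ := by
  have hsub : E \ core E ⊆ ⋃ p : (Σ β : Idx κ, ↥(tr β '' E)),
      {y : Pt κ | y ∈ E ∧ tr p.1 y = p.2.1 ∧ ¬ Lg E p.1 y} := by
    rintro y ⟨hy, hyc⟩
    have : ∃ β, ¬ Lg E β y := by
      by_contra hcon
      push Not at hcon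
      exact hyc ⟨hy, hcon⟩
    obtain ⟨β, hβ⟩ := this
    exact mem_iUnion.2 ⟨⟨β, ⟨tr β y, mem_image_of_mem _ hy⟩⟩, hy, rfl, hβ⟩
  refine (Cardinal.mk_le_mk_of_subset hsub).trans ((Cardinal.mk_iUnion_le_sum_mk).trans ?_)
  have h1 : ∀ p : (Σ β : Idx κ, ↥(tr β '' E)),
      #{y : Pt κ | y ∈ E ∧ tr p.1 y = p.2.1 ∧ ¬ Lg E p.1 y} ≤ κ := by
    intro p
    by_cases hne : ∃ y, y ∈ E ∧ tr p.1 y = p.2.1 ∧ ¬ Lg E p.1 y
    · obtain ⟨y, hy, hty, hL⟩ := hne
      refine le_trans (Cardinal.mk_le_mk_of_subset ?_) (not_lt.1 hL)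
      rintro z ⟨hz, htz, -⟩
      exact ⟨hz, tr_eq_iff.1 (hty.trans htz.symm)⟩
    · have : {y : Pt κ | y ∈ E ∧ tr p.1 y = p.2.1 ∧ ¬ Lg E p.1 y} = ∅ := by
        rw [eq_empty_iff_forall_notMem]
        intro y hy
        exact hne ⟨y, hy⟩
      rw [this]
      simp
  refine (Cardinal.sum_le_sum _ (fun _ => κ) h1).trans ?_
  rw [Cardinal.sum_const, Cardinal.lift_id, Cardinal.lift_id, Cardinal.mk_sigma]
  refine le_trans (mul_le_mul' (Cardinal.sum_le_sum _ (fun _ => κ) htr) le_rfl) ?_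
  rw [Cardinal.sum_const, Cardinal.lift_id, Cardinal.lift_id, Cardinal.mk_ord_toType,
    Cardinal.mul_eq_self hκ, Cardinal.mul_eq_self hκ]

theorem core_large (hκ : ℵ₀ ≤ κ) {E : Set (Pt κ)} (htr : ∀ α, #(tr α '' E) ≤ κ)
    {y : Pt κ} {γ : Idx κ} (hy : Lg E γ y) : κ < #{y' : Pt κ | y' ∈ core E ∧ Agree γ y y'} := by
  by_contra hcon
  rw [not_lt] at hcon
  have hsub : {y' : Pt κ | y' ∈ E ∧ Agree γ y y'} ⊆
      {y' : Pt κ | y' ∈ core E ∧ Agree γ y y'} ∪ (E \ core E) := by
    rintro z ⟨hz, hz'⟩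
    by_cases hc : z ∈ core E
    · exact Or.inl ⟨hc, hz'⟩
    · exact Or.inr ⟨hz, hc⟩
  have h1 := (Cardinal.mk_le_mk_of_subset hsub).trans (Cardinal.mk_union_le _ _)
  have h2 := h1.trans (add_le_add hcon (card_diff_core hκ htr))
  rw [Cardinal.add_eq_self hκ] at h2
  exact absurd h2 (not_le.2 hy)

theorem core_nonempty (hκ : ℵ₀ ≤ κ) {E : Set (Pt κ)} (htr : ∀ α, #(tr α '' E) ≤ κ)
    (hE : κ < #E) : (core E).Nonempty := by
  by_contra hcon
  rw [not_nonempty_iff_eq_empty] at hcon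
  have := card_diff_core hκ htr
  rw [hcon, sdiff_empty] at this
  exact absurd this (not_le.2 hE)

theorem isClosed_core (hκ : ℵ₀ ≤ κ) {E : Set (Pt κ)} (hE : IsClosed E) : IsClosed (core E) := by
  rw [isClosed_iff hκ]
  intro x hx
  refine ⟨(isClosed_iff hκ).1 hE x fun α => ?_, fun β => ?_⟩
  · obtain ⟨y, hy, hxy⟩ := hx α
    exact ⟨y, hy.1, hxy⟩
  · obtain ⟨y, hy, hxy⟩ := hx β
    exact (Lg.congr hxy).2 (hy.2 β)

section restarts

/-- The least index of a large entry. -/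
noncomputable def kk (E : Set (Pt κ)) (ys : ℕ → Pt κ) (β : Idx κ) : ℕ := sInf {k | Lg E β (ys k)}

/-- The admissible sequences. -/
def Adm (E : Set (Pt κ)) (ys : ℕ → Pt κ) : Prop := (∀ i, ys i ∈ E) ∧ ∃ n, ys n ∈ core E

variable {E : Set (Pt κ)}

theorem kk_spec {ys : ℕ → Pt κ} (h : Adm E ys) (β : Idx κ) : Lg E β (ys (kk E ys β)) := by
  obtain ⟨n, hn⟩ := h.2
  exact Nat.sInf_mem (s := {k | Lg E β (ys k)}) ⟨n, hn.2 β⟩

theorem kk_le {ys : ℕ → Pt κ} {β : Idx κ} {n : ℕ} (h : Lg E β (ys n)) : kk E ys β ≤ n :=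
  Nat.sInf_le h

theorem kk_le_of_core {ys : ℕ → Pt κ} {n : ℕ} (h : ys n ∈ core E) (β : Idx κ) :
    kk E ys β ≤ n := kk_le (h.2 β)

theorem kk_mono {ys : ℕ → Pt κ} (h : Adm E ys) {β β' : Idx κ} (hb : β ≤ β') :
    kk E ys β ≤ kk E ys β' := kk_le ((kk_spec h β').anti hb)

theorem kk_congr {ys ys' : ℕ → Pt κ} (h : Adm E ys) {β : Idx κ}
    (hag : ∀ i, i ≤ kk E ys β → Agree β (ys i) (ys' i)) : kk E ys' β = kk E ys β := by
  apply le_antisymm
  · exact kk_le ((Lg.congr (hag _ le_rfl)).1 (kk_spec h β))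
  · by_contra hcon
    rw [not_le] at hcon
    have hmem : Lg E β (ys' (kk E ys' β)) :=
      Nat.sInf_mem (s := {k | Lg E β (ys' k)})
        ⟨kk E ys β, (Lg.congr (hag _ le_rfl)).1 (kk_spec h β)⟩
    have : Lg E β (ys (kk E ys' β)) := (Lg.congr (hag _ hcon.le)).2 hmem
    exact absurd (kk_le this) (not_le.2 hcon)

/-- The point of the new set associated with an admissible sequence. -/
noncomputable def Zp (E : Set (Pt κ)) (c : List (Idx κ) → Idx κ)
    (j : ∀ β : Idx κ, (Iio β → Idx κ) → Idx κ) (ys : ℕ → Pt κ) : Pt κ :=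
  fun β => c ((List.range (kk E ys β + 1)).map fun i => j β (tr β (ys i)))

variable {c : List (Idx κ) → Idx κ} {j : ∀ β : Idx κ, (Iio β → Idx κ) → Idx κ}

theorem Zp_congr {ys ys' : ℕ → Pt κ} (h : Adm E ys) {β : Idx κ}
    (hag : ∀ i, i ≤ kk E ys β → Agree β (ys i) (ys' i)) : Zp E c j ys β = Zp E c j ys' β := by
  unfold Zp
  rw [kk_congr h hag]
  congr 1
  apply List.map_congr_left
  intro i hi
  have hi' : i ≤ kk E ys β := by
    have := List.mem_range.1 hi
    omega
  rw [tr_eq_iff.2 (hag i hi')]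

theorem Zp_inj (hc : Function.Injective c) (hj : ∀ β, InjOn (j β) (tr β '' E))
    {ys ys' : ℕ → Pt κ} (h : Adm E ys) (h' : Adm E ys') {β : Idx κ}
    (heq : Zp E c j ys β = Zp E c j ys' β) :
    kk E ys β = kk E ys' β ∧ ∀ i, i ≤ kk E ys β → Agree β (ys i) (ys' i) := by
  unfold Zp at heq
  have h1 := hc heq
  have h2 : kk E ys β = kk E ys' β := by
    have := congrArg List.length h1
    simpa using this
  refine ⟨h2, fun i hi => ?_⟩
  rw [← h2] at h1
  have h3 := List.map_inj_left.1 h1 i (List.mem_range.2 (by omega))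
  rw [← tr_eq_iff]
  exact hj β (mem_image_of_mem _ (h.1 i)) (mem_image_of_mem _ (h'.1 i)) h3

/-- The new closed set. -/
def newSet (E : Set (Pt κ)) (c : List (Idx κ) → Idx κ)
    (j : ∀ β : Idx κ, (Iio β → Idx κ) → Idx κ) : Set (Pt κ) :=
  {z | ∃ ys, Adm E ys ∧ z = Zp E c j ys}

theorem newSet_thin (hω : ℵ₀ < κ) (htr : ∀ α, #(tr α '' E) < κ) (γ : Idx κ) :
    #(tr γ '' newSet E c j) < κ := by
  classical
  have hex : ∀ t : ↥(tr γ '' newSet E c j), ∃ ys : ℕ → Pt κ, ∃ n, Adm E ys ∧ ys n ∈ core E ∧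
      t.1 = tr γ (Zp E c j ys) := by
    rintro ⟨_, z, ⟨ys, hys, rfl⟩, rfl⟩
    obtain ⟨n, hn⟩ := hys.2
    exact ⟨ys, n, hys, hn, rfl⟩
  choose Y N hY hN ht using hex
  let F : ↥(tr γ '' newSet E c j) → List (↥(tr γ '' E)) := fun t =>
    (List.range (N t + 1)).map fun i => ⟨tr γ (Y t i), mem_image_of_mem _ ((hY t).1 i)⟩
  have hF : Function.Injective F := by
    intro t t' h
    have h1 : N t = N t' := by
      have := congrArg List.length h
      simpa [F] using this
    have h2 : ∀ i, i ≤ N t → Agree γ (Y t i) (Y t' i) := by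
      intro i hi
      simp only [F, ← h1] at h
      have := List.map_inj_left.1 h i (List.mem_range.2 (by omega))
      rw [← tr_eq_iff]
      exact congrArg Subtype.val this
    apply Subtype.ext
    rw [ht t, ht t', tr_eq_iff]
    intro β hβ
    apply Zp_congr (hY t)
    intro i hi
    exact (h2 i (hi.trans (kk_le_of_core (hN t) β))).mono hβ.le
  refine lt_of_le_of_lt (Cardinal.mk_le_of_injective hF) ?_
  exact lt_of_le_of_lt (Cardinal.mk_list_le_max _) (max_lt hω (htr γ))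

theorem newSet_large (hκ : κ.IsRegular) (htr : ∀ α, #(tr α '' E) < κ)
    (hc : Function.Injective c) (hj : ∀ β, InjOn (j β) (tr β '' E)) {z : Pt κ}
    (hz : z ∈ newSet E c j) (γ : Idx κ) :
    κ < #{z' : Pt κ | z' ∈ newSet E c j ∧ Agree γ z z'} := by
  classical
  obtain ⟨ys, hys, rfl⟩ := hz
  -- the least core index
  obtain ⟨N, hN, hmin⟩ : ∃ N, ys N ∈ core E ∧ ∀ i, i < N → ys i ∉ core E :=
    ⟨Nat.find hys.2, Nat.find_spec hys.2, fun i hi => Nat.find_min hys.2 hi⟩
  have hlarge := core_large hκ.aleph0_le (fun α => (htr α).le) (hN.2 γ)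
  refine lt_of_lt_of_le hlarge ?_
  have hadm : ∀ y' ∈ core E, Adm E (Function.update ys N y') := by
    intro y' hy'
    refine ⟨fun i => ?_, N, ?_⟩
    · by_cases hi : i = N
      · subst hi
        simpa using hy'.1
      · simpa [Function.update_of_ne hi] using hys.1 i
    · simpa using hy'
  have hsmall : ∃ β₀, ∀ i, i < N → ¬ Lg E β₀ (ys i) := by
    have hex : ∀ i, i < N → ∃ β, ¬ Lg E β (ys i) := by
      intro i hi
      by_contra hcon
      push Not at hcon
      exact hmin i hi ⟨hys.1 i, hcon⟩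
    have hne : Nonempty (Idx κ) := nonempty_of hκ.aleph0_le
    choose! b hb using hex
    obtain ⟨M, hM⟩ := Finset.exists_le ((Finset.range N).image b)
    refine ⟨M, fun i hi hL => hb i hi (hL.anti (hM _ ?_))⟩
    exact Finset.mem_image_of_mem _ (Finset.mem_range.2 hi)
  obtain ⟨β₀, hβ₀⟩ := hsmall
  let F : {y' : Pt κ | y' ∈ core E ∧ Agree γ (ys N) y'} →
      {z' : Pt κ | z' ∈ newSet E c j ∧ Agree γ (Zp E c j ys) z'} := fun y' =>
    ⟨Zp E c j (Function.update ys N y'.1), ⟨_, hadm y'.1 y'.2.1, rfl⟩, by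
      intro β hβ
      apply Zp_congr hys
      intro i hi
      by_cases hiN : i = N
      · subst hiN
        simpa using y'.2.2.mono hβ.le
      · rw [Function.update_of_ne hiN]
        exact Agree.refl _ _⟩
  apply Cardinal.mk_le_of_injective (f := F)
  intro y' y'' heq
  have heq' : Zp E c j (Function.update ys N y'.1) = Zp E c j (Function.update ys N y''.1) :=
    congrArg Subtype.val heq
  apply Subtype.ext
  have := noMax hκ.aleph0_le
  funext η
  obtain ⟨η', hη'⟩ := exists_gt η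
  set β := max β₀ η' with hβ
  have hk : kk E (Function.update ys N y'.1) β = N := by
    apply le_antisymm
    · apply kk_le_of_core
      simpa using y'.2.1
    · by_contra hcon
      rw [not_le] at hcon
      have h1 := kk_spec (hadm y'.1 y'.2.1) β
      rw [Function.update_of_ne hcon.ne] at h1
      exact hβ₀ _ hcon (h1.anti (le_max_left _ _))
  have h2 := (Zp_inj hc hj (hadm y'.1 y'.2.1) (hadm y''.1 y''.2.1) (congrFun heq' β)).2 N
    (by rw [hk])
  simp only [Function.update_self] at h2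
  exact h2 η (lt_of_lt_of_le hη' (le_max_right _ _))

theorem newSet_closed (hκ : κ.IsRegular) (hω : ℵ₀ < κ) (hE : IsClosed E)
    (hc : Function.Injective c) (hj : ∀ β, InjOn (j β) (tr β '' E)) :
    IsClosed (newSet E c j) := by
  classical
  have := noMax hκ.aleph0_le
  rw [isClosed_iff hκ.aleph0_le]
  intro z hz
  have hex : ∀ γ : Idx κ, ∃ ys, Adm E ys ∧ Agree γ z (Zp E c j ys) := by
    intro γ
    obtain ⟨a, ⟨ys, hys, rfl⟩, ha⟩ := hz γ
    exact ⟨ys, hys, ha⟩
  choose Y hY hZ using hex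
  have hcons : ∀ β γ γ', β < γ → β < γ' →
      kk E (Y γ) β = kk E (Y γ') β ∧ ∀ i, i ≤ kk E (Y γ) β → Agree β (Y γ i) (Y γ' i) := by
    intro β γ γ' h h'
    exact Zp_inj hc hj (hY γ) (hY γ') ((hZ γ β h).symm.trans (hZ γ' β h'))
  choose S hS using fun β : Idx κ => exists_gt β
  let m : Idx κ → ℕ := fun β => kk E (Y (S β)) β
  have hm : ∀ β γ, β < γ → kk E (Y γ) β = m β := fun β γ h => (hcons β γ (S β) h (hS β)).1
  have hmono : Monotone m := by
    intro β β' h
    rw [← hm β (S β') (lt_of_le_of_lt h (hS β'))]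
    exact kk_mono (hY _) h
  -- boundedness
  have hbdd : ∃ N, ∀ β, m β ≤ N := by
    by_contra hcon
    push Not at hcon
    choose b hb using hcon
    obtain ⟨γ, hγ⟩ := bdd hκ (fun n : ULift.{u} ℕ => b n.down) (by simpa using hω)
    obtain ⟨n, hn⟩ := (hY γ).2
    have h1 := kk_le_of_core hn (b n)
    rw [hm _ _ (hγ ⟨n⟩)] at h1
    exact absurd h1 (not_le.2 (hb n))
  obtain ⟨N, βs, hN, hβs⟩ : ∃ N, ∃ βs, (∀ β, m β ≤ N) ∧ m βs = N := by
    have hne : {n | ∃ β, m β = n}.Nonempty := by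
      obtain ⟨k0⟩ := nonempty_of hκ.aleph0_le
      exact ⟨m k0, k0, rfl⟩
    obtain ⟨N, hN⟩ := hbdd
    have hfin : {n | ∃ β, m β = n}.Finite := (Set.finite_Iic N).subset (by
      rintro _ ⟨β, rfl⟩
      exact hN β)
    obtain ⟨M, ⟨β, hβ⟩, hM⟩ := hfin.exists_maximal hne
    refine ⟨M, β, fun β' => ?_, hβ⟩
    by_contra hcon
    rw [not_le] at hcon
    exact absurd (hM ⟨β', rfl⟩ hcon.le) (not_le.2 hcon)
  have hmN : ∀ β, βs ≤ β → m β = N := fun β h => le_antisymm (hN β) (hβs ▸ hmono h)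
  -- the limit points
  let G : Idx κ → Idx κ := fun η => S (max βs (S η))
  have hG : ∀ η, max βs (S η) < G η := fun η => hS _
  let y : ℕ → Pt κ := fun i η => Y (G η) i η
  have hy : ∀ i, i ≤ N → ∀ β γ, βs ≤ β → β < γ → Agree β (y i) (Y γ i) := by
    intro i hi β γ hβ hγ η hη
    show Y (G η) i η = Y γ i η
    set β' := max βs (Order.succ η) with hβ'
    have h1 : β' ≤ β := max_le hβ (Order.succ_le_of_lt hη)
    have h2 : β' < G η := lt_of_le_of_lt (max_le_max_left _ (Order.succ_le_of_lt (hS η))) (hG η)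
    have h3 := (hcons β' (G η) γ h2 (lt_of_le_of_lt h1 hγ)).2 i (by
      rw [hm _ _ h2, hmN _ (le_max_left _ _)]
      exact hi)
    exact h3 η (lt_of_lt_of_le (Order.lt_succ η) (le_max_right _ _))
  have hyE : ∀ i, i ≤ N → y i ∈ E := by
    intro i hi
    refine (isClosed_iff hκ.aleph0_le).1 hE _ fun α => ?_
    refine ⟨Y (S (max βs α)) i, (hY _).1 i, ?_⟩
    exact (hy i hi _ _ (le_max_left _ _) (hS _)).mono (le_max_right _ _)
  have hyN : y N ∈ core E := by
    refine ⟨hyE N le_rfl, fun β => ?_⟩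
    have h1 := kk_spec (hY (S (max βs β))) (max βs β)
    rw [hm _ _ (hS _), hmN _ (le_max_left _ _)] at h1
    exact ((Lg.congr (hy N le_rfl _ _ (le_max_left _ _) (hS _))).2 h1).anti (le_max_right _ _)
  let ys : ℕ → Pt κ := fun i => if i ≤ N then y i else y N
  have hys : Adm E ys := by
    refine ⟨fun i => ?_, N, ?_⟩
    · by_cases hi : i ≤ N
      · simp only [ys, if_pos hi]
        exact hyE i hi
      · simp only [ys, if_neg hi]
        exact hyE N le_rfl
    · simpa [ys] using hyN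
  refine ⟨ys, hys, ?_⟩
  funext β
  set β₂ := max βs β with hβ₂
  have h1 : z β = Zp E c j (Y (S β₂)) β :=
    hZ _ β (lt_of_le_of_lt (le_max_right _ _) (hS β₂))
  rw [h1]
  apply Zp_congr (hY _)
  intro i hi
  have hiN : i ≤ N := by
    have h2 := hm β (S β₂) (lt_of_le_of_lt (le_max_right _ _) (hS β₂))
    rw [h2] at hi
    exact hi.trans (hN β)
  simp only [ys, if_pos hiN]
  exact ((hy i hiN β₂ _ (le_max_left _ _) (hS _)).mono (le_max_right _ _)).symm

/-- The new set is a continuous image if the old one is. -/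
theorem newSet_image (hκ : κ.IsRegular) (hne : (core E).Nonempty)
    {f : Pt κ → Pt κ} (hf : Continuous f) (hrange : range f = E)
    (d : Idx κ → List (Idx κ)) (hd : Function.Surjective d) :
    ∃ g : Pt κ → Pt κ, Continuous g ∧ range g = newSet E c j := by
  classical
  have := noMax hκ.aleph0_le
  obtain ⟨z₀, hz₀⟩ := hne
  have hne' : Nonempty (Idx κ) := nonempty_of hκ.aleph0_le
  obtain ⟨k0⟩ := nonempty_of hκ.aleph0_le
  have hf' := (continuous_iff' hκ.aleph0_le).1 hf
  have hfE : ∀ x, f x ∈ E := fun x => hrange ▸ mem_range_self x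
  -- decoding
  let num : Pt κ → ℕ := fun x => (d (x k0)).length
  let comp : Pt κ → ℕ → Pt κ := fun x i β => (d (x β)).getD i k0
  have hcomp : ∀ α x x' i, Agree α x x' → Agree α (comp x i) (comp x' i) := by
    intro α x x' i h β hβ
    simp only [comp, h β hβ]
  let seq : Pt κ → ℕ → Pt κ := fun x i => if i < num x then f (comp x i) else z₀
  have hseq : ∀ x, Adm E (seq x) := by
    intro x
    refine ⟨fun i => ?_, num x, ?_⟩
    · simp only [seq]
      split_ifs
      · exact hfE _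
      · exact hz₀.1
    · simpa [seq] using hz₀
  refine ⟨fun x => Zp E c j (seq x), ?_, ?_⟩
  · rw [continuous_iff' hκ.aleph0_le]
    intro x α
    have hex : ∀ i, ∃ α', ∀ x', Agree α' x x' → Agree α (f (comp x i)) (f (comp x' i)) := by
      intro i
      obtain ⟨α', hα'⟩ := hf' (comp x i) α
      exact ⟨α', fun x' hx' => hα' _ (hcomp _ _ _ _ hx')⟩
    choose b hb using hex
    obtain ⟨M, hM⟩ := Finset.exists_le ((Finset.range (num x)).image b)
    obtain ⟨k1, hk1⟩ := exists_gt k0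
    refine ⟨max M k1, fun x' hx' β hβ => ?_⟩
    have hnum : num x' = num x := by
      simp only [num, hx' k0 (lt_of_lt_of_le hk1 (le_max_right _ _))]
    apply Zp_congr (hseq x)
    intro i _
    simp only [seq, hnum]
    split_ifs with hi
    · refine (hb i x' (hx'.mono ((hM _ ?_).trans (le_max_left _ _)))).mono hβ.le
      exact Finset.mem_image_of_mem _ (Finset.mem_range.2 hi)
    · exact Agree.refl _ _
  · apply Subset.antisymm
    · rintro _ ⟨x, rfl⟩
      exact ⟨seq x, hseq x, rfl⟩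
    · rintro _ ⟨ys, hys, rfl⟩
      obtain ⟨N, hN⟩ := hys.2
      have hpre : ∀ i, ∃ p, f p = ys i := fun i => by
        have := hys.1 i
        rw [← hrange] at this
        exact this
      choose p hp using hpre
      choose x hx using fun β : Idx κ => hd ((List.range (N + 1)).map fun i => p i β)
      refine ⟨x, ?_⟩
      have hnum : num x = N + 1 := by simp [num, hx]
      have hc' : ∀ i, i < N + 1 → comp x i = p i := by
        intro i hi
        funext β
        simp only [comp, hx]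
        rw [List.getD_eq_getElem _ _ (by simpa using hi)]
        simp
      funext β
      symm
      apply Zp_congr hys
      intro i hi
      have hi' : i < N + 1 := Nat.lt_succ_of_le (hi.trans (kk_le_of_core hN β))
      simp only [seq, hnum, if_pos hi', hc' i hi', hp]
      exact Agree.refl _ _

end restarts

/-- **Main construction.** If some thin closed set with more than `κ` points is a continuous image
of `κ^κ`, then so is one which has more than `κ` points in each of its nonempty basic open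
subsets. -/
theorem exists_everywhere_large (hκ : κ.IsRegular) (hω : ℵ₀ < κ) {E : Set (Pt κ)}
    (hE : IsClosed E) (htr : ∀ α, #(tr α '' E) < κ) (hcard : κ < #E)
    (hf : ∃ f : Pt κ → Pt κ, Continuous f ∧ range f = E) :
    ∃ A : Set (Pt κ), A.Nonempty ∧ IsClosed A ∧ (∀ α, #(tr α '' A) < κ) ∧
      (∀ a ∈ A, ∀ α, κ < #{a' : Pt κ | a' ∈ A ∧ Agree α a a'}) ∧
      ∃ f : Pt κ → Pt κ, Continuous f ∧ range f = A := by
  classical
  have hinf : Infinite (Idx κ) := by
    rw [Cardinal.infinite_iff, Cardinal.mk_ord_toType]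
    exact hκ.aleph0_le
  have hne : Nonempty (Idx κ) := nonempty_of hκ.aleph0_le
  obtain ⟨k0⟩ := nonempty_of hκ.aleph0_le
  obtain ⟨cd⟩ := Cardinal.eq.1 (Cardinal.mk_list_eq_mk (Idx κ))
  have hj : ∀ β : Idx κ, ∃ j : (Iio β → Idx κ) → Idx κ, InjOn j (tr β '' E) := by
    intro β
    have h1 : #(tr β '' E) ≤ #(Idx κ) := by
      rw [Cardinal.mk_ord_toType]
      exact (htr β).le
    obtain ⟨e⟩ := (Cardinal.le_def _ _).1 h1
    refine ⟨fun t => if h : t ∈ tr β '' E then e ⟨t, h⟩ else k0, fun t ht t' ht' heq => ?_⟩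
    simp only [dif_pos ht, dif_pos ht'] at heq
    exact congrArg Subtype.val (e.injective heq)
  choose j hj using hj
  obtain ⟨f, hfc, hfr⟩ := hf
  have hcne := core_nonempty hκ.aleph0_le (fun α => (htr α).le) hcard
  refine ⟨newSet E cd j, ?_, newSet_closed hκ hω hE cd.injective hj, newSet_thin hω htr,
    fun a ha α => newSet_large hκ htr cd.injective hj ha α,
    newSet_image hκ hcne hfc hfr cd.symm cd.symm.surjective⟩
  obtain ⟨z, hz⟩ := hcne
  exact ⟨_, fun _ => z, ⟨fun _ => hz.1, 0, hz⟩, rfl⟩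

end Pool.Agent.V11245.KTree
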