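/-
Copyright (c) 2026 Pool contributors.
Thin perfect closed subsets of `κ^κ` are not retracts of `κ^κ`.
-/
import Pool.Agent.V11245.KTree

set_option autoImplicit false

namespace Pool.Agent.V11245.KTree

open Cardinal Set Pool.Agent.V11245.OmegaPerf

universe u

variable {κ : Cardinal.{u}}

/-- `p = (x, β)` codes the node `x ↾ β`; it is `r`-closed if `r` maps the cone above it to
itself. -/
def RC (r : Pt κ → Pt κ) (p : Pt κ × Idx κ) : Prop := ∀ y, Agree p.2 p.1 y → Agree p.2 p.1 (r y)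

/-- `q` extends `p`. -/
def Ext (p q : Pt κ × Idx κ) : Prop := p.2 ≤ q.2 ∧ Agree p.2 p.1 q.1

theorem Ext.trans {p q s : Pt κ × Idx κ} (h : Ext p q) (h' : Ext q s) : Ext p s :=
  ⟨h.1.trans h'.1, h.2.trans (h'.2.mono h.1)⟩

/-- Least upper bounds exist in `κ`. -/
theorem exists_lub {S : Set (Idx κ)} (h : ∃ b, ∀ s ∈ S, s ≤ b) :
    ∃ b, (∀ s ∈ S, s ≤ b) ∧ ∀ η, η < b → ∃ s ∈ S, η < s := by
  obtain ⟨b, hb, hmin⟩ := WellFounded.has_min (wellFounded_lt (α := Idx κ))
    {b | ∀ s ∈ S, s ≤ b} h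
  refine ⟨b, hb, fun η hη => ?_⟩
  by_contra hcon
  push Not at hcon
  exact hmin η hcon hη

theorem exists_RC (hκ : κ.IsRegular) (hω : ℵ₀ < κ) {r : Pt κ → Pt κ} (hr : Continuous r)
    {a : Pt κ} (ha : r a = a) (β₀ : Idx κ) : ∃ β, β₀ ≤ β ∧ RC r (a, β) := by
  have := noMax hκ.aleph0_le
  have h1 : ∀ β : Idx κ, ∃ β', β < β' ∧ ∀ y, Agree β' a y → Agree β a (r y) := by
    intro β
    obtain ⟨α', hα'⟩ := (continuous_iff' hκ.aleph0_le).1 hr a β
    obtain ⟨β', hβ'⟩ := exists_gt (max β α')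
    refine ⟨β', lt_of_le_of_lt (le_max_left _ _) hβ', fun y hy => ?_⟩
    have := hα' y (hy.mono ((le_max_right _ _).trans hβ'.le))
    rwa [ha] at this
  choose B hB1 hB2 using h1
  let b : ℕ → Idx κ := fun n => Nat.rec β₀ (fun _ x => B x) n
  have hb : ∀ n, b (n + 1) = B (b n) := fun n => rfl
  obtain ⟨γ, hγ⟩ := bdd hκ (fun n : ULift.{u} ℕ => b n.down) (by simpa using hω)
  obtain ⟨β, hβ, hlub⟩ := exists_lub (S := range b) ⟨γ, by
    rintro _ ⟨n, rfl⟩
    exact (hγ ⟨n⟩).le⟩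
  refine ⟨β, hβ _ ⟨0, rfl⟩, fun y hy η hη => ?_⟩
  obtain ⟨_, ⟨n, rfl⟩, hn⟩ := hlub η hη
  exact hB2 (b n) y (hy.mono (by
    rw [← hb]
    exact hβ _ ⟨n + 1, rfl⟩)) η hn

/-- The splitting step. -/
theorem exists_split (hκ : κ.IsRegular) (hω : ℵ₀ < κ) {E : Set (Pt κ)} {r : Pt κ → Pt κ}
    (hr : Continuous r) (hrE : ∀ x, r x ∈ E) (hra : ∀ a ∈ E, r a = a)
    (hperf : ∀ a ∈ E, ∀ α, ∃ a' ∈ E, a' ≠ a ∧ Agree α a a') {p : Pt κ × Idx κ} (hp : RC r p) :
    ∃ e : Bool → Pt κ × Idx κ, (∀ b, RC r (e b) ∧ Ext p (e b)) ∧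
      ∃ η, η < (e false).2 ∧ η < (e true).2 ∧ (e false).1 η ≠ (e true).1 η := by
  have := noMax hκ.aleph0_le
  have ha : r p.1 ∈ E := hrE _
  have hpa : Agree p.2 p.1 (r p.1) := hp _ (Agree.refl _ _)
  obtain ⟨a', ha', hne, haa'⟩ := hperf _ ha p.2
  have hd : ∃ η, r p.1 η ≠ a' η := by
    by_contra hcon
    push Not at hcon
    exact hne (funext hcon).symm
  obtain ⟨η, hη⟩ := hd
  obtain ⟨γ, hγ⟩ := exists_gt (max η p.2)
  obtain ⟨β₁, hβ₁, h1⟩ := exists_RC hκ hω hr (hra _ ha) γ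
  obtain ⟨β₂, hβ₂, h2⟩ := exists_RC hκ hω hr (hra _ ha') γ
  have hpγ : p.2 ≤ γ := ((le_max_right _ _).trans hγ.le)
  have hηγ : η < γ := lt_of_le_of_lt (le_max_left _ _) hγ
  refine ⟨fun b => if b then (a', β₂) else (r p.1, β₁), ?_, η, ?_, ?_, ?_⟩
  · rintro (_ | _)
    · exact ⟨h1, hpγ.trans hβ₁, hpa⟩
    · exact ⟨h2, hpγ.trans hβ₂, hpa.trans haa'⟩
  · exact lt_of_lt_of_le hηγ hβ₁
  · exact lt_of_lt_of_le hηγ hβ₂
  · exact hη

/-- Coherent families of `r`-closed nodes have `r`-closed unions. -/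
theorem exists_glue (hκ : κ.IsRegular) {r : Pt κ → Pt κ} {ι : Type u} [LinearOrder ι]
    (hι : #ι < κ) (p : ι → Pt κ × Idx κ) (hp : ∀ i, RC r (p i))
    (hcoh : ∀ i j, i < j → Ext (p i) (p j)) : ∃ q, RC r q ∧ ∀ i, Ext (p i) q := by
  classical
  obtain ⟨γ, hγ⟩ := bdd hκ (fun i => (p i).2) hι
  obtain ⟨β, hβ, hlub⟩ := exists_lub (S := range fun i => (p i).2) ⟨γ, by
    rintro _ ⟨n, rfl⟩
    exact (hγ n).le⟩
  have hag : ∀ i j η, η < (p i).2 → η < (p j).2 → (p i).1 η = (p j).1 η := by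
    intro i j η hi hj
    rcases lt_trichotomy i j with h | h | h
    · exact (hcoh i j h).2 η hi
    · rw [h]
    · exact ((hcoh j i h).2 η hj).symm
  let x : Pt κ := fun η => if h : ∃ i, η < (p i).2 then (p h.choose).1 η else γ
  have hx : ∀ i, Agree (p i).2 (p i).1 x := by
    intro i η hη
    have h : ∃ i, η < (p i).2 := ⟨i, hη⟩
    simp only [x, dif_pos h]
    exact hag _ _ _ hη h.choose_spec
  refine ⟨(x, β), fun y hy η hη => ?_, fun i => ⟨hβ _ ⟨i, rfl⟩, hx i⟩⟩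
  obtain ⟨_, ⟨i, rfl⟩, hi⟩ := hlub η hη
  have h1 : Agree (p i).2 (p i).1 y := (hx i).trans (hy.mono (hβ _ ⟨i, rfl⟩))
  have h2 := hp i y h1 η hi
  rw [← h2]
  exact (hx i η hi).symm

/-- **A uniformly thin perfect subset of `κ^κ` is not a retract of `κ^κ`.** -/
theorem not_retract (hκ : κ.IsRegular) {l : Cardinal.{u}} (hl : ℵ₀ ≤ l) (hlκ : l < κ)
    {E : Set (Pt κ)} (htr : ∀ α, #(tr α '' E) ≤ l)
    (hperf : ∀ a ∈ E, ∀ α, ∃ a' ∈ E, a' ≠ a ∧ Agree α a a') (r : Pt κ → Pt κ)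
    (hr : Continuous r) (hrE : ∀ x, r x ∈ E) (hra : ∀ a ∈ E, r a = a) : False := by
  classical
  have hω : ℵ₀ < κ := lt_of_le_of_lt hl hlκ
  obtain ⟨k0⟩ := nonempty_of hκ.aleph0_le
  let P : Type u := Pt κ × Idx κ
  let p0 : P := (fun _ => k0, k0)
  -- the splitting function
  have he : ∀ p : P, ∃ e : Bool → P, RC r p → (∀ b, RC r (e b) ∧ Ext p (e b)) ∧
      ∃ η, η < (e false).2 ∧ η < (e true).2 ∧ (e false).1 η ≠ (e true).1 η := by
    intro p
    by_cases hp : RC r p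
    · obtain ⟨e, h⟩ := exists_split hκ hω hr hrE hra hperf hp
      exact ⟨e, fun _ => h⟩
    · exact ⟨fun _ => p0, fun h => absurd h hp⟩
  choose e he using he
  -- the least `μ` with `l < 2 ^ μ`
  obtain ⟨μ, hμ, hmin⟩ := WellFounded.has_min (wellFounded_lt (α := Cardinal.{u}))
    {μ | l < 2 ^ μ} ⟨l, Cardinal.cantor l⟩
  have hμl : μ ≤ l := not_lt.1 (hmin l (Cardinal.cantor l))
  have hμω : ℵ₀ ≤ μ := by
    by_contra hcon
    rw [not_le] at hcon
    have h1 : (2 : Cardinal.{u}) ^ μ < ℵ₀ :=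
      Cardinal.power_lt_aleph0 (Cardinal.natCast_lt_aleph0) hcon
    exact absurd (h1.trans_le hl) (not_lt.2 (le_of_lt hμ))
  let I : Type u := μ.ord.ToType
  have hI : #I = μ := Cardinal.mk_ord_toType μ
  have hIio : ∀ i : I, #(Iio i) < μ := by
    intro i
    have := Cardinal.mk_Iio_lt i (by simp [I])
    rwa [hI] at this
  -- glueing
  have hG : ∀ (i : I) (q : Iio i → P), ∃ q' : P, (∀ j, RC r (q j)) →
      (∀ j j', j < j' → Ext (q j) (q j')) → RC r q' ∧ ∀ j, Ext (q j) q' := by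
    intro i q
    by_cases h : (∀ j, RC r (q j)) ∧ (∀ j j', j < j' → Ext (q j) (q j'))
    · obtain ⟨q', hq'⟩ := exists_glue hκ ((hIio i).trans (hμl.trans_lt hlκ)) q h.1 h.2
      exact ⟨q', fun _ _ => hq'⟩
    · exact ⟨p0, fun h1 h2 => absurd ⟨h1, h2⟩ h⟩
  choose G hG using hG
  let F : (I → Bool) → I → P := fun g => WellFounded.fix (wellFounded_lt (α := I))
    (fun i rec => e (G i (fun j : Iio i => rec j.1 j.2)) (g i))
  have hF : ∀ g i, F g i = e (G i (fun j : Iio i => F g j.1)) (g i) := by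
    intro g i
    exact WellFounded.fix_eq _ _ i
  have hinv : ∀ g i, RC r (F g i) ∧ ∀ j, j < i → Ext (F g j) (F g i) := by
    intro g i
    induction i using WellFounded.induction (wellFounded_lt (α := I)) with
    | _ i ih =>
      have h1 := hG i (fun j : Iio i => F g j.1) (fun j => (ih j.1 j.2).1)
        (fun j j' h => (ih j'.1 j'.2).2 j.1 h)
      have h2 := (he _ h1.1).1 (g i)
      rw [hF g i]
      exact ⟨h2.1, fun j hj => (h1.2 ⟨j, hj⟩).trans h2.2⟩
  have hcongr : ∀ g g' i, (∀ j, j ≤ i → g j = g' j) → F g i = F g' i := by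
    intro g g' i
    induction i using WellFounded.induction (wellFounded_lt (α := I)) with
    | _ i ih =>
      intro h
      rw [hF g i, hF g' i, h i le_rfl]
      congr 2
      funext j
      exact ih j.1 j.2 fun j' hj' => h j' (hj'.trans j.2.le)
  -- a uniform bound for the levels
  let ext : (Σ i : I, (Iic i → Bool)) → I → Bool := fun s j =>
    if h : j ≤ s.1 then s.2 ⟨j, h⟩ else false
  have hJ : #(Σ i : I, (Iic i → Bool)) < κ := by
    rw [Cardinal.mk_sigma]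
    have h1 : ∀ i : I, #(Iic i → Bool) ≤ l := by
      intro i
      have : NoMaxOrder I := Cardinal.noMaxOrder hμω
      obtain ⟨i', hi'⟩ := exists_gt i
      have h2 : #(Iic i) < μ := lt_of_le_of_lt
        (Cardinal.mk_le_mk_of_subset fun x hx => lt_of_le_of_lt hx hi') (hIio i')
      have h3 : #(Iic i → Bool) = 2 ^ #(Iic i) := by simp
      rw [h3]
      exact not_lt.1 fun h => hmin _ h h2
    refine lt_of_le_of_lt (Cardinal.sum_le_sum _ (fun _ => l) h1) ?_
    rw [Cardinal.sum_const, Cardinal.lift_id, Cardinal.lift_id, hI]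
    exact Cardinal.mul_lt_of_lt hκ.aleph0_le (hμl.trans_lt hlκ) hlκ
  obtain ⟨Γ, hΓ⟩ := bdd hκ (fun s : (Σ i : I, (Iic i → Bool)) => (F (ext s) s.1).2) hJ
  have hΓ' : ∀ g i, (F g i).2 < Γ := by
    intro g i
    have := hΓ ⟨i, fun j => g j.1⟩
    rwa [hcongr (ext ⟨i, fun j => g j.1⟩) g i fun j hj => by simp [ext, hj]] at this
  -- the points
  have hpt : ∀ g : I → Bool, ∃ a ∈ E, ∀ i, Agree (F g i).2 (F g i).1 a := by
    intro g
    obtain ⟨q, hq, hq'⟩ := exists_glue hκ (by rw [hI]; exact hμl.trans_lt hlκ) (F g)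
      (fun i => (hinv g i).1) (fun i j h => (hinv g j).2 i h)
    exact ⟨r q.1, hrE _, fun i => (hq' i).2.trans ((hq _ (Agree.refl _ _)).mono (hq' i).1)⟩
  choose a haE ha using hpt
  have hinj : Function.Injective (fun g : I → Bool =>
      (⟨tr Γ (a g), mem_image_of_mem _ (haE g)⟩ : tr Γ '' E)) := by
    intro g g' hgg
    by_contra hne
    have hag : Agree Γ (a g) (a g') := by
      rw [← tr_eq_iff]
      exact congrArg Subtype.val hgg
    have hex : {i | g i ≠ g' i}.Nonempty := by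
      by_contra hcon
      rw [not_nonempty_iff_eq_empty, eq_empty_iff_forall_notMem] at hcon
      exact hne (funext fun i => by simpa using hcon i)
    obtain ⟨i, hi, himin⟩ := WellFounded.has_min (wellFounded_lt (α := I)) _ hex
    have hsame : (fun j : Iio i => F g j.1) = (fun j : Iio i => F g' j.1) := by
      funext j
      apply hcongr
      intro j' hj'
      by_contra hcon
      exact himin j' hcon (lt_of_le_of_lt hj' j.2)
    have h1 := hG i (fun j : Iio i => F g j.1) (fun j => (hinv g j.1).1)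
        (fun j j' h => (hinv g j'.1).2 j.1 h)
    obtain ⟨η, hη1, hη2, hη3⟩ := (he _ h1.1).2
    have hFg := hF g i
    have hFg' := hF g' i
    rw [← hsame] at hFg'
    set q := G i (fun j : Iio i => F g j.1) with hq
    have hlt : ∀ b, η < (e q b).2 := by
      rintro (_ | _)
      · exact hη1
      · exact hη2
    have hb1 : (e q (g i)).1 η = a g η := by
      rw [← hFg]
      exact ha g i η (by rw [hFg]; exact hlt _)
    have hb2 : (e q (g' i)).1 η = a g' η := by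
      rw [← hFg']
      exact ha g' i η (by rw [hFg']; exact hlt _)
    have hηΓ : η < Γ := (hlt (g i)).trans (by rw [← hFg]; exact hΓ' g i)
    have heq : (e q (g i)).1 η = (e q (g' i)).1 η := by
      rw [hb1, hb2, hag η hηΓ]
    have hgi : g i ≠ g' i := hi
    rcases h : g i with _ | _ <;> rcases h' : g' i with _ | _
    · exact hgi (h.trans h'.symm)
    · rw [h, h'] at heq
      exact hη3 heq
    · rw [h, h'] at heq
      exact hη3 heq.symm
    · exact hgi (h.trans h'.symm)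
  have h1 := Cardinal.mk_le_of_injective hinj
  have h2 : #(I → Bool) = 2 ^ μ := by simp [hI]
  rw [h2] at h1
  exact absurd (h1.trans (htr Γ)) (not_le.2 hμ)

end Pool.Agent.V11245.KTree
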