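/-
Copyright (c) 2026 Pool contributors.
Subtrees of `^{<κ}κ`, their bodies, and `ω₂`-Kurepa trees.
-/
import Pool.Agent.V11245.KRetract

set_option autoImplicit false

namespace Pool.Agent.V11245.KTree

open Cardinal Set Pool.Agent.V11245.OmegaPerf

universe u

variable {κ : Cardinal.{u}}

/-- The elements of `^{<κ}κ`: pairs of a length `α < κ` and a function `α → κ`. -/
abbrev Node (κ : Cardinal.{u}) : Type u := Σ α : Idx κ, (Iio α → Idx κ)

/-- The restriction of a node to a smaller length. -/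
def Node.restrict (s : Node κ) (β : Idx κ) (h : β ≤ s.1) : Node κ :=
  ⟨β, fun i => s.2 ⟨i.1, lt_of_lt_of_le i.2 h⟩⟩

/-- `T` is a subtree of `^{<κ}κ`: it is closed under initial segments. -/
def IsSubtree (T : Set (Node κ)) : Prop := ∀ s ∈ T, ∀ (β : Idx κ) (h : β ≤ s.1), s.restrict β h ∈ T

/-- The level `T ∩ ^ακ`. -/
def level (T : Set (Node κ)) (α : Idx κ) : Set (Iio α → Idx κ) := {s | (⟨α, s⟩ : Node κ) ∈ T}

/-- The set `[T]` of branches. -/
def body (T : Set (Node κ)) : Set (Pt κ) := {x | ∀ α, (⟨α, tr α x⟩ : Node κ) ∈ T}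

/-- The basic open set `N_s`. -/
def cone (s : Node κ) : Set (Pt κ) := {x | tr s.1 x = s.2}

/-- `T` is an `ω₂`-Kurepa tree: a subtree of `^{<ω₂}ω₂` of height `ω₂` all of whose levels have
size at most `ℵ₁` and which has more than `ℵ₂` branches. -/
structure IsKurepa (T : Set (Node (ℵ_ 2 : Cardinal.{u}))) : Prop where
  /-- closure under initial segments -/
  subtree : IsSubtree T
  /-- the height is `ω₂` -/
  height : ∀ α, (level T α).Nonempty
  /-- the levels are small -/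
  thin : ∀ α, #(level T α) ≤ ℵ_ 1
  /-- there are many branches -/
  many : ℵ_ 2 < #(body T)

/-- `T` is everywhere large: more than `ℵ₂` branches pass through each node. -/
def EverywhereLarge (T : Set (Node (ℵ_ 2 : Cardinal.{u}))) : Prop :=
  ∀ s ∈ T, ℵ_ 2 < #(body T ∩ cone s : Set (Pt (ℵ_ 2 : Cardinal.{u})))

/-- `A` is a continuous image of `κ^κ`. -/
def IsContImage (A : Set (Pt κ)) : Prop := ∃ f : Pt κ → Pt κ, Continuous f ∧ range f = A

/-- `A` is a retract of `κ^κ`. -/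
def IsRetract (A : Set (Pt κ)) : Prop :=
  ∃ r : Pt κ → Pt κ, Continuous r ∧ (∀ x, r x ∈ A) ∧ ∀ a ∈ A, r a = a

theorem isClosed_body (hκ : ℵ₀ ≤ κ) (T : Set (Node κ)) : IsClosed (body T) := by
  rw [isClosed_iff hκ]
  intro x hx α
  obtain ⟨y, hy, hxy⟩ := hx α
  rw [tr_eq_iff.2 hxy]
  exact hy α

theorem tr_body_subset (T : Set (Node κ)) (α : Idx κ) : tr α '' body T ⊆ level T α := by
  rintro _ ⟨x, hx, rfl⟩
  exact hx α

/-- The tree of a set of points. -/
def treeOf (A : Set (Pt κ)) : Set (Node κ) := {s | ∃ a ∈ A, tr s.1 a = s.2}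

theorem isSubtree_treeOf (A : Set (Pt κ)) : IsSubtree (treeOf A) := by
  rintro ⟨α, s⟩ ⟨a, ha, has⟩ β h
  refine ⟨a, ha, ?_⟩
  simp only at has
  subst has
  rfl

theorem level_treeOf (A : Set (Pt κ)) (α : Idx κ) : level (treeOf A) α = tr α '' A := by
  ext s
  exact Iff.rfl

theorem body_treeOf (hκ : ℵ₀ ≤ κ) {A : Set (Pt κ)} (hA : IsClosed A) : body (treeOf A) = A := by
  apply Subset.antisymm
  · intro x hx
    refine (isClosed_iff hκ).1 hA x fun α => ?_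
    obtain ⟨a, ha, haa⟩ := hx α
    exact ⟨a, ha, (tr_eq_iff.1 haa).symm⟩
  · intro x hx α
    exact ⟨x, hx, rfl⟩

theorem aleph_two_regular : (ℵ_ 2 : Cardinal.{u}).IsRegular := by
  have := Cardinal.isRegular_aleph_add_one (1 : Ordinal.{u})
  rwa [one_add_one_eq_two] at this

theorem lt_aleph_two_iff {c : Cardinal.{u}} : c < ℵ_ 2 ↔ c ≤ ℵ_ 1 := by
  rw [← one_add_one_eq_two, ← Cardinal.succ_aleph, Order.lt_succ_iff]

theorem aleph0_lt_aleph_two : (ℵ₀ : Cardinal.{u}) < ℵ_ 2 := by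
  rw [lt_aleph_two_iff, ← Cardinal.aleph_zero]
  exact Cardinal.aleph_le_aleph.2 zero_le_one

/-- Building Kurepa trees from closed sets. -/
theorem isKurepa_treeOf {A : Set (Pt (ℵ_ 2 : Cardinal.{u}))} (hA : IsClosed A)
    (htr : ∀ α, #(tr α '' A) < ℵ_ 2) (hne : A.Nonempty)
    (hlarge : ∀ a ∈ A, ∀ α, ℵ_ 2 < #{a' : Pt (ℵ_ 2 : Cardinal.{u}) | a' ∈ A ∧ Agree α a a'}) :
    IsKurepa (treeOf A) ∧ EverywhereLarge (treeOf A) := by
  have hb := body_treeOf aleph_two_regular.aleph0_le hA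
  have hl : EverywhereLarge (treeOf A) := by
    rintro ⟨α, s⟩ ⟨a, ha, has⟩
    simp only at has
    subst has
    rw [hb]
    refine lt_of_lt_of_le (hlarge a ha α) (Cardinal.mk_le_mk_of_subset ?_)
    rintro a' ⟨ha', haa'⟩
    exact ⟨ha', (tr_eq_iff.2 haa').symm⟩
  refine ⟨⟨isSubtree_treeOf A, fun α => ?_, fun α => ?_, ?_⟩, hl⟩
  · rw [level_treeOf]
    exact hne.image _
  · rw [level_treeOf]
    exact lt_aleph_two_iff.1 (htr α)
  · obtain ⟨a, ha⟩ := hne
    obtain ⟨k0⟩ := nonempty_of (κ := ℵ_ 2) aleph_two_regular.aleph0_le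
    exact lt_of_lt_of_le (hl ⟨k0, tr k0 a⟩ ⟨a, ha, rfl⟩)
      (Cardinal.mk_le_mk_of_subset inter_subset_left)

theorem large_of_image
    (h : ∃ T : Set (Node (ℵ_ 2 : Cardinal.{u})), IsKurepa T ∧ IsContImage (body T)) :
    ∃ T : Set (Node (ℵ_ 2 : Cardinal.{u})),
      IsKurepa T ∧ EverywhereLarge T ∧ IsContImage (body T) := by
  obtain ⟨T, hT, hf⟩ := h
  have htr : ∀ α, #(tr α '' body T) < ℵ_ 2 := fun α => lt_aleph_two_iff.2
    ((Cardinal.mk_le_mk_of_subset (tr_body_subset T α)).trans (hT.thin α))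
  obtain ⟨A, hne, hA, hthin, hlarge, hfA⟩ := exists_everywhere_large aleph_two_regular
    aleph0_lt_aleph_two (isClosed_body aleph_two_regular.aleph0_le T) htr hT.many hf
  obtain ⟨h1, h2⟩ := isKurepa_treeOf hA hthin hne hlarge
  refine ⟨treeOf A, h1, h2, ?_⟩
  rw [body_treeOf aleph_two_regular.aleph0_le hA]
  exact hfA

theorem exists_large (h : ∃ T : Set (Node (ℵ_ 2 : Cardinal.{u})), IsKurepa T) :
    ∃ T : Set (Node (ℵ_ 2 : Cardinal.{u})), IsKurepa T ∧ EverywhereLarge T := by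
  obtain ⟨T, hT⟩ := h
  have hκ := (aleph_two_regular.{u}).aleph0_le
  have htr : ∀ α, #(tr α '' body T) < ℵ_ 2 := fun α => lt_aleph_two_iff.2
    ((Cardinal.mk_le_mk_of_subset (tr_body_subset T α)).trans (hT.thin α))
  have hne := core_nonempty hκ (fun α => (htr α).le) hT.many
  obtain ⟨h1, h2⟩ := isKurepa_treeOf (isClosed_core hκ (isClosed_body hκ T))
    (fun α => lt_of_le_of_lt (Cardinal.mk_le_mk_of_subset (image_mono fun _ h => h.1)) (htr α))
    hne (fun a ha α => core_large hκ (fun α => (htr α).le) (ha.2 α))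
  exact ⟨_, h1, h2⟩

theorem not_retract_of_splitting {T : Set (Node (ℵ_ 2 : Cardinal.{u}))} (hT : IsKurepa T)
    (hs : ∀ x ∈ body T, ∀ α, ∃ y ∈ body T, y ≠ x ∧ tr α y = tr α x) : ¬ IsRetract (body T) := by
  rintro ⟨r, hr, hrE, hra⟩
  refine not_retract aleph_two_regular (l := ℵ_ 1) ?_ (lt_aleph_two_iff.2 le_rfl)
    (E := body T) ?_ ?_ r hr hrE hra
  · rw [← Cardinal.aleph_zero]
    exact Cardinal.aleph_le_aleph.2 zero_le_one
  · exact fun α => (Cardinal.mk_le_mk_of_subset (tr_body_subset T α)).trans (hT.thin α)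
  · intro a ha α
    obtain ⟨y, hy, hne, hy'⟩ := hs a ha α
    exact ⟨y, hy, hne, tr_eq_iff.1 hy'.symm⟩

theorem splitting_of_large {T : Set (Node (ℵ_ 2 : Cardinal.{u}))} (hT : EverywhereLarge T) :
    ∀ x ∈ body T, ∀ α, ∃ y ∈ body T, y ≠ x ∧ tr α y = tr α x := by
  intro x hx α
  have h1 := hT ⟨α, tr α x⟩ (hx α)
  by_contra hcon
  push Not at hcon
  have h2 : (body T ∩ cone ⟨α, tr α x⟩ : Set (Pt (ℵ_ 2 : Cardinal.{u}))) ⊆ {x} := by
    rintro y ⟨hy, hy'⟩
    by_contra hne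
    exact hcon y hy hne hy'
  have h3 := (Cardinal.mk_le_mk_of_subset h2).trans_eq (Cardinal.mk_singleton x)
  have h4 : (1 : Cardinal.{u}) < ℵ_ 2 := Cardinal.one_lt_aleph0.trans aleph0_lt_aleph_two
  exact absurd (h1.trans_le h3) (not_lt.2 h4.le)

/-- Small nonempty sets are continuous images. -/
theorem contImage_of_small {A : Set (Pt (ℵ_ 2 : Cardinal.{u}))} (hne : A.Nonempty)
    (hA : #A ≤ (2 : Cardinal.{u}) ^ (ℵ_ 1 : Cardinal.{u})) : IsContImage A := by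
  classical
  have hκ := (aleph_two_regular.{u}).aleph0_le
  -- an index with `ℵ₁` predecessors
  obtain ⟨α, hα⟩ : ∃ α : Idx (ℵ_ 2 : Cardinal.{u}), #(Iio α) = ℵ_ 1 := by
    have hlt : (ℵ_ 1 : Cardinal.{u}).ord < Ordinal.type
        (fun a b : Idx (ℵ_ 2 : Cardinal.{u}) => a < b) := by
      rw [Ordinal.type_toType, Cardinal.ord_lt_ord]
      exact lt_aleph_two_iff.2 le_rfl
    obtain ⟨α, hα⟩ := Ordinal.typein_surj (fun a b : Idx (ℵ_ 2 : Cardinal.{u}) => a < b) hlt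
    refine ⟨α, ?_⟩
    have h1 := congrArg Ordinal.card hα
    rw [Cardinal.card_ord] at h1
    rw [← h1]
    rfl
  obtain ⟨k0, k1, hk⟩ : ∃ k0 k1 : Idx (ℵ_ 2 : Cardinal.{u}), k0 ≠ k1 := by
    have : Infinite (Idx (ℵ_ 2 : Cardinal.{u})) := by
      rw [Cardinal.infinite_iff, Cardinal.mk_ord_toType]
      exact hκ
    exact exists_pair_ne _
  have h2 : (2 : Cardinal.{u}) ^ (ℵ_ 1 : Cardinal.{u}) ≤ #(Iio α → Idx (ℵ_ 2 : Cardinal.{u})) := by
    rw [← Cardinal.power_def, hα, Cardinal.mk_ord_toType]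
    exact Cardinal.power_le_power_right ((Cardinal.natCast_lt_aleph0 (n := 2)).le.trans hκ)
  obtain ⟨e⟩ := (Cardinal.le_def _ _).1 (hA.trans h2)
  obtain ⟨a₀, ha₀⟩ := hne
  let h : (Iio α → Idx (ℵ_ 2 : Cardinal.{u})) → A := fun t =>
    if ht : ∃ a, e a = t then ht.choose else ⟨a₀, ha₀⟩
  have hh : ∀ a, h (e a) = a := by
    intro a
    have ht : ∃ a', e a' = e a := ⟨a, rfl⟩
    simp only [h, dif_pos ht]
    exact e.injective ht.choose_spec
  refine ⟨fun x => (h (tr α x)).1, ?_, ?_⟩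
  · rw [continuous_iff' hκ]
    intro x β
    refine ⟨α, fun x' hx' => ?_⟩
    rw [tr_eq_iff.2 hx']
    exact Agree.refl _ _
  · apply Subset.antisymm
    · rintro _ ⟨x, rfl⟩
      exact (h _).2
    · intro a ha
      refine ⟨fun β => if hβ : β ∈ Iio α then e ⟨a, ha⟩ ⟨β, hβ⟩ else k0, ?_⟩
      have : tr α (fun β => if hβ : β ∈ Iio α then e ⟨a, ha⟩ ⟨β, hβ⟩ else k0) = e ⟨a, ha⟩ := by
        funext β
        simp [tr]
      show (h (tr α _)).1 = a
      rw [this, hh]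

theorem contImage_of_card_eq
    (h : (2 : Cardinal.{u}) ^ (ℵ_ 1 : Cardinal.{u}) = 2 ^ (ℵ_ 2 : Cardinal.{u}))
    {A : Set (Pt (ℵ_ 2 : Cardinal.{u}))} (hne : A.Nonempty) : IsContImage A := by
  apply contImage_of_small hne
  rw [h]
  refine (Cardinal.mk_set_le A).trans ?_
  have h1 : #(Pt (ℵ_ 2 : Cardinal.{u})) = (ℵ_ 2 : Cardinal.{u}) ^ (ℵ_ 2 : Cardinal.{u}) := by
    show #(Idx (ℵ_ 2 : Cardinal.{u}) → Idx (ℵ_ 2 : Cardinal.{u})) = _
    rw [← Cardinal.power_def, Cardinal.mk_ord_toType]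
  rw [h1, Cardinal.power_self_eq aleph_two_regular.aleph0_le]

end Pool.Agent.V11245.KTree
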