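import Pool.Agent.V11245.Facts

/-!
# Measurable cardinals
-/

set_option autoImplicit false
set_option linter.unusedSectionVars false
set_option linter.unusedVariables false

namespace Pool.Agent.V11245

open Cardinal Filter

universe u v

theorem comp_of_sInter {δ : Cardinal.{u}} {X : Type u} {U : Ultrafilter X}
    (h : ∀ S : Set (Set X), #S < δ → (∀ A ∈ S, A ∈ U) → ⋂₀ S ∈ U) : Comp δ U := by
  intro ι E hι hE
  have h1 : ⋂₀ (Set.range fun k => {x | E k x}) ∈ U := by
    refine h _ (Cardinal.mk_range_le.trans_lt hι) ?_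
    rintro _ ⟨k, rfl⟩
    exact hE k
  refine Filter.mem_of_superset h1 fun x hx k => ?_
  exact hx {x | E k x} ⟨k, rfl⟩

theorem mk_Iio_toType {κ : Cardinal.{u}} (x : κ.ord.ToType) : #(Set.Iio x) < κ := by
  simpa using Cardinal.mk_Iio_lt x

theorem IsMeasurable.data {δ : Cardinal.{u}} (hδ : IsMeasurable δ) :
    ∃ (X : Type u) (V : Ultrafilter X) (w : X → Ordinal.{u}), Comp δ V ∧ #X ≤ δ ∧
      (∀ x, w x < δ.ord) ∧ ∀ x, ∀ᶠ y in (V : Filter X), w x < w y := by
  obtain ⟨hδ0, U, hU1, hU2⟩ := hδ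
  have hcomp := comp_of_sInter hU2
  refine ⟨δ.ord.ToType, U, fun x => Ordinal.typein (α := δ.ord.ToType) (· < ·) x, hcomp, by simp,
    fun x => ?_, fun x => ?_⟩
  · have := Ordinal.typein_lt_type (α := δ.ord.ToType) (· < ·) x
    rwa [Ordinal.type_toType] at this
  · have h1 : ∀ᶠ y in (U : Filter _), ∀ z : Set.Iic x, y ≠ z.1 := by
      refine hcomp _ _ ?_ fun z => ?_
      · have h2 : Set.Iic x ⊆ insert x (Set.Iio x) := by
          intro y hy
          rcases (Set.mem_Iic.1 hy).eq_or_lt with h | h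
          · exact Or.inl h
          · exact Or.inr h
        refine (Cardinal.mk_le_mk_of_subset h2).trans_lt (Cardinal.mk_insert_le.trans_lt ?_)
        exact Cardinal.add_lt_of_lt hδ0.le (mk_Iio_toType x) (Cardinal.one_lt_aleph0.trans hδ0)
      · have h3 := hU1 z.1
        exact Ultrafilter.eventually_not.2 h3
    refine h1.mono fun y hy => ?_
    rw [Ordinal.typein_lt_typein]
    by_contra hle
    exact hy ⟨y, not_lt.1 hle⟩ rfl

theorem IsMeasurable.two_power_lt {δ : Cardinal.{u}} (hδ : IsMeasurable δ) {c : Cardinal.{u}}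
    (hc : c < δ) : (2 : Cardinal.{u}) ^ c < δ := by
  by_contra hlt
  rw [not_lt] at hlt
  obtain ⟨hδ0, U, hU1, hU2⟩ := hδ
  have hcomp := comp_of_sInter hU2
  obtain ⟨j⟩ : Nonempty (δ.ord.ToType ↪ Set c.out) := by
    rw [← Cardinal.le_def, Cardinal.mk_set, Cardinal.mk_out, Cardinal.mk_ord_toType]
    exact hlt
  have h1 : ∀ᶠ x in (U : Filter _), ∀ k : c.out, (k ∈ j x ↔ ∀ᶠ y in (U : Filter _), k ∈ j y) := by
    refine hcomp _ _ (by rw [Cardinal.mk_out]; exact hc) fun k => ?_
    by_cases hk : ∀ᶠ y in (U : Filter _), k ∈ j y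
    · exact hk.mono fun x hx => iff_of_true hx hk
    · exact (Ultrafilter.eventually_not.2 hk).mono fun x hx => iff_of_false hx hk
  obtain ⟨x, hx⟩ := h1.exists
  refine hU1 x (Filter.mem_of_superset h1 fun y hy => ?_)
  rw [Set.mem_singleton_iff]
  apply j.injective
  ext k
  rw [hy k, hx k]

theorem exists_elem {κ c : Cardinal.{u}} (hc : c < κ) :
    ∃ δ : κ.ord.ToType, Ordinal.typein (α := κ.ord.ToType) (· < ·) δ = c.ord := by
  have h : c.ord < Ordinal.type (α := κ.ord.ToType) (· < ·) := by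
    rw [Ordinal.type_toType]
    exact Cardinal.ord_lt_ord.2 hc
  exact ⟨Ordinal.enum (α := κ.ord.ToType) (· < ·) ⟨c.ord, h⟩, Ordinal.typein_enum _ h⟩

theorem exists_elem' {κ : Cardinal.{u}} {β : Ordinal.{u}} (hβ : β < κ.ord) :
    ∃ x : κ.ord.ToType, Ordinal.typein (α := κ.ord.ToType) (· < ·) x = β := by
  have h : β < Ordinal.type (α := κ.ord.ToType) (· < ·) := by
    rw [Ordinal.type_toType]
    exact hβ
  exact ⟨Ordinal.enum (α := κ.ord.ToType) (· < ·) ⟨β, h⟩, Ordinal.typein_enum _ h⟩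

theorem card_Iio {κ : Cardinal.{u}} (α : κ.ord.ToType) :
    #(Set.Iio α) = (Ordinal.typein (α := κ.ord.ToType) (· < ·) α).card := rfl

/-! ### More on the embedding -/

section

variable {Λ : Type u} [LinearOrder Λ] {Pt : Λ → Type u} {U : ∀ i, Ultrafilter (Pt i)}
  {S : Set Λ} (h : WellFounded (Rel U S))

theorem emb_pair_set (x y : ZFSet.{u}) : emb h {x, y} = {emb h x, emb h y} := by
  ext z
  rw [ZFSet.mem_pair]
  constructor
  · intro hz
    unfold emb at hz
    rw [mem_col] at hz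
    obtain ⟨g, hg, rfl⟩ := hz
    rcases (hg.1.comp fun z => z = x).ev_or (U := U) with h1 | h1
    · exact Or.inl (col_congr h hg.1 (Fn.const S x) h1)
    · refine Or.inr (col_congr h hg.1 (Fn.const S y) ?_)
      filter_upwards [h1, hg.2.2] with s hs1 hs2
      rw [ZFSet.mem_pair] at hs2
      exact hs2.resolve_left hs1
  · rintro (rfl | rfl)
    · exact (emb_mem_iff h).2 (ZFSet.mem_pair.2 (Or.inl rfl))
    · exact (emb_mem_iff h).2 (ZFSet.mem_pair.2 (Or.inr rfl))

theorem emb_pair (x y : ZFSet.{u}) : emb h (ZFSet.pair x y) = ZFSet.pair (emb h x) (emb h y) := by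
  unfold ZFSet.pair
  rw [emb_pair_set, emb_pair_set, ← ZFSet.pair_eq_singleton, emb_pair_set, ZFSet.pair_eq_singleton]

end

end Pool.Agent.V11245
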