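import Mathlib

/-!
# Finite support products of ultrafilters along a linear order
-/

set_option autoImplicit false

set_option linter.unusedSectionVars false
set_option linter.unusedVariables false

namespace Pool.Agent.V11245

open Cardinal Filter

universe u v

section

variable {Λ : Type u} [LinearOrder Λ] {Pt : Λ → Type u} (U : ∀ i, Ultrafilter (Pt i))

open Classical in
/-- the iterated product of the ultrafilters `U i`, `i` in the list `l` (the first one outermost);
the coordinates outside of `l` are those of `s` -/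
noncomputable def P : List Λ → (∀ i, Pt i) → Ultrafilter (∀ i, Pt i)
  | [], s => pure s
  | i :: l, s => (U i).bind fun x => P l (Function.update s i x)

/-- `f` depends only on the coordinates in `a` -/
def Dep (a : Set Λ) {X : Type v} (f : (∀ i, Pt i) → X) : Prop :=
  ∀ s t, (∀ i ∈ a, s i = t i) → f s = f t

variable {U}

theorem Dep.mono {a b : Set Λ} {X : Type v} {f : (∀ i, Pt i) → X} (h : Dep a f) (hab : a ⊆ b) :
    Dep b f := fun s t hst => h s t fun i hi => hst i (hab hi)

theorem Dep.const {a : Set Λ} {X : Type v} (x : X) : Dep (Pt := Pt) a fun _ => x :=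
  fun _ _ _ => rfl

theorem Dep.comp₂ {a : Set Λ} {X Y Z : Type*} {f : (∀ i, Pt i) → X} {g : (∀ i, Pt i) → Y}
    (hf : Dep a f) (hg : Dep a g) (h : X → Y → Z) : Dep a fun s => h (f s) (g s) := by
  intro s t hst
  dsimp only
  rw [hf s t hst, hg s t hst]

theorem Dep.comp {a : Set Λ} {X Y : Type*} {f : (∀ i, Pt i) → X}
    (hf : Dep a f) (h : X → Y) : Dep a fun s => h (f s) := by
  intro s t hst
  dsimp only
  rw [hf s t hst]

open Classical in
theorem P_cons (i : Λ) (l : List Λ) (s : ∀ i, Pt i) (E : (∀ i, Pt i) → Prop) :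
    (∀ᶠ t in (P U (i :: l) s : Filter _), E t) ↔
      ∀ᶠ x in (U i : Filter _), ∀ᶠ t in (P U l (Function.update s i x) : Filter _), E t := by
  exact Iff.rfl

theorem P_nil (s : ∀ i, Pt i) (E : (∀ i, Pt i) → Prop) :
    (∀ᶠ t in (P U [] s : Filter _), E t) ↔ E s := by
  exact Iff.rfl

open Classical in
theorem P_congr {a : Set Λ} {E : (∀ i, Pt i) → Prop} (hE : Dep a E) (l : List Λ) :
    ∀ {s t : ∀ i, Pt i}, (∀ i ∈ a, i ∉ l → s i = t i) →
    ((∀ᶠ r in (P U l s : Filter _), E r) ↔ ∀ᶠ r in (P U l t : Filter _), E r) := by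
  induction l with
  | nil =>
    intro s t h
    rw [P_nil, P_nil, hE s t fun i hi => h i hi (List.not_mem_nil)]
  | cons j l ih =>
    intro s t h
    rw [P_cons, P_cons]
    refine Filter.eventually_congr (Filter.Eventually.of_forall fun x => ih fun i hi hil => ?_)
    by_cases hij : i = j
    · subst hij
      rw [Function.update_self, Function.update_self]
    · rw [Function.update_of_ne hij, Function.update_of_ne hij]
      refine h i hi ?_
      simp only [List.mem_cons, not_or]
      exact ⟨hij, hil⟩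

theorem P_skip {a : Set Λ} [DecidablePred fun i => i ∈ a] {E : (∀ i, Pt i) → Prop}
    (hE : Dep a E) (l : List Λ) :
    ∀ s : ∀ i, Pt i, ((∀ᶠ r in (P U l s : Filter _), E r) ↔
      ∀ᶠ r in (P U (l.filter (fun i => decide (i ∈ a))) s : Filter _), E r) := by
  induction l with
  | nil => intro s; rfl
  | cons j l ih =>
    intro s
    by_cases hj : j ∈ a
    · rw [List.filter_cons_of_pos (by simpa using hj), P_cons, P_cons]
      exact Filter.eventually_congr (Filter.Eventually.of_forall fun x => ih _)
    · rw [List.filter_cons_of_neg (by simpa using hj), P_cons, ← ih s]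
      have h : ∀ x, (∀ᶠ r in (P U l (Function.update s j x) : Filter _), E r) ↔
          ∀ᶠ r in (P U l s : Filter _), E r := by
        intro x
        refine P_congr hE l fun i hi _ => ?_
        rw [Function.update_of_ne]
        rintro rfl
        exact hj hi
      simp only [h]
      exact Filter.eventually_const

open Classical in
theorem P_append (l l' : List Λ) : ∀ (s : ∀ i, Pt i) (E : (∀ i, Pt i) → Prop),
    (∀ᶠ r in (P U (l ++ l') s : Filter _), E r) ↔
      ∀ᶠ t in (P U l s : Filter _), ∀ᶠ r in (P U l' t : Filter _), E r := by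
  induction l with
  | nil => intro s E; rfl
  | cons j l ih =>
    intro s E
    rw [List.cons_append, P_cons, P_cons]
    exact Filter.eventually_congr (Filter.Eventually.of_forall fun x => ih _ _)

/-- completeness of an ultrafilter: intersections of fewer than `δ` members are members -/
def Comp (δ : Cardinal.{u}) {X : Type u} (W : Ultrafilter X) : Prop :=
  ∀ (ι : Type u) (E : ι → X → Prop), #ι < δ → (∀ k, ∀ᶠ x in (W : Filter X), E k x) →
    ∀ᶠ x in (W : Filter X), ∀ k, E k x

theorem Comp.mono {δ δ' : Cardinal.{u}} {X : Type u} {W : Ultrafilter X} (h : Comp δ W) (hδ : δ' ≤ δ) :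
    Comp δ' W := fun ι E hι hE => h ι E (hι.trans_le hδ) hE

open Classical in
theorem P_complete {δ : Cardinal.{u}} (l : List Λ) (hl : ∀ i ∈ l, Comp δ (U i)) :
    ∀ s : ∀ i, Pt i, Comp δ (P U l s) := by
  induction l with
  | nil =>
    intro s ι E _ hE
    exact hE
  | cons j l ih =>
    intro s ι E hι hE
    rw [P_cons]
    have h1 := hl j List.mem_cons_self ι
      (fun k x => ∀ᶠ t in (P U l (Function.update s j x) : Filter _), E k t) hι
      (fun k => (P_cons j l s (E k)).1 (hE k))
    refine h1.mono fun x hx => ?_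
    exact ih (fun i hi => hl i (List.mem_cons_of_mem _ hi)) _ ι E hι hx

/-- a point with coordinates in `l` from `t` and the others from `s` -/
noncomputable def mix (L : Set Λ) (s t : ∀ i, Pt i) : ∀ i, Pt i :=
  open Classical in fun i => if i ∈ L then s i else t i

theorem mix_mem {L : Set Λ} (s t : ∀ i, Pt i) {i : Λ} (h : i ∈ L) : mix L s t i = s i := if_pos h

theorem mix_not_mem {L : Set Λ} (s t : ∀ i, Pt i) {i : Λ} (h : i ∉ L) : mix L s t i = t i :=
  if_neg h

open Classical in
theorem P_mix {E : (∀ i, Pt i) → Prop} (L : Set Λ) (l : List Λ) (hl : ∀ i ∈ l, i ∈ L) :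
    ∀ s t : ∀ i, Pt i, (∀ᶠ r in (P U l (mix L s t) : Filter _), E r) ↔
      ∀ᶠ r in (P U l s : Filter _), E (mix L r t) := by
  induction l with
  | nil => intro s t; rfl
  | cons j l ih =>
    intro s t
    rw [P_cons, P_cons]
    refine Filter.eventually_congr (Filter.Eventually.of_forall fun x => ?_)
    rw [← ih (fun i hi => hl i (List.mem_cons_of_mem _ hi))]
    have : Function.update (mix L s t) j x = mix L (Function.update s j x) t := by
      funext i
      by_cases hij : i = j
      · subst hij
        rw [Function.update_self, mix_mem _ _ (hl i List.mem_cons_self), Function.update_self]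
      · rw [Function.update_of_ne hij]
        unfold mix
        rw [Function.update_of_ne hij]
    rw [this]

/-! ### The filter -/

theorem filter_sort {a b : Finset Λ} (hab : a ⊆ b) [DecidablePred fun i => i ∈ (a : Set Λ)] :
    (b.sort (· ≤ ·)).filter (fun i => decide (i ∈ (a : Set Λ))) = a.sort (· ≤ ·) := by
  have h1 : ((b.sort (· ≤ ·)).filter (fun i => decide (i ∈ (a : Set Λ)))).Nodup :=
    (b.sort_nodup _).filter _
  have h2 : ((b.sort (· ≤ ·)).filter (fun i => decide (i ∈ (a : Set Λ)))).toFinset = a := by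
    ext i
    simp only [List.mem_toFinset, List.mem_filter, Finset.mem_sort, Finset.mem_coe,
      decide_eq_true_eq]
    exact ⟨fun h => h.2, fun h => ⟨hab h, h⟩⟩
  have h3 := ((List.toFinset_sort (r := (· ≤ ·)) h1).2 ((b.pairwise_sort (· ≤ ·)).filter _))
  rw [← h3, h2]

theorem sort_union {a b : Finset Λ} (hab : ∀ i ∈ a, ∀ j ∈ b, i < j) :
    (a ∪ b).sort (· ≤ ·) = a.sort (· ≤ ·) ++ b.sort (· ≤ ·) := by
  have h1 : (a.sort (· ≤ ·) ++ b.sort (· ≤ ·)).Nodup := by
    refine List.Nodup.append (a.sort_nodup _) (b.sort_nodup _) ?_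
    intro i hi hj
    rw [Finset.mem_sort] at hi hj
    exact lt_irrefl _ (hab i hi i hj)
  have h2 : (a.sort (· ≤ ·) ++ b.sort (· ≤ ·)).toFinset = a ∪ b := by
    rw [List.toFinset_append, Finset.sort_toFinset, Finset.sort_toFinset]
  have h3 := ((List.toFinset_sort (r := (· ≤ ·)) h1).2 (by
    rw [List.pairwise_append]
    refine ⟨a.pairwise_sort _, b.pairwise_sort _, fun i hi j hj => ?_⟩
    rw [Finset.mem_sort] at hi hj
    exact (hab i hi j hj).le))
  rw [← h3, h2]

/-- a base point -/
noncomputable def base (U : ∀ i, Ultrafilter (Pt i)) : ∀ i, Pt i := fun i =>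
  Classical.choice ((U i).nonempty_of_mem Filter.univ_mem).to_type

variable (U) in
/-- the product of the ultrafilters `U i`, `i ∈ a` -/
noncomputable def W (a : Finset Λ) : Ultrafilter (∀ i, Pt i) := P U (a.sort (· ≤ ·)) (base U)

theorem W_mono {a b : Finset Λ} (hab : a ⊆ b) {E : (∀ i, Pt i) → Prop}
    (hE : Dep (a : Set Λ) E) :
    (∀ᶠ s in (W U b : Filter _), E s) ↔ ∀ᶠ s in (W U a : Filter _), E s := by
  classical
  unfold W
  rw [P_skip hE, filter_sort hab]

variable (U) in
/-- The filter of the sets which include a large set with finite support. -/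
def FF : Filter (∀ i, Pt i) where
  sets := {E | ∃ (a : Finset Λ) (E' : (∀ i, Pt i) → Prop), Dep (a : Set Λ) E' ∧
    (∀ᶠ s in (W U a : Filter _), E' s) ∧ ∀ s, E' s → s ∈ E}
  univ_sets := ⟨∅, fun _ => True, Dep.const _, Filter.Eventually.of_forall fun _ => trivial,
    fun _ _ => Set.mem_univ _⟩
  sets_of_superset := by
    rintro E F ⟨a, E', h1, h2, h3⟩ hEF
    exact ⟨a, E', h1, h2, fun s hs => hEF (h3 s hs)⟩
  inter_sets := by
    rintro E F ⟨a, E', h1, h2, h3⟩ ⟨b, F', h1', h2', h3'⟩
    classical
    have ha : (a : Set Λ) ⊆ ((a ∪ b : Finset Λ) : Set Λ) := by simp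
    have hb : (b : Set Λ) ⊆ ((a ∪ b : Finset Λ) : Set Λ) := by simp
    refine ⟨a ∪ b, fun s => E' s ∧ F' s, (h1.mono ha).comp₂ (h1'.mono hb) _, ?_,
      fun s hs => ⟨h3 s hs.1, h3' s hs.2⟩⟩
    have h4 := (W_mono (U := U) (Finset.subset_union_left (s₂ := b)) h1).2 h2
    have h5 := (W_mono (U := U) (Finset.subset_union_right (s₁ := a)) h1').2 h2'
    exact h4.and h5

theorem ev_iff {a : Finset Λ} {E : (∀ i, Pt i) → Prop} (hE : Dep (a : Set Λ) E) :
    (∀ᶠ s in FF U, E s) ↔ ∀ᶠ s in (W U a : Filter _), E s := by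
  classical
  constructor
  · rintro ⟨b, E', h1, h2, h3⟩
    have hb : (b : Set Λ) ⊆ ((a ∪ b : Finset Λ) : Set Λ) := by simp
    rw [← W_mono (U := U) (Finset.subset_union_left (s₂ := b)) hE]
    exact ((W_mono (U := U) Finset.subset_union_right h1).2 h2).mono h3
  · intro h
    exact ⟨a, E, hE, h, fun s hs => hs⟩

theorem ev_or {a : Finset Λ} {E : (∀ i, Pt i) → Prop} (hE : Dep (a : Set Λ) E) :
    (∀ᶠ s in FF U, E s) ∨ ∀ᶠ s in FF U, ¬ E s := by
  rw [ev_iff hE, ev_iff (hE.comp Not)]
  exact Ultrafilter.eventually_or.1 (Filter.Eventually.of_forall fun s => Classical.em _)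

theorem ev_not {a : Finset Λ} {E : (∀ i, Pt i) → Prop} (hE : Dep (a : Set Λ) E) :
    (∀ᶠ s in FF U, ¬ E s) ↔ ¬ ∀ᶠ s in FF U, E s := by
  rw [ev_iff hE, ev_iff (hE.comp Not)]
  exact Ultrafilter.eventually_not

instance : (FF U).NeBot := by
  constructor
  intro h
  have h1 : ∀ᶠ s in FF U, False := by rw [h]; trivial
  rw [ev_iff (a := ∅) (Dep.const _)] at h1
  simp at h1
  exact (W U ∅).neBot.ne h1

theorem ev_complete {δ : Cardinal.{u}} {a : Finset Λ} (ha : ∀ i ∈ a, Comp δ (U i)) {ι : Type u}
    (hι : #ι < δ) {E : ι → (∀ i, Pt i) → Prop} (hE : ∀ k, Dep (a : Set Λ) (E k))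
    (h : ∀ k, ∀ᶠ s in FF U, E k s) : ∀ᶠ s in FF U, ∀ k, E k s := by
  have h1 : Dep (a : Set Λ) fun s => ∀ k, E k s := by
    intro s t hst
    exact propext (forall_congr' fun k => by rw [hE k s t hst])
  rw [ev_iff h1]
  refine P_complete _ (fun i hi => ha i ?_) _ ι E hι fun k => ?_
  · rwa [Finset.mem_sort] at hi
  · exact (ev_iff (hE k)).1 (h k)

open Classical in
/-- countably many large sets with finite support have a common point -/
theorem exists_point [WellFoundedLT Λ] {S : Set Λ} (hS : ∀ i ∈ S, Comp (Order.succ ℵ₀) (U i))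
    {a : ℕ → Finset Λ} (ha : ∀ k, (a k : Set Λ) ⊆ S) {E : ℕ → (∀ i, Pt i) → Prop}
    (hE : ∀ k, Dep (a k : Set Λ) (E k)) (h : ∀ k, ∀ᶠ s in FF U, E k s) : ∃ s, ∀ k, E k s := by
  let l : ℕ → List Λ := fun k => (a k).sort (· ≤ ·)
  let tl : ℕ → Λ → List Λ := fun k j => (l k).filter (fun i => decide (j < i))
  let G : ∀ j, (∀ i, Pt i) → Pt j → Prop := fun j s x => ∀ k,
    (∀ᶠ y in (U j : Filter _), ∀ᶠ t in (P U (tl k j) (Function.update s j y) : Filter _), E k t) →
      ∀ᶠ t in (P U (tl k j) (Function.update s j x) : Filter _), E k t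
  have hG : ∀ j ∈ S, ∀ s, ∃ x, G j s x := by
    intro j hj s
    have h1 : ∀ᶠ x in (U j : Filter _), ∀ k : ULift.{u} ℕ, (∀ᶠ y in (U j : Filter _),
        ∀ᶠ t in (P U (tl k.down j) (Function.update s j y) : Filter _), E k.down t) →
        ∀ᶠ t in (P U (tl k.down j) (Function.update s j x) : Filter _), E k.down t := by
      refine hS j hj _ _ ?_ fun k => ?_
      · rw [Order.lt_succ_iff]
        simp
      · by_cases hk : ∀ᶠ y in (U j : Filter _),
          ∀ᶠ t in (P U (tl k.down j) (Function.update s j y) : Filter _), E k.down t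
        · exact hk.mono fun x hx _ => hx
        · exact Filter.Eventually.of_forall fun x hx => absurd hx hk
    obtain ⟨x, hx⟩ := h1.exists
    exact ⟨x, fun k => hx ⟨k⟩⟩
  let pick : ∀ j, (∀ i, Pt i) → Pt j := fun j s => if h : ∃ x, G j s x then h.choose else base U j
  have hpick : ∀ j ∈ S, ∀ s, G j s (pick j s) := by
    intro j hj s
    have := hG j hj s
    simp only [pick, dif_pos this]
    exact this.choose_spec
  let F : ∀ j, (∀ i, i < j → Pt i) → Pt j := fun j rec =>
    pick j fun i => if h : i < j then rec i h else base U i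
  let s : ∀ j, Pt j := WellFounded.fix (C := Pt) (wellFounded_lt (α := Λ)) F
  let cut : Λ → (∀ i, Pt i) := fun j i => if i < j then s i else base U i
  have hs : ∀ j, s j = pick j (cut j) := by
    intro j
    have := WellFounded.fix_eq (C := Pt) (wellFounded_lt (α := Λ)) F j
    refine this.trans ?_
    show pick j _ = pick j _
    congr 1
  have hstep : ∀ k, ∀ j ∈ a k,
      (∀ᶠ y in (U j : Filter _), ∀ᶠ t in (P U (tl k j) (Function.update s j y) : Filter _), E k t) →
      ∀ᶠ t in (P U (tl k j) s : Filter _), E k t := by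
    intro k j hj hev
    have hcong : ∀ y, (∀ᶠ t in (P U (tl k j) (Function.update (cut j) j y) : Filter _), E k t) ↔
        ∀ᶠ t in (P U (tl k j) (Function.update s j y) : Filter _), E k t := by
      intro y
      refine P_congr (hE k) _ fun i hi hil => ?_
      by_cases hij : i = j
      · subst hij
        rw [Function.update_self, Function.update_self]
      · rw [Function.update_of_ne hij, Function.update_of_ne hij]
        have hlt : i < j := by
          by_contra hlt
          apply hil
          simp only [tl, l, List.mem_filter, Finset.mem_sort, decide_eq_true_eq]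
          exact ⟨hi, lt_of_le_of_ne (not_lt.1 hlt) (Ne.symm hij)⟩
        simp only [cut, if_pos hlt]
    have h1 := hpick j (ha k hj) (cut j) k
    simp only [hcong] at h1
    have h2 := h1 hev
    rw [← hs j, Function.update_eq_self] at h2
    exact h2
  refine ⟨s, fun k => ?_⟩
  have key : ∀ l1 l2 : List Λ, l k = l1 ++ l2 → ∀ᶠ t in (P U l2 s : Filter _), E k t := by
    intro l1
    induction l1 using List.reverseRecOn with
    | nil =>
      intro l2 hl2
      rw [List.nil_append] at hl2
      rw [← hl2]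
      have h1 := (ev_iff (hE k)).1 (h k)
      refine (P_congr (hE k) _ fun i hi hil => ?_).1 h1
      exfalso
      apply hil
      show i ∈ (a k).sort (· ≤ ·)
      rw [Finset.mem_sort]
      exact hi
    | append_singleton l1 j ih =>
      intro l2 hl2
      rw [List.append_assoc, List.singleton_append] at hl2
      have h1 := ih _ hl2
      rw [P_cons] at h1
      have hsort : (l k).Pairwise (· < ·) := by
        have := (a k).sortedLT_sort
        exact this.pairwise
      have htl : tl k j = l2 := by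
        simp only [tl]
        rw [hl2, List.filter_append, List.filter_cons_of_neg (by simp)]
        rw [hl2, List.pairwise_append, List.pairwise_cons] at hsort
        rw [List.filter_eq_nil_iff.2, List.nil_append, List.filter_eq_self]
        · intro i hi
          simpa using hsort.2.1.1 i hi
        · intro i hi
          have := hsort.2.2 i hi j List.mem_cons_self
          simpa using this.le
      have hj : j ∈ a k := by
        have : j ∈ l k := by rw [hl2]; simp
        simpa [l] using this
      rw [← htl] at h1 ⊢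
      exact hstep k j hj h1
  exact key (l k) [] (List.append_nil _).symm

theorem mk_pi_le {a : Finset Λ} {θ : Cardinal.{u}} (hθ : ℵ₀ ≤ θ) (h : ∀ i ∈ a, #(Pt i) ≤ θ) :
    #(∀ i : a, Pt i) ≤ θ := by
  rw [Cardinal.mk_pi]
  refine (Cardinal.prod_le_prod (fun i : a => #(Pt i)) (fun _ => θ) fun i => h i i.2).trans ?_
  rw [Cardinal.prod_const, Cardinal.lift_id, Cardinal.lift_id, Cardinal.mk_coe_finset]
  exact Cardinal.power_nat_le hθ

open Classical in
/-- extension of a finite sequence by the base point -/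
noncomputable def ext (a : Finset Λ) (q : ∀ i : a, Pt i) (r : ∀ i, Pt i) : ∀ i, Pt i :=
  fun i => if h : i ∈ a then q ⟨i, h⟩ else r i

theorem ext_mem {a : Finset Λ} (q : ∀ i : a, Pt i) (r : ∀ i, Pt i) {i : Λ} (h : i ∈ a) :
    ext a q r i = q ⟨i, h⟩ := dif_pos h

theorem ev_fubini {L : Set Λ} {a b : Finset Λ} (haL : ∀ i ∈ a, i ∈ L) (hbL : ∀ i ∈ b, i ∉ L)
    (hab : ∀ i ∈ a, ∀ j ∈ b, i < j) {θ : Cardinal.{u}} (hθ : ℵ₀ ≤ θ) (hpt : ∀ i ∈ a, #(Pt i) ≤ θ)
    (hb : ∀ j ∈ b, Comp (Order.succ θ) (U j)) {E : (∀ i, Pt i) → Prop}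
    (hE : Dep ((a ∪ b : Finset Λ) : Set Λ) E) :
    (∀ᶠ u in FF U, E u) ↔ ∀ᶠ t in FF U, ∀ᶠ s in FF U, E (mix L s t) := by
  classical
  have hmix1 : ∀ t, Dep (a : Set Λ) fun s => E (mix L s t) := by
    intro t s s' hss
    refine hE _ _ fun i hi => ?_
    rw [Finset.mem_coe, Finset.mem_union] at hi
    rcases hi with hi | hi
    · rw [mix_mem _ _ (haL i hi), mix_mem _ _ (haL i hi)]
      exact hss i hi
    · rw [mix_not_mem _ _ (hbL i hi), mix_not_mem _ _ (hbL i hi)]
  have hmix2 : ∀ s, Dep (b : Set Λ) fun t => E (mix L s t) := by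
    intro s t t' htt
    refine hE _ _ fun i hi => ?_
    rw [Finset.mem_coe, Finset.mem_union] at hi
    rcases hi with hi | hi
    · rw [mix_mem _ _ (haL i hi), mix_mem _ _ (haL i hi)]
    · rw [mix_not_mem _ _ (hbL i hi), mix_not_mem _ _ (hbL i hi)]
      exact htt i hi
  -- the left-hand side
  have h1 : (∀ᶠ u in FF U, E u) ↔
      ∀ᶠ s in (W U a : Filter _), ∀ᶠ t in (W U b : Filter _), E (mix L s t) := by
    rw [ev_iff hE]
    unfold W
    rw [sort_union hab, P_append]
    refine Filter.eventually_congr (Filter.Eventually.of_forall fun s => ?_)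
    have h2 : (∀ᶠ r in (P U (b.sort (· ≤ ·)) s : Filter _), E r) ↔
        ∀ᶠ r in (P U (b.sort (· ≤ ·)) (mix Lᶜ (base U) s) : Filter _), E r := by
      refine P_congr hE _ fun i hi hil => ?_
      rw [Finset.mem_sort] at hil
      rw [Finset.mem_coe, Finset.mem_union] at hi
      rw [mix_not_mem]
      have := haL i (hi.resolve_right hil)
      simpa using this
    rw [h2, P_mix (U := U) Lᶜ (b.sort (· ≤ ·)) (fun i hi => hbL i (by simpa using hi))]
    have h3 : ∀ r, mix Lᶜ r s = mix L s r := by
      intro r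
      funext i
      by_cases hi : i ∈ L
      · rw [mix_mem _ _ hi, mix_not_mem]
        simpa using hi
      · rw [mix_not_mem _ _ hi, mix_mem]
        exact hi
    simp only [h3]
  -- the right-hand side
  have h2 : (∀ᶠ t in FF U, ∀ᶠ s in FF U, E (mix L s t)) ↔
      ∀ᶠ t in (W U b : Filter _), ∀ᶠ s in (W U a : Filter _), E (mix L s t) := by
    have h3 : ∀ t, (∀ᶠ s in FF U, E (mix L s t)) ↔ ∀ᶠ s in (W U a : Filter _), E (mix L s t) :=
      fun t => ev_iff (hmix1 t)
    simp only [h3]
    refine ev_iff ?_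
    intro t t' htt
    have : ∀ s, E (mix L s t) = E (mix L s t') := fun s => hmix2 s t t' htt
    simp only [this]
  rw [h1, h2]
  let T : (∀ i, Pt i) → Prop := fun s => ∀ᶠ t in (W U b : Filter _), E (mix L s t)
  have hT : ∀ᶠ t in (W U b : Filter _), ∀ s, (E (mix L s t) ↔ T s) := by
    have h3 : ∀ᶠ t in (W U b : Filter _), ∀ q : (∀ i : a, Pt i),
        (E (mix L (ext a q (base U)) t) ↔ T (ext a q (base U))) := by
      refine P_complete _ (fun i hi => hb i ?_) _ _ _ ?_ fun q => ?_
      · rwa [Finset.mem_sort] at hi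
      · exact Order.lt_succ_of_le (mk_pi_le hθ hpt)
      · by_cases hq : T (ext a q (base U))
        · refine Filter.Eventually.mono hq fun t ht => ?_
          exact iff_of_true ht hq
        · have hq' := Ultrafilter.eventually_not.2 hq
          exact hq'.mono fun t ht => iff_of_false ht hq
    refine h3.mono fun t ht s => ?_
    have h4 := ht fun i => s i
    have h5 : ∀ t, E (mix L (ext a (fun i => s i) (base U)) t) = E (mix L s t) := by
      intro t
      refine hmix1 t _ _ fun i hi => ?_
      rw [ext_mem _ _ hi]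
    have h6 : T (ext a (fun i => s i) (base U)) = T s := by
      simp only [T, h5]
    rw [h5, h6] at h4
    exact h4
  constructor
  · intro h
    refine hT.mono fun t ht => ?_
    simp only [ht]
    exact h
  · intro h
    obtain ⟨t, ht1, ht2⟩ := (hT.and h).exists
    simp only [ht1] at ht2
    exact ht2

end

end Pool.Agent.V11245
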